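import Pool.Agent.Work.MP_8f87b2_h99.L3E
import Pool.Agent.Work.MP_8f87b2_mid.DisC

/-!
# The mirrored pair gadget `Is9M nil nil S` against the plain triples (helper16)

`MV.W S X i`, `i < 9`: the words `(())S`, `S(())`, `(S())`, `((S))`, `(()S)`, `()(S)`, `(X)`, `()X`, `X()`, `X = xTM S`.
-/

set_option autoImplicit false
set_option linter.unusedSimpArgs false
set_option linter.unusedVariables false

namespace Pool.OddHC

open Finset Equiv BinaryTree Pool.Agent.Work.MP_8f87b2_co

namespace MV

variable {k : ℕ} {S X : BinaryTree Unit} {F F' : Set (Cyc k)} {g g' : DG k}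

/-- the nine words -/
def W (S X : BinaryTree Unit) : ℕ → BinaryTree Unit
  | 0 => (.nil △ .nil) △ S
  | 1 => app S ((.nil △ .nil) △ .nil)
  | 2 => app S (.nil △ .nil) △ .nil
  | 3 => (S △ .nil) △ .nil
  | 4 => (.nil △ S) △ .nil
  | 5 => .nil △ (S △ .nil)
  | 6 => X △ .nil
  | 7 => .nil △ X
  | _ => app X (.nil △ .nil)

theorem w9LM_W (S X : BinaryTree Unit) {i : ℕ} (hi : i < 9) : w9LM .nil .nil S X i = W S X i := by
  have e : app X .nil = X := H1.app_nil X
  interval_cases i
  · rfl
  · rfl
  · rfl
  · rfl
  · rfl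
  · rfl
  · change app X .nil △ .nil = X △ .nil
    rw [e]
  · change .nil △ app X .nil = .nil △ X
    rw [e]
  · change app (app X .nil) (.nil △ .nil) = app X (.nil △ .nil)
    rw [e]

/-- components of the nine words -/
theorem cw (S X : BinaryTree Unit) : comps (W S X 0) = (.nil △ .nil) :: comps S ∧
    comps (W S X 1) = comps S ++ [.nil △ .nil] ∧ comps (W S X 2) = [app S (.nil △ .nil)] ∧
    comps (W S X 3) = [S △ .nil] ∧ comps (W S X 4) = [.nil △ S] ∧
    comps (W S X 5) = [.nil, S] ∧ comps (W S X 6) = [X] ∧ comps (W S X 7) = .nil :: comps X ∧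
    comps (W S X 8) = comps X ++ [.nil] := by
  refine ⟨rfl, ?_, rfl, rfl, rfl, rfl, rfl, rfl, ?_⟩
  · change comps (app S _) = _
    rw [comps_app]; rfl
  · change comps (app X _) = _
    rw [comps_app]; rfl

theorem nil_mem : ∀ {t : BinaryTree Unit}, (cont t).count 1 = 0 → .nil ∉ comps t := by
  intro t
  induction t with
  | nil => intro _ h; simp [comps] at h
  | node _ A B _ ih =>
    intro h1 h2
    change (cont (A △ B)).count 1 = 0 at h1
    rw [cont_node, Multiset.count_add] at h1
    change BinaryTree.nil ∈ A :: comps B at h2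
    rw [List.mem_cons] at h2
    rcases h2 with h2 | h2
    · subst h2
      rw [cont_nil, raise_zero] at h1
      have : ({1} : Multiset ℕ).count 1 = 1 := rfl
      omega
    · exact ih (by omega) h2

/-- the facts on `S`, `X` -/
structure MF (S X : BinaryTree Unit) : Prop where
  hS : 3 ≤ ht S
  oS : (cont S).count 1 = 0
  oX : (cont X).count 1 = 0
  last : ∃ Z T, comps X = Z ++ [T] ∧ ht T = ht S

theorem cont_mir9 (t : BinaryTree Unit) : cont (Tsq.mir t) = cont t := by
  induction t with
  | nil => rfl
  | node _ A B ihA ihB =>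
    change cont (Tsq.mir (A △ B)) = cont (A △ B)
    rw [Tsq.mir_node, cont_app, cont_node, cont_nil, ihA, ihB, cont_node, add_zero, add_comm]

theorem xTM_eq (S : BinaryTree Unit) : xTM S =
    app (Tsq.mir (Tsq.sq (Tsq.mir S)).2) (Tsq.mir (Tsq.sq (Tsq.mir S)).1 △ .nil) := by
  unfold xTM
  rw [xT_sq, Tsq.mir_node]

theorem MF.of (hS : 3 ≤ ht S) (oS : (cont S).count 1 = 0) : MF S (xTM S) := by
  have hne : Tsq.mir S ≠ .nil := mir_ne (by rintro rfl; rw [ht] at hS; omega)
  refine ⟨hS, oS, ?_, ?_⟩
  · unfold xTM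
    rw [cont_mir9, count_xT hne (by rw [ht_mir]; omega), cont_mir9, oS]
  · rw [xTM_eq]
    refine ⟨comps (Tsq.mir (Tsq.sq (Tsq.mir S)).2), Tsq.mir (Tsq.sq (Tsq.mir S)).1, ?_, ?_⟩
    · rw [comps_app]; rfl
    · rw [ht_mir, (ht_sq hne).1, ht_mir]

theorem MF.Sne (h : MF S X) : S ≠ .nil := by
  rintro rfl
  have := h.hS
  rw [ht] at this
  omega

theorem MF.Xne (h : MF S X) : X ≠ .nil := by
  obtain ⟨Z, T, h1, _⟩ := h.last
  rintro rfl
  simp [comps] at h1

theorem MF.Sn (h : MF S X) : .nil ∉ comps S := nil_mem h.oS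

theorem MF.Xn (h : MF S X) : .nil ∉ comps X := nil_mem h.oX

/-- the last component of `X` is high -/
theorem MF.Xl (h : MF S X) {Z : List (BinaryTree Unit)} {T : BinaryTree Unit}
    (e : comps X = Z ++ [T]) : 3 ≤ ht T := by
  obtain ⟨Z', T', h1, h2⟩ := h.last
  rw [e] at h1
  obtain ⟨_, h3⟩ := List.append_inj' h1 rfl
  simp at h3
  rw [h3, h2]
  exact h.hS

/-- the words of the gadget -/
theorem words (h : Is9M .nil .nil S F g) : ∀ w ∈ g.B, ∃ i < 9, w.1 = W S (xTM S) i ∧
    (i < 2 → cyc w ∈ F) := by
  intro w hw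
  obtain ⟨i, hi, h1, h2⟩ := h.words w hw
  exact ⟨i, hi, by rw [h1, w9LM_W S _ hi], h2⟩

/-- against a triple -/
theorem tri {P Q R : BinaryTree Unit} (h : Is9M .nil .nil S F g) (ht : IsTri P Q R F' g')
    (hd : ∀ c ∈ F, c ∉ F') (H : ∀ i < 9, W S (xTM S) i ≠ w1 P Q R)
    (N1 : ∀ i, 2 ≤ i → i < 9 → W S (xTM S) i ≠ w1 Q R P)
    (N2 : ∀ i, 2 ≤ i → i < 9 → W S (xTM S) i ≠ w1 R P Q) : ∀ w ∈ g.B, w ∉ g'.B := by
  intro w hw hw'
  obtain ⟨i, hi, h1, h2⟩ := words h w hw
  rcases ht.words w hw' with e | ⟨e1, e⟩
  · exact H i hi (h1.symm.trans e)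
  · rcases Nat.lt_or_ge i 2 with h3 | h3
    · exact hd _ (h2 h3) e1
    · rcases e with e | e
      · exact N1 i h3 hi (h1.symm.trans e)
      · exact N2 i h3 hi (h1.symm.trans e)

theorem last_eq {l l' : List (BinaryTree Unit)} {a b : BinaryTree Unit} (h : l ++ [a] = l' ++ [b]) :
    l = l' ∧ a = b := by
  obtain ⟨h1, h2⟩ := List.append_inj' h rfl
  simp at h2
  exact ⟨h1, h2⟩

theorem nl : (.nil △ .nil : BinaryTree Unit) ≠ .nil := by simp

theorem last_mem {l : List (BinaryTree Unit)} (h : l ≠ []) : ∃ Z T, l = Z ++ [T] :=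
  ⟨l.dropLast, l.getLast h, (List.dropLast_append_getLast h).symm⟩

/-- **E** (also Ed, En): the triple `(Y); Y(), ()Y` -/
theorem dis_E {Y : BinaryTree Unit} (h : Is9M .nil .nil S F g) (hS : 3 ≤ ht S)
    (oS : (cont S).count 1 = 0) (ht : IsTri .nil Y .nil F' g')
    (hd : ∀ c ∈ F, c ∉ F') (y1 : Y ≠ app S (.nil △ .nil)) (y2 : Y ≠ S △ .nil)
    (y3 : Y ≠ .nil △ S) (y4 : Y ≠ xTM S) : ∀ w ∈ g.B, w ∉ g'.B := by
  have m := MF.of hS oS
  obtain ⟨c0, c1, c2, c3, c4, c5, c6, c7, c8⟩ := cw S (xTM S)
  have hY : Y ≠ .nil := by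
    rintro rfl
    exact ht.new_ne rfl
  have hYc : comps Y ≠ [] := comps_ne hY
  have hSc : comps S ≠ [] := comps_ne m.Sne
  have hXc : comps (xTM S) ≠ [] := comps_ne m.Xne
  have e1 : comps (w1 .nil Y .nil) = [Y] := by rw [comps_w1]; rfl
  have e2 : comps (w1 Y .nil .nil) = comps Y ++ [.nil] := by rw [comps_w1]; rfl
  have e3 : comps (w1 .nil .nil Y) = .nil :: comps Y := by rw [comps_w1]; rfl
  refine tri h ht hd ?_ ?_ ?_
  · intro i hi e
    have e := congrArg comps e
    rw [e1] at e
    interval_cases i
    · rw [c0] at e; simp at e; exact hSc e.2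
    · rw [c1] at e
      rw [List.append_eq_singleton_iff] at e
      rcases e with ⟨e, _⟩ | ⟨_, e⟩
      · exact hSc e
      · simp at e
    · rw [c2] at e; simp at e; exact y1 e.symm
    · rw [c3] at e; simp at e; exact y2 e.symm
    · rw [c4] at e; simp at e; exact y3 e.symm
    · rw [c5] at e; simp at e
    · rw [c6] at e; simp at e; exact y4 e.symm
    · rw [c7] at e; simp at e; exact hXc e.2
    · rw [c8] at e
      rw [List.append_eq_singleton_iff] at e
      rcases e with ⟨e, _⟩ | ⟨_, e⟩
      · exact hXc e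
      · simp at e
  · intro i h2 hi e
    have e := congrArg comps e
    rw [e2] at e
    interval_cases i
    · rw [c2] at e
      have := last_eq (l := []) e
      exact hYc this.1.symm
    · rw [c3] at e
      have := last_eq (l := []) e
      exact hYc this.1.symm
    · rw [c4] at e
      have := last_eq (l := []) e
      exact hYc this.1.symm
    · rw [c5] at e
      have := last_eq (l := [.nil]) e
      exact m.Sne this.2
    · rw [c6] at e
      have := last_eq (l := []) e
      exact hYc this.1.symm
    · rw [c7] at e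
      have h3 : BinaryTree.nil ∈ comps (xTM S) := by
        obtain ⟨Z, T, h4⟩ := last_mem hXc
        rw [h4, ← List.cons_append] at e
        have := last_eq e
        rw [h4, this.2]
        simp
      exact m.Xn h3
    · rw [c8] at e
      exact y4 (comps_inj (last_eq e).1.symm)
  · intro i h2 hi e
    have e := congrArg comps e
    rw [e3] at e
    interval_cases i
    · rw [c2] at e; simp at e; exact hYc e.2
    · rw [c3] at e; simp at e
    · rw [c4] at e; simp at e
    · rw [c5] at e; simp at e
      exact y2 (comps_inj e.symm)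
    · rw [c6] at e; simp at e; exact hYc e.2
    · rw [c7] at e; simp at e
      exact y4 (comps_inj e.symm)
    · rw [c8] at e
      apply m.Xn
      cases h3 : comps (xTM S) with
      | nil => exact absurd h3 hXc
      | cons a l =>
        rw [h3] at e
        simp at e
        rw [e.1]
        simp

/-- **L**: the triple `()(R)(); R(())(), ()(())R` -/
theorem dis_L {R : BinaryTree Unit} (h : Is9M .nil .nil S F g) (hS : 3 ≤ ht S)
    (oS : (cont S).count 1 = 0) (hR : R ≠ .nil) (ht : IsTri (lp 1) R (lp 1) F' g')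
    (hd : ∀ c ∈ F, c ∉ F') (y : ∀ Y, xTM S ≠ (.nil △ .nil) △ Y) : ∀ w ∈ g.B, w ∉ g'.B := by
  have m := MF.of hS oS
  obtain ⟨c0, c1, c2, c3, c4, c5, c6, c7, c8⟩ := cw S (xTM S)
  have hRc : comps R ≠ [] := comps_ne hR
  have hSc : comps S ≠ [] := comps_ne m.Sne
  have hXc : comps (xTM S) ≠ [] := comps_ne m.Xne
  have hl : comps (lp 1) = [.nil] := rfl
  have e1 : comps (w1 (lp 1) R (lp 1)) = [.nil, R, .nil] := by rw [comps_w1, hl]; rfl
  have e2 : comps (w1 R (lp 1) (lp 1)) = comps R ++ [lp 1, .nil] := by rw [comps_w1, hl]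
  have e3 : comps (w1 (lp 1) (lp 1) R) = .nil :: lp 1 :: comps R := by rw [comps_w1, hl]; rfl
  refine tri h ht hd ?_ ?_ ?_
  · intro i hi e
    have e := congrArg comps e
    rw [e1] at e
    interval_cases i
    · rw [c0] at e; simp at e
    · rw [c1] at e
      have := last_eq (l' := [.nil, R]) e
      exact nl this.2
    · rw [c2] at e; simp at e
    · rw [c3] at e; simp at e
    · rw [c4] at e; simp at e
    · rw [c5] at e; simp at e
    · rw [c6] at e; simp at e
    · rw [c7] at e; simp at e
      apply m.Xn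
      rw [e]; simp
    · rw [c8] at e
      have := last_eq (l' := [.nil, R]) e
      apply m.Xn
      rw [this.1]; simp
  · intro i h2 hi e
    have e := congrArg comps e
    rw [e2] at e
    have e4 : comps R ++ [lp 1, .nil] = (comps R ++ [lp 1]) ++ [.nil] := by simp
    rw [e4] at e
    interval_cases i
    · rw [c2] at e
      have := last_eq (l := []) e
      simp at this
    · rw [c3] at e
      have := last_eq (l := []) e
      simp at this
    · rw [c4] at e
      have := last_eq (l := []) e
      simp at this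
    · rw [c5] at e
      have := last_eq (l := [.nil]) e
      exact m.Sne this.2
    · rw [c6] at e
      have := last_eq (l := []) e
      simp at this
    · rw [c7] at e
      obtain ⟨Z, T, h4⟩ := last_mem hXc
      rw [h4, ← List.cons_append] at e
      apply m.Xn
      rw [h4, (last_eq e).2]
      simp
    · rw [c8] at e
      have h5 := m.Xl (last_eq e).1
      change 3 ≤ 1 at h5
      omega
  · intro i h2 hi e
    have e := congrArg comps e
    rw [e3] at e
    interval_cases i
    · rw [c2] at e; simp at e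
    · rw [c3] at e; simp at e
    · rw [c4] at e; simp at e
    · rw [c5] at e; simp at e
      exact hRc e.2
    · rw [c6] at e; simp at e
    · rw [c7] at e; simp at e
      exact y R (comps_inj e)
    · rw [c8] at e
      apply m.Xn
      cases h3 : comps (xTM S) with
      | nil => exact absurd h3 hXc
      | cons a l =>
        rw [h3] at e
        simp at e
        rw [e.1]
        simp

/-- **K** right: the triple `(Z)(); Z(()), ()()Z` -/
theorem dis_K {Z : BinaryTree Unit} (h : Is9M .nil .nil S F g) (hS : 3 ≤ ht S)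
    (oS : (cont S).count 1 = 0) (hZ : 2 ≤ OddHC.ht Z) (ht : TyK Z F' g')
    (hd : ∀ c ∈ F, c ∉ F') (y : xTM S ≠ Z △ .nil) : ∀ w ∈ g.B, w ∉ g'.B := by
  have m := MF.of hS oS
  obtain ⟨c0, c1, c2, c3, c4, c5, c6, c7, c8⟩ := cw S (xTM S)
  have hZn : Z ≠ .nil := ht2_ne hZ
  have hZc : comps Z ≠ [] := comps_ne hZn
  have hSc : comps S ≠ [] := comps_ne m.Sne
  have hXc : comps (xTM S) ≠ [] := comps_ne m.Xne
  have hl : comps (.nil △ .nil : BinaryTree Unit) = [.nil] := rfl
  have e1 : comps (w1 .nil Z (.nil △ .nil)) = [Z, .nil] := by rw [comps_w1, hl]; rfl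
  have e2 : comps (w1 Z (.nil △ .nil) .nil) = comps Z ++ [.nil △ .nil] := by rw [comps_w1]; rfl
  have e3 : comps (w1 (.nil △ .nil) .nil Z) = .nil :: .nil :: comps Z := by rw [comps_w1, hl]; rfl
  refine tri h ht hd ?_ ?_ ?_
  · intro i hi e
    have e := congrArg comps e
    rw [e1] at e
    interval_cases i
    · rw [c0] at e; simp at e
      rw [← e.1] at hZ
      change 2 ≤ 1 at hZ
      omega
    · rw [c1] at e
      have := last_eq (l' := [Z]) e
      exact nl this.2
    · rw [c2] at e; simp at e
    · rw [c3] at e; simp at e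
    · rw [c4] at e; simp at e
    · rw [c5] at e; simp at e
      exact hZn e.1.symm
    · rw [c6] at e; simp at e
    · rw [c7] at e; simp at e
      exact hZn e.1.symm
    · rw [c8] at e
      have := last_eq (l' := [Z]) e
      exact y (comps_inj this.1)
  · intro i h2 hi e
    have e := congrArg comps e
    rw [e2] at e
    interval_cases i
    · rw [c2] at e
      have := last_eq (l := []) e
      exact hZc this.1.symm
    · rw [c3] at e
      have := last_eq (l := []) e
      exact hZc this.1.symm
    · rw [c4] at e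
      have := last_eq (l := []) e
      exact hZc this.1.symm
    · rw [c5] at e
      have := last_eq (l := [.nil]) e
      have h5 := m.hS
      rw [this.2] at h5
      change 3 ≤ 1 at h5
      omega
    · rw [c6] at e
      have := last_eq (l := []) e
      exact hZc this.1.symm
    · rw [c7] at e
      obtain ⟨Z', T, h4⟩ := last_mem hXc
      rw [h4, ← List.cons_append] at e
      have h5 := m.Xl h4
      rw [(last_eq e).2] at h5
      change 3 ≤ 1 at h5
      omega
    · rw [c8] at e
      exact nl (last_eq e).2.symm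
  · intro i h2 hi e
    have e := congrArg comps e
    rw [e3] at e
    interval_cases i
    · rw [c2] at e; simp at e
    · rw [c3] at e; simp at e
    · rw [c4] at e; simp at e
    · rw [c5] at e; simp at e
      exact m.Sne e.1
    · rw [c6] at e; simp at e
    · rw [c7] at e; simp at e
      apply m.Xn
      rw [e]; simp
    · rw [c8] at e
      apply m.Xn
      cases h3 : comps (xTM S) with
      | nil => exact absurd h3 hXc
      | cons a l =>
        rw [h3] at e
        simp at e
        rw [e.1]
        simp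

/-- **Cr / DOWN** right: the triple `(R)[c]; R[c+1], [c]()R` -/
theorem dis_Cr {c : ℕ} {R : BinaryTree Unit} (h : Is9M .nil .nil S F g) (hS : 3 ≤ ht S)
    (oS : (cont S).count 1 = 0) (hc : 2 ≤ c) (hR : 2 ≤ OddHC.ht R) (ht : TyC c R F' g')
    (hd : ∀ c ∈ F, c ∉ F') (y1 : c = 2 → S ≠ R △ .nil)
    (y2 : ∀ Y, R = .nil △ Y → xTM S ≠ app Y (H1.ch c △ .nil)) :
    ∀ w ∈ g.B, w ∉ g'.B := by
  have m := MF.of hS oS
  obtain ⟨c0, c1, c2, c3, c4, c5, c6, c7, c8⟩ := cw S (xTM S)
  have hRn : R ≠ .nil := ht2_ne hR
  have hRc : comps R ≠ [] := comps_ne hRn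
  have hSc : comps S ≠ [] := comps_ne m.Sne
  have hXc : comps (xTM S) ≠ [] := comps_ne m.Xne
  have hl := comps_ch' (show 1 ≤ c by omega)
  have e1 : comps (w1 .nil R (H1.ch c)) = [R, H1.ch (c - 1)] := by rw [comps_w1, hl]; rfl
  have e2 : comps (w1 R (H1.ch c) .nil) = comps R ++ [H1.ch c] := by rw [comps_w1]; rfl
  have e3 : comps (w1 (H1.ch c) .nil R) = H1.ch (c - 1) :: .nil :: comps R := by
    rw [comps_w1, hl]; rfl
  have hcn : H1.ch c ≠ .nil := ch_ne (by omega)
  have hcn' : H1.ch (c - 1) ≠ .nil := ch_ne2 hc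
  refine tri h ht hd ?_ ?_ ?_
  · intro i hi e
    have e := congrArg comps e
    rw [e1] at e
    interval_cases i
    · rw [c0] at e; simp at e
      rw [← e.1] at hR
      change 2 ≤ 1 at hR
      omega
    · rw [c1] at e
      have := last_eq (l' := [R]) e
      have h5 : H1.ch (c - 1) = H1.ch 1 := this.2.symm
      have h6 := H1.ch_inj h5
      exact y1 (by omega) (comps_inj this.1)
    · rw [c2] at e; simp at e
    · rw [c3] at e; simp at e
    · rw [c4] at e; simp at e
    · rw [c5] at e; simp at e
      exact hRn e.1.symm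
    · rw [c6] at e; simp at e
    · rw [c7] at e; simp at e
      exact hRn e.1.symm
    · rw [c8] at e
      have := last_eq (l' := [R]) e
      exact hcn' this.2.symm
  · intro i h2 hi e
    have e := congrArg comps e
    rw [e2] at e
    interval_cases i
    · rw [c2] at e
      have := last_eq (l := []) e
      exact hRc this.1.symm
    · rw [c3] at e
      have := last_eq (l := []) e
      exact hRc this.1.symm
    · rw [c4] at e
      have := last_eq (l := []) e
      exact hRc this.1.symm
    · rw [c5] at e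
      have := last_eq (l := [.nil]) e
      have h5 : R = .nil △ .nil := comps_inj (this.1.symm.trans rfl)
      rw [h5] at hR
      change 2 ≤ 1 at hR
      omega
    · rw [c6] at e
      have := last_eq (l := []) e
      exact hRc this.1.symm
    · rw [c7] at e
      cases R with
      | nil => exact hRn rfl
      | node u A Y =>
        have e' : BinaryTree.nil :: comps (xTM S) = A :: (comps Y ++ [H1.ch c]) := e
        rw [List.cons.injEq] at e'
        refine y2 Y ?_ ?_
        · rw [← e'.1]
        · apply comps_inj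
          rw [e'.2, comps_app]
          rfl
    · rw [c8] at e
      exact hcn (last_eq e).2.symm
  · intro i h2 hi e
    have e := congrArg comps e
    rw [e3] at e
    interval_cases i
    · rw [c2] at e; simp at e
    · rw [c3] at e; simp at e
    · rw [c4] at e; simp at e
    · rw [c5] at e; simp at e
      exact hcn' e.1.symm
    · rw [c6] at e; simp at e
    · rw [c7] at e; simp at e
      exact hcn' e.1.symm
    · rw [c8] at e
      obtain ⟨Z, T, h4⟩ := last_mem hRc
      rw [h4] at e
      have e' : comps (xTM S) ++ [.nil] = (H1.ch (c - 1) :: .nil :: Z) ++ [T] := by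
        rw [e]; simp
      have := last_eq e'
      apply m.Xn
      rw [this.1]
      simp

/-- **Cl** left: the triple `[c](R); R()[c], [c+1]R` -/
theorem dis_Cl {c : ℕ} {R : BinaryTree Unit} (h : Is9M .nil .nil S F g) (hS : 3 ≤ ht S)
    (oS : (cont S).count 1 = 0) (hc : 2 ≤ c) (hR : 2 ≤ OddHC.ht R) (ht : TyC' c R F' g')
    (hd : ∀ c ∈ F, c ∉ F') (y1 : c = 2 → S ≠ R △ .nil)
    (y2 : ∀ Y, R = app Y (.nil △ .nil) → xTM S ≠ H1.ch c △ Y) :
    ∀ w ∈ g.B, w ∉ g'.B := by
  have m := MF.of hS oS
  obtain ⟨c0, c1, c2, c3, c4, c5, c6, c7, c8⟩ := cw S (xTM S)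
  have hRn : R ≠ .nil := ht2_ne hR
  have hRc : comps R ≠ [] := comps_ne hRn
  have hSc : comps S ≠ [] := comps_ne m.Sne
  have hXc : comps (xTM S) ≠ [] := comps_ne m.Xne
  have hl := comps_ch' (show 1 ≤ c by omega)
  have e1 : comps (w1 (H1.ch c) R .nil) = [H1.ch (c - 1), R] := by rw [comps_w1, hl]; rfl
  have e2 : comps (w1 R .nil (H1.ch c)) = comps R ++ [.nil, H1.ch (c - 1)] := by
    rw [comps_w1, hl]
  have e3 : comps (w1 .nil (H1.ch c) R) = H1.ch c :: comps R := by
    rw [comps_w1]; rfl
  have hcn : H1.ch c ≠ .nil := ch_ne (by omega)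
  have hcn' : H1.ch (c - 1) ≠ .nil := ch_ne2 hc
  refine tri h ht hd ?_ ?_ ?_
  · intro i hi e
    have e := congrArg comps e
    rw [e1] at e
    interval_cases i
    · rw [c0] at e; simp at e
      have h5 : H1.ch (c - 1) = H1.ch 1 := e.1.symm
      have h6 := H1.ch_inj h5
      exact y1 (by omega) (comps_inj (e.2.trans rfl))
    · rw [c1] at e
      have := last_eq (l' := [H1.ch (c - 1)]) e
      rw [← this.2] at hR
      change 2 ≤ 1 at hR
      omega
    · rw [c2] at e; simp at e
    · rw [c3] at e; simp at e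
    · rw [c4] at e; simp at e
    · rw [c5] at e; simp at e
      exact hcn' e.1.symm
    · rw [c6] at e; simp at e
    · rw [c7] at e; simp at e
      exact hcn' e.1.symm
    · rw [c8] at e
      have := last_eq (l' := [H1.ch (c - 1)]) e
      exact hRn this.2.symm
  · intro i h2 hi e
    have e := congrArg comps e
    rw [e2] at e
    have e4 : comps R ++ [.nil, H1.ch (c - 1)] = (comps R ++ [.nil]) ++ [H1.ch (c - 1)] := by simp
    rw [e4] at e
    interval_cases i
    · rw [c2] at e
      have := last_eq (l := []) e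
      simp at this
    · rw [c3] at e
      have := last_eq (l := []) e
      simp at this
    · rw [c4] at e
      have := last_eq (l := []) e
      simp at this
    · rw [c5] at e
      have := (last_eq (l := [.nil]) e).1
      have h6 := last_eq (l := []) this
      exact hRc h6.1.symm
    · rw [c6] at e
      have := last_eq (l := []) e
      simp at this
    · rw [c7] at e
      cases R with
      | nil => exact hRn rfl
      | node u A Y =>
        have e' : BinaryTree.nil :: comps (xTM S) = A :: (comps Y ++ [.nil] ++ [H1.ch (c - 1)]) := e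
        rw [List.cons.injEq] at e'
        apply m.Xn
        rw [e'.2]
        simp
    · rw [c8] at e
      exact hcn' (last_eq e).2.symm
  · intro i h2 hi e
    have e := congrArg comps e
    rw [e3] at e
    interval_cases i
    · rw [c2] at e; simp at e; exact hRc e.2
    · rw [c3] at e; simp at e; exact hRc e.2
    · rw [c4] at e; simp at e; exact hRc e.2
    · rw [c5] at e; simp at e
      exact hcn e.1.symm
    · rw [c6] at e; simp at e; exact hRc e.2
    · rw [c7] at e; simp at e
      exact hcn e.1.symm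
    · rw [c8] at e
      obtain ⟨Z, T, h4⟩ := last_mem hRc
      rw [h4] at e
      have e' : comps (xTM S) ++ [.nil] = (H1.ch c :: Z) ++ [T] := by
        rw [e]; simp
      have h6 := last_eq e'
      obtain ⟨Y, hY⟩ : ∃ Y, comps Y = Z := by
        have key : ∀ l : List (BinaryTree Unit), ∃ Y, comps Y = l := by
          intro l
          induction l with
          | nil => exact ⟨.nil, rfl⟩
          | cons a l ih =>
            obtain ⟨Y, hY⟩ := ih
            exact ⟨a △ Y, by rw [comps_node, hY]⟩
        exact key Z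
      refine y2 Y ?_ ?_
      · apply comps_inj
        rw [h4, comps_app, hY, ← h6.2]
        rfl
      · apply comps_inj
        rw [h6.1, comps_node, hY]

end MV

end Pool.OddHC
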