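import Pool.Agent.Work.MP_8f87b2_h16.JB
import Pool.Agent.Work.MP_8f87b2_h17.TyJ2B
import Pool.Agent.Work.MP_8f87b2_h84.JEW2
import Pool.Agent.Work.MP_8f87b2_h21.AJ3V
import Pool.Agent.Work.MP_8f87b2_h13.TyRq

/-!
# Rows W of J2B against R3, S3, Rq, Sq, A, T (helper16)

All twenty words `W R nil B S i` (also word 9). `MV.Con q R B S R' B' S'`: with `Y = R`, or `B = nil` and `Y = S`: `Y` is one of
`(R')`, `(S')B'`, `S'(B')` (`q = 0`), `((R'))`, `((S')B')`, `(S'(B'))` (`q = 1`). Then `cont R = raise^(q+1) (cont R')`.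
-/

set_option autoImplicit false
set_option linter.unusedSimpArgs false
set_option linter.unusedVariables false

namespace Pool.OddHC

open Finset Equiv BinaryTree Pool.Agent.Work.MP_8f87b2_co J3

variable {k q : ℕ} {R B S R' B' S' : BinaryTree Unit} {F F' : Set (Cyc k)} {g g' : DG k}

namespace MV

/-- contents of the square -/
theorem sq_cnt {R : BinaryTree Unit} (hR : R ≠ .nil) (h : (cont R).count 1 = 0) :
    (cont (Tsq.sq R).2).count 1 = 0 ∧ (cont (Tsq.sq R).1).count 1 = 0 := by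
  let x : OddHC.X R.numNodes := ⟨R, mem_treesOfNumNodesEq.2 rfl⟩
  have a1 : (TT (TT x)).1 = app (Tsq.sq R).2 (Tsq.sq R).1 := Tsq.TT_sq x hR
  have a2 : OddHC.cont (TT (TT x)).1 = OddHC.cont R := by
    rw [TT_apply, cont_TF, TT_apply, cont_TF]
  rw [a1, cont_app] at a2
  rw [← a2, Multiset.count_add] at h
  omega

/-- a window A without part 1 -/
theorem WD.ofA {B1 H s B : BinaryTree Unit} (h : H1.NodeG k q B1 H s B)
    (h1 : 1 ∉ cont (H1.gR B1 H s B)) :
    WD (H1.gR B1 H s B) B (Tsq.sq (H1.gR B1 H s B)).1 := by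
  obtain ⟨a1, a2, a3, a4, a5⟩ := A_Hf h
  have c0 : (cont (H1.gR B1 H s B)).count 1 = 0 := Multiset.count_eq_zero.2 h1
  have hR : H1.gR B1 H s B ≠ .nil := by
    intro h
    rw [h, ht] at a4
    omega
  obtain ⟨c1, c2⟩ := sq_cnt hR c0
  rw [h.sq.1] at c1
  exact ⟨a1, a2, a3, a4, a5, c0, c1, c2⟩

/-- a bare window -/
theorem WD.ofM (h : HM.NodeM k q R B S) : WD R B S := by
  have hB : Big3 B := fun x hx => by
    have := h.part x (by rw [← h.eq]; exact Multiset.mem_add.2 (Or.inl hx))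
    omega
  have hS : Big3 S := fun x hx => by
    have := h.part x (by rw [← h.eq]; exact Multiset.mem_add.2 (Or.inr hx))
    omega
  have hR : Big3 R := fun x hx => by
    have := h.part x hx
    omega
  have htS : ht S = ht R := by
    have := (ht_sq h.ne).1
    rwa [h.sq] at this
  have top := h.top
  have c : ∀ {t : BinaryTree Unit}, Big3 t → (cont t).count 1 = 0 := by
    intro t ht
    rw [Multiset.count_eq_zero]
    intro h1
    have := ht 1 h1
    omega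
  exact ⟨Hf.of hR, Hf.of hB, Hf.of hS, by omega, by omega, c hR, c hB, c hS⟩

open H1 in
/-- a word of J2B is no word of T -/
theorem tW20 (h : SqD k R B S) {b m a : ℕ} (hm : 1 ≤ m) (ha : 1 ≤ a) {i j : ℕ} (hi : i < 20)
    (hj : j < 20) (e : H1.W R .nil B S i = H1.w3 b m a j) : False := by
  by_cases h9 : i = 9
  · subst h9
    have hq : p12 (H1.W R .nil B S 9) = true := by rw [e]; exact p12_w3 hm ha hj
    have hR := h.ne
    have h3 := h.h3
    have iR : is1 R = false := is1_big (by omega)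
    have bR := p12_one0 h.one
    have gR : H1.isNil R = false := H1.isNil_f.2 hR
    have g1 : hd12 (.nil : BinaryTree Unit) = false := rfl
    have gn : ∀ A C : BinaryTree Unit, H1.isNil (A △ C) = false := fun _ _ => rfl
    simp [H1.W, p12_node, p12_nil, bR, gn] at hq
    try simp [g1] at hq
  · exact h.tW hm ha hi h9 hj e

/-- a word of J2B is a word of a window A with a part 1 only if it is `R'[q + 3] = (()S)B` -/
theorem a1W {B1 H s B2 : BinaryTree Unit} (hg : H1.NodeG k q B1 H s B2)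
    (h1 : 1 ∈ cont (H1.gR B1 H s B2)) (h : SqD k R B S) {i j : ℕ} (hi : i < 20) (hj : j < 20)
    (e : H1.W (H1.gR B1 H s B2) (H1.ch (q + 1)) B2 (Tsq.sq (H1.gR B1 H s B2)).1 i =
      H1.W R .nil B S j) :
    i = 0 ∧ j = 14 ∧ B1 = .nil ∧ app H s = .nil △ S ∧ B = app B2 (H1.ch (q + 3)) := by
  by_cases h9 : j = 9
  · subst h9
    exfalso
    refine (AJ3V.Wn.of hg h1).noE (X := R △ .nil) hi (Or.inl ?_) (Or.inl (e.trans rfl))
    rw [AJ3V.c1_big (by have := h.h3; omega), AJ3V.c1_nil]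
    exact h.one
  · exact hg.j3v h1 h hi hj h9 e

end MV

open MV

/-! ### R3, S3, Rq, Sq -/

/-- **J2B against Rq** (all `q`) -/
theorem TyJ2R.w_Rq (h : TyJ2R R B S F g) (h' : TyRq q F' g')
    (hx : ∀ R' B' S' w0, HM.NodeM k q R' B' S' → g' = gad20 (H1.wX R' B' S' q w0) →
      ¬ Con q R B S R' B' S') : ∀ w ∈ g.B, w ∉ g'.B := by
  obtain ⟨R', B', S', w0, h4, -, rfl, rfl⟩ := h'
  intro w hw hw'
  obtain ⟨i, hi, e⟩ := h.words w hw
  obtain ⟨j, hj, rfl⟩ := mem_gad20.1 hw'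
  rw [H1.wX_eq h4.dat h4.size w0 hj] at e
  exact hx R' B' S' w0 h4 rfl (win0 h.sqd (WD.ofM h4) hi hj e.symm)

/-- **J2B against Sq** (all `q`) -/
theorem TyJ2R.w_Sq (h : TyJ2R R B S F g) (h' : TySq q F' g')
    (hx : ∀ R' B' S' w0, HM.NodeM k q R' B' S' → g' = gadS (H1.wX R' B' S' q w0) →
      ¬ Con q R B S R' B' S') : ∀ w ∈ g.B, w ∉ g'.B := by
  obtain ⟨R', B', S', w0, h4, -, -, -, rfl, rfl⟩ := h'
  intro w hw hw'
  obtain ⟨i, hi, e⟩ := h.words w hw
  obtain ⟨j, hj, -, rfl⟩ := memR_gadS.1 hw'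
  rw [H1.wX_eq h4.dat h4.size w0 hj] at e
  exact hx R' B' S' w0 h4 rfl (win0 h.sqd (WD.ofM h4) hi hj e.symm)

/-- `q >= 2`: no condition -/
theorem TyJ2R.w_Rq2 (h : TyJ2R R B S F g) (h' : TyRq q F' g') (hq : 2 ≤ q) :
    ∀ w ∈ g.B, w ∉ g'.B := by
  refine h.w_Rq h' fun R' B' S' _ _ _ hc => ?_
  obtain ⟨Y, _, h1 | h1⟩ := hc
  · have := h1.1
    omega
  · have := h1.1
    omega

theorem TyJ2R.w_Sq2 (h : TyJ2R R B S F g) (h' : TySq q F' g') (hq : 2 ≤ q) :
    ∀ w ∈ g.B, w ∉ g'.B := by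
  refine h.w_Sq h' fun R' B' S' _ _ _ hc => ?_
  obtain ⟨Y, _, h1 | h1⟩ := hc
  · have := h1.1
    omega
  · have := h1.1
    omega

/-! ### A, T -/

/-- **J2B against A** -/
theorem TyJ2R.w_A (h : TyJ2R R B S F g) (h' : TyA F' g')
    (hB : ∀ (q : ℕ) (B' : BinaryTree Unit), (∀ x ∈ cont B', q + 3 ≤ x) → B ≠ app B' (H1.ch (q + 3)))
    (hx : ∀ q B1 H s B2 w0, H1.NodeG k q B1 H s B2 → 1 ∉ cont (H1.gR B1 H s B2) →
      g' = gad20 (H1.gX q B1 H s B2 w0) →
      ¬ Con q R B S (H1.gR B1 H s B2) B2 (Tsq.sq (H1.gR B1 H s B2)).1) : ∀ w ∈ g.B, w ∉ g'.B := by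
  obtain ⟨q, B1, H, s, B2, w0, hg, rfl, rfl⟩ := h'
  intro w hw hw'
  obtain ⟨i, hi, e⟩ := h.words w hw
  obtain ⟨j, hj, rfl⟩ := mem_gad20.1 hw'
  rw [hg.word w0 hj] at e
  by_cases h1 : 1 ∈ cont (H1.gR B1 H s B2)
  · exact hB q B2 hg.bare (a1W hg h1 h.sqd hj hi e).2.2.2.2
  · exact hx q B1 H s B2 w0 hg h1 rfl (win0 h.sqd (WD.ofA hg h1) hi hj e.symm)

/-- **J2B against T** -/
theorem TyJ2R.w_T (h : TyJ2R R B S F g) (h' : TyT F' g') : ∀ w ∈ g.B, w ∉ g'.B := by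
  obtain ⟨b, m, a, w0, hg, rfl, rfl⟩ := h'
  intro w hw hw'
  obtain ⟨i, hi, e⟩ := h.words w hw
  obtain ⟨j, hj, rfl⟩ := mem_gad20.1 hw'
  rw [hg.word w0 hj] at e
  exact tW20 h.sqd hg.mpos hg.pos hi hj e.symm

/-! ### Heights and parts 2 -/

namespace MV

/-- `ht R' + q <= ht R <= ht R' + q + 1` -/
theorem Con.hgt (h : Con q R B S R' B' S') (hd : SqD k R B S) (hs : ht S' = ht R')
    (hb : ht B' ≤ ht R') : ht R' + q ≤ ht R ∧ ht R ≤ ht R' + q + 1 := by
  obtain ⟨Y, hY, h1⟩ := h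
  have hSR : ht S = ht R := hd.htS
  have e : ht R = ht Y := by
    rcases hY with rfl | ⟨_, rfl⟩
    · rfl
    · exact hSR.symm
  have e0 : OddHC.ht (BinaryTree.nil : BinaryTree Unit) = 0 := rfl
  rw [e]
  have h3 := ht_node B' .nil
  have h4 := ht_app S' (B' △ .nil)
  rcases h1 with ⟨rfl, rfl | rfl | rfl⟩ | ⟨rfl, rfl | rfl | rfl⟩
  · rw [ht_node]; omega
  · rw [ht_node]; omega
  · omega
  · rw [ht_node, ht_node]; omega
  · rw [ht_node, ht_node]; omega
  · rw [ht_node]; omega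

/-- all-sharp phases: `B = nil` in every collision -/
theorem Con.Bnil (h : Con q R B S R' B' S') (hd : SqD k R B S) (w : WD R' B' S')
    (p3 : ∀ x ∈ cont B', 3 ≤ x) (hB : ∀ x ∈ cont B, x ≤ 2) (hs : ht S' = ht R')
    (hb : ht B' ≤ ht R') : B = .nil := by
  obtain ⟨Y, hY, h1⟩ := h
  rcases hY with rfl | ⟨hn, _⟩
  · have hq := hd.sq
    have one : ∀ {P : BinaryTree Unit}, Y = P △ .nil → P ≠ .nil → B = .nil := by
      intro P e hP
      rw [e, Tsq.sq_ge hP (by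
        have : Tsq.ht (BinaryTree.nil : BinaryTree Unit) = 0 := rfl
        omega)] at hq
      exact (Prod.mk.inj hq).2.symm
    have big : ∀ {P : BinaryTree Unit}, P ≠ .nil → (∀ x ∈ cont P, x ≤ 2) →
        (∀ x ∈ cont P, 3 ≤ x) → False := by
      intro P hP h2 h3
      cases P with
      | nil => exact hP rfl
      | node _ A C =>
        obtain ⟨x, hx⟩ : ∃ x, x ∈ cont (A △ C) := by
          refine Multiset.exists_mem_of_ne_zero ?_
          intro h0
          have h5 : ht (A △ C) = 0 := by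
            have : ht (A △ C) = (cont (A △ C)).sup := OddHC.ht_eq _
            rw [this, h0]
            rfl
          rw [ht_node] at h5
          omega
        have := h2 x hx
        have := h3 x hx
        omega
    rcases h1 with ⟨-, h1 | h1 | h1⟩ | ⟨-, h1 | h1 | h1⟩
    · exact one h1 w.pR.1
    · rw [h1, Tsq.sq_ge w.pS.1 (by rw [H1.ht_eq, H1.ht_eq]; omega)] at hq
      have e1 : B' = B := (Prod.mk.inj hq).2
      by_contra hn
      exact big hn hB (by rw [← e1]; exact p3)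
    · have n0 : B' ≠ .nil := by
        rintro rfl
        have := hd.one
        rw [h1] at this
        exact one_app S' this
      have hB3 : Big3 (B' △ .nil) := Big3.prime p3 n0
      by_cases hc : ht B' + 1 ≤ ht S'
      · have e0 : OddHC.ht (BinaryTree.nil : BinaryTree Unit) = 0 := rfl
        rw [h1, Tsq.sq_app _ _ w.pS.1 (by
          rw [H1.ht_eq, H1.ht_eq]
          have := ht_node B' .nil
          omega)] at hq
        have e1 : app (Tsq.sq S').2 (B' △ .nil) = B := (Prod.mk.inj hq).2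
        exfalso
        refine big (P := B' △ .nil) (by simp) ?_ hB3
        intro x hx
        apply hB
        rw [← e1, cont_app, Multiset.mem_add]
        exact Or.inr hx
      · have e0 : OddHC.ht (BinaryTree.nil : BinaryTree Unit) = 0 := rfl
        rw [h1, Tsq.sq_pre _ _ (by
          rw [H1.ht_eq, H1.ht_eq]
          have := ht_node B' .nil
          omega)] at hq
        have e1 : (Tsq.sq (B' △ .nil)).2 = B := (Prod.mk.inj hq).2
        rw [Tsq.sq_ge n0 (by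
          have : Tsq.ht (BinaryTree.nil : BinaryTree Unit) = 0 := rfl
          omega)] at e1
        exact e1.symm
    · exact one h1 (by simp)
    · exact one h1 (by simp)
    · exact one h1 (H1.app_ne (by simp))
  · exact hn

/-- all parts at least 3 in the window: none in `R` is 2 -/
theorem Con.no2 (h : Con q R B S R' B' S') (hd : SqD k R B S) (hR : Big3 R') (hB : Big3 B')
    (hS : Big3 S') (nR : R' ≠ .nil) (nS : S' ≠ .nil) : 2 ∉ cont R := by
  intro h2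
  obtain ⟨Y, hY, h1⟩ := h
  have e : (cont Y).count 1 = 0 ∧ 2 ∈ cont Y := by
    rcases hY with rfl | ⟨rfl, rfl⟩
    · exact ⟨hd.one, h2⟩
    · refine ⟨hd.oneS, ?_⟩
      have e3 := hd.cont
      rw [← e3, cont_nil, zero_add] at h2
      exact h2
  obtain ⟨e1, e2⟩ := e
  have key : Big3 Y → False := fun hb => by
    have := hb 2 e2
    omega
  have hSB : Big3 (S' △ B') := hS.node nS hB
  rcases h1 with ⟨-, rfl | rfl | rfl⟩ | ⟨-, rfl | rfl | rfl⟩
  · exact key (hR.prime nR)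
  · exact key hSB
  · by_cases hn : B' = .nil
    · subst hn
      exact one_app S' e1
    · exact key (hS.ap (hB.prime hn))
  · exact key ((hR.prime nR).prime (by simp))
  · exact key (hSB.prime (by simp))
  · by_cases hn : B' = .nil
    · subst hn
      rcases one_app' S' with h' | h'
      · exact h' e1
      · exact nS h'
    · exact key ((hS.ap (hB.prime hn)).prime (H1.app_ne (by simp)))

theorem Con.no2M (h : Con q R B S R' B' S') (hd : SqD k R B S) (h4 : HM.NodeM k q R' B' S') :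
    2 ∉ cont R := by
  have hB : Big3 B' := fun x hx => by
    have := h4.part x (by rw [← h4.eq]; exact Multiset.mem_add.2 (Or.inl hx))
    omega
  have hS : Big3 S' := fun x hx => by
    have := h4.part x (by rw [← h4.eq]; exact Multiset.mem_add.2 (Or.inr hx))
    omega
  have hR : Big3 R' := fun x hx => by
    have := h4.part x hx
    omega
  exact h.no2 hd hR hB hS h4.ne (WD.ofM h4).pS.1

end MV

/-- `a >= 2`: no common word with the bare windows -/
theorem TyJ2R.w_Rq_a (h : TyJ2R R B S F g) (h' : TyRq q F' g') (h2 : 2 ∈ cont R) :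
    ∀ w ∈ g.B, w ∉ g'.B :=
  h.w_Rq h' fun _ _ _ _ h4 _ hc => hc.no2M h.sqd h4 h2

theorem TyJ2R.w_Sq_a (h : TyJ2R R B S F g) (h' : TySq q F' g') (h2 : 2 ∈ cont R) :
    ∀ w ∈ g.B, w ∉ g'.B :=
  h.w_Sq h' fun _ _ _ _ h4 _ hc => hc.no2M h.sqd h4 h2

theorem MV.ht_M (h : HM.NodeM k q R B S) (w0 : X k) : htc (cyc (H1.wX R B S q w0 0)) = ht R := by
  change (cont (H1.wX R B S q w0 0).1).sup = _
  rw [H1.wX_cont0 h.dat h.size w0, Multiset.sup_add, Multiset.sup_singleton]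
  have := h.top
  have e : ht R = (cont R).sup := OddHC.ht_eq R
  change max (cont R).sup (q + 3) = ht R
  omega

/-- the window is higher than the J2B group: no common word -/
theorem TyJ2R.w_Rq_ht (h : TyJ2R R B S F g) (h' : TyRq q F' g')
    (hh : ∀ c ∈ F, ∀ c' ∈ F', htc c < htc c') : ∀ w ∈ g.B, w ∉ g'.B := by
  obtain ⟨R', B', S', w0, h4, -, rfl, rfl⟩ := h'
  intro w hw hw'
  obtain ⟨i, hi, e⟩ := h.words w hw
  obtain ⟨j, hj, rfl⟩ := mem_gad20.1 hw'
  rw [H1.wX_eq h4.dat h4.size w0 hj] at e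
  have hc := win0 h.sqd (WD.ofM h4) hi hj e.symm
  have h1 := hc.hgt h.sqd h4.dat.htS h4.dat.htB
  obtain ⟨c, hcF⟩ : ∃ c, c ∈ F := ⟨_, (h.memF w0 _).2 (Or.inl rfl)⟩
  have h2 := hh c hcF _ rfl
  rw [h.htp' c hcF, MV.ht_M h4 w0] at h2
  omega

theorem TyJ2R.w_Sq_ht (h : TyJ2R R B S F g) (h' : TySq q F' g')
    (hh : ∀ c ∈ F, ∀ c' ∈ F', htc c < htc c') : ∀ w ∈ g.B, w ∉ g'.B := by
  obtain ⟨R', B', S', w0, h4, -, -, -, rfl, rfl⟩ := h'
  intro w hw hw'
  obtain ⟨i, hi, e⟩ := h.words w hw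
  obtain ⟨j, hj, -, rfl⟩ := memR_gadS.1 hw'
  rw [H1.wX_eq h4.dat h4.size w0 hj] at e
  have hc := win0 h.sqd (WD.ofM h4) hi hj e.symm
  have h1 := hc.hgt h.sqd h4.dat.htS h4.dat.htB
  obtain ⟨c, hcF⟩ : ∃ c, c ∈ F := ⟨_, (h.memF w0 _).2 (Or.inl rfl)⟩
  have h2 := hh c hcF _ (Or.inl rfl)
  rw [h.htp' c hcF, MV.ht_M h4 w0] at h2
  omega

/-- **J2B against A**, the window higher than the group and no part 3 or larger in `B` (all-sharp phase): no common word -/
theorem TyJ2R.w_A_ht (h : TyJ2R R B S F g) (h' : TyA F' g') (hB : ∀ x ∈ cont B, x ≤ 2)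
    (hh : ∀ c ∈ F, ∀ c' ∈ F', htc c < htc c') : ∀ w ∈ g.B, w ∉ g'.B := by
  obtain ⟨q, B1, H, s, B2, w0, hg, rfl, rfl⟩ := h'
  intro w hw hw'
  obtain ⟨i, hi, e⟩ := h.words w hw
  obtain ⟨j, hj, rfl⟩ := mem_gad20.1 hw'
  rw [hg.word w0 hj] at e
  by_cases h1 : 1 ∈ cont (H1.gR B1 H s B2)
  · have e1 := (a1W hg h1 h.sqd hj hi e).2.2.2.2
    have h2 := hB (q + 3) (by
      rw [e1, cont_app, H1.ch_cont]
      simp)
    omega
  · have hc := win0 h.sqd (WD.ofA hg h1) hi hj e.symm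
    have hR : H1.gR B1 H s B2 ≠ .nil := (WD.ofA hg h1).pR.1
    obtain ⟨a1, a2⟩ := ht_sq hR
    rw [hg.sq.1] at a2
    have h5 := hc.hgt h.sqd a1 a2
    obtain ⟨c, hcF⟩ : ∃ c, c ∈ F := ⟨_, (h.memF w0 _).2 (Or.inl rfl)⟩
    have h2 := hh c hcF _ rfl
    have h6 : htc (cyc (H1.gX q B1 H s B2 w0 0)) = ht (H1.gR B1 H s B2) := by
      change (cont (H1.gX q B1 H s B2 w0 0).1).sup = _
      rw [hg.cont0, Multiset.sup_add, Multiset.sup_singleton]
      have h7 := hg.big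
      have h8 := hg.ht
      have h9 : ht (H1.gR B1 H s B2) = (cont (H1.gR B1 H s B2)).sup := OddHC.ht_eq _
      change max (cont (H1.gR B1 H s B2)).sup (q + 3) = ht (H1.gR B1 H s B2)
      omega
    rw [h.htp' c hcF, h6] at h2
    omega

/-! ### All-sharp phases with `B` not `nil`: no condition on the window -/

theorem TyJ2R.w_Rq_s (h : TyJ2R R B S F g) (h' : TyRq q F' g') (hB0 : B ≠ .nil)
    (hB : ∀ x ∈ cont B, x ≤ 2) : ∀ w ∈ g.B, w ∉ g'.B :=
  h.w_Rq h' fun _ _ _ _ h4 _ hc => hB0 (hc.Bnil h.sqd (WD.ofM h4)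
    (fun x hx => by have := h4.dat.bare x hx; omega) hB h4.dat.htS h4.dat.htB)

theorem TyJ2R.w_Sq_s (h : TyJ2R R B S F g) (h' : TySq q F' g') (hB0 : B ≠ .nil)
    (hB : ∀ x ∈ cont B, x ≤ 2) : ∀ w ∈ g.B, w ∉ g'.B :=
  h.w_Sq h' fun _ _ _ _ h4 _ hc => hB0 (hc.Bnil h.sqd (WD.ofM h4)
    (fun x hx => by have := h4.dat.bare x hx; omega) hB h4.dat.htS h4.dat.htB)

theorem TyJ2R.w_A_s (h : TyJ2R R B S F g) (h' : TyA F' g') (hB0 : B ≠ .nil)
    (hB : ∀ x ∈ cont B, x ≤ 2) : ∀ w ∈ g.B, w ∉ g'.B := by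
  refine h.w_A h' ?_ ?_
  · intro q B' _ e
    have h2 := hB (q + 3) (by
      rw [e, cont_app, H1.ch_cont]
      simp)
    omega
  · intro q B1 H s B2 w0 hg h1 _ hc
    have hR : H1.gR B1 H s B2 ≠ .nil := (WD.ofA hg h1).pR.1
    obtain ⟨a1, a2⟩ := ht_sq hR
    rw [hg.sq.1] at a2
    exact hB0 (hc.Bnil h.sqd (WD.ofA hg h1) (fun x hx => by have := hg.bare x hx; omega) hB a1 a2)

/-- `R3`, `S3` -/
theorem TyJ2R.w_R3 (h : TyJ2R R B S F g) (h' : TyR3 F' g')
    (hx : ∀ R' B' S' w0, HM.NodeM k 0 R' B' S' → g' = gad20 (H1.wX R' B' S' 0 w0) →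
      ¬ Con 0 R B S R' B' S') : ∀ w ∈ g.B, w ∉ g'.B :=
  h.w_Rq h'.toRq hx

theorem TyJ2R.w_S3 (h : TyJ2R R B S F g) (h' : TyS3 F' g')
    (hx : ∀ R' B' S' w0, HM.NodeM k 0 R' B' S' → g' = gadS (H1.wX R' B' S' 0 w0) →
      ¬ Con 0 R B S R' B' S') : ∀ w ∈ g.B, w ∉ g'.B :=
  h.w_Sq h'.toSq hx

end Pool.OddHC
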