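import Pool.Agent.Work.MP_8f87b2_h22.JA
import Pool.Agent.Work.MP_8f87b2_h22.JX
import Pool.Agent.Work.MP_8f87b2_h16.MV

/-!
# The mirrored pair gadget against the windows A with a `()` in the marker (helper16)
-/

set_option autoImplicit false
set_option linter.unusedSimpArgs false
set_option linter.unusedVariables false

namespace Pool.OddHC

open Finset Equiv BinaryTree Pool.Agent.Work.MP_8f87b2_co

namespace MV

open J

variable {k : ℕ} {S X : BinaryTree Unit} {F F' : Set (Cyc k)} {g g' : DG k}

/-- at most one `1`-part, at the first or last place or in a prime word -/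
def Sg (t : BinaryTree Unit) : Prop :=
  (cont t).count 1 = 0 ∨ ((cont t).count 1 = 1 ∧ ((cs t).length = 1 ∨ (∃ Y, cs t = .nil :: Y) ∨
    ∃ Y, (cs t).reverse = .nil :: Y))

theorem Sg.no2 {t : BinaryTree Unit} (h : Sg t) (h2 : 2 ≤ (cont t).count 1) : False := by
  rcases h with h | ⟨h, _⟩ <;> omega

theorem Sg.no1 {t : BinaryTree Unit} (h : Sg t) (h1 : 1 ≤ (cont t).count 1)
    {A Z : BinaryTree Unit} {Y V : List (BinaryTree Unit)} (hA : cs t = A :: Y) (hA0 : A ≠ .nil)
    (hZ : (cs t).reverse = Z :: V) (hZ0 : Z ≠ .nil) (hl : 2 ≤ (cs t).length) : False := by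
  rcases h with h | ⟨h, h2 | ⟨Y', h2⟩ | ⟨Y', h2⟩⟩
  · omega
  · omega
  · rw [hA, List.cons.injEq] at h2
    exact hA0 h2.1
  · rw [hZ, List.cons.injEq] at h2
    exact hZ0 h2.1

theorem h11 : ({1} : Multiset ℕ).count 1 = 1 := rfl

/-- **the windows** -/
theorem win {R B S : BinaryTree Unit} {q : ℕ} (hf : WinF R B S) {t : BinaryTree Unit} (hs : Sg t)
    {i : ℕ} (hi : i < 20) (hx' : t = H1.W R (H1.ch (q + 1)) B S i) : False := by
  obtain ⟨AR, YR, fR, fR0, fR1, fR2⟩ := hf.fR
  obtain ⟨ZR, VR, lR, lR0, lR1⟩ := hf.lR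
  obtain ⟨AS, YS, fS, fS0, fS1, fS2⟩ := hf.fS
  obtain ⟨ZS, VS, lS, lS0⟩ := hf.lS
  have hQn := ch_ne1 q
  have hQc : OddHC.cont (H1.ch (q + 1)) = {q + 1} := cont_ch (by omega)
  have hQ1 := one_Q q
  have oR := hf.oR
  have oS := hf.oS
  have oB := hf.oB
  have sR := hf.hR
  have sS := hf.hS
  have hRn : R ≠ .nil := by rintro rfl; simp at fR
  have hSn : S ≠ .nil := by rintro rfl; simp at fS
  have lenR : 1 ≤ (cs R).length := by rw [fR]; simp
  have lenS : 1 ≤ (cs S).length := by rw [fS]; simp
  have h11 : ({1} : Multiset ℕ).count 1 = 1 := rfl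
  have hchq : q ≠ 0 → H1.ch q ≠ .nil := fun h => OddHC.ch_ne (by omega)
  have hcq : cs (H1.ch (q + 1)) = [H1.ch q] := rfl
  have sup2 : ∀ {M N : Multiset ℕ}, 2 ≤ M.sup → 2 ≤ (M + N).sup := by
    intro M N h
    rw [sup_add']
    exact le_trans h (le_max_left _ _)
  have sup2' : ∀ {M N : Multiset ℕ}, 2 ≤ N.sup → 2 ≤ (M + N).sup := by
    intro M N h
    rw [sup_add']
    exact le_trans h (le_max_right _ _)
  have r2 : ∀ {M : Multiset ℕ}, 2 ≤ M.sup → 2 ≤ (raise M).sup := by
    intro M h
    have h1 : M ≠ 0 := by rintro rfl; simp at h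
    have := sup_raise M
    omega
  interval_cases i
  · -- 0
    rw [show H1.W R (H1.ch (q + 1)) B S 0 = app R ((H1.ch (q + 1) △ .nil) △ .nil) from rfl] at hx'
    exact hs.no1 (by rw [hx', cont_app, Multiset.count_add]; omega)
      (A := AR) (Y := YR ++ [H1.ch (q + 1) △ .nil]) (by rw [hx']; simp [fR]) fR0
      (Z := H1.ch (q + 1) △ .nil) (V := (cs R).reverse) (by rw [hx']; simp) (by simp)
      (by rw [hx']; simp; omega)
  · rw [show H1.W R (H1.ch (q + 1)) B S 1 = app R (.nil △ app (H1.ch (q + 1)) (.nil △ .nil)) from rfl] at hx'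
    apply hs.no2
    rw [hx', cont_app, cont_node, cont_app, cont_node, raise_nil, cont_nil]
    simp only [Multiset.count_add, h11]
    omega
  · rw [show H1.W R (H1.ch (q + 1)) B S 2 = .nil △ app R (.nil △ H1.ch (q + 1)) from rfl] at hx'
    apply hs.no2
    rw [hx', cont_node, cont_app, cont_node, raise_nil]
    simp only [Multiset.count_add, h11]
    omega
  · rw [show H1.W R (H1.ch (q + 1)) B S 3 = app R (.nil △ H1.ch (q + 1)) △ .nil from rfl] at hx'
    apply hs.no2
    rw [hx', cont_node, cont_nil, add_zero, cont_app, cont_node, raise_nil,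
      one_raise (sup2 (by omega))]
    simp only [Multiset.count_add, h11]
    omega
  · rw [show H1.W R (H1.ch (q + 1)) B S 4 = app (H1.ch (q + 1)) (.nil △ .nil) △ R from rfl] at hx'
    apply hs.no2
    rw [hx', cont_node, cont_app, cont_node, raise_nil, cont_nil, add_zero, hQc]
    have h3 : 1 ≤ (raise ({q + 1} + {1})).count 1 := by
      by_cases hq : q = 0
      · subst hq
        have := one_raise_ge ({0 + 1} + {1})
        have h4 : ({0 + 1} + {1} : Multiset ℕ).count 1 = 2 := rfl
        omega
      · rw [one_raise (by rw [sup_add', Multiset.sup_singleton]; omega)]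
        simp only [Multiset.count_add, h11]
        omega
    rw [Multiset.count_add]
    omega
  · rw [show H1.W R (H1.ch (q + 1)) B S 5 = H1.ch (q + 1) △ (.nil △ R) from rfl] at hx'
    apply hs.no2
    rw [hx', cont_node, cont_node, raise_nil]
    simp only [Multiset.count_add, h11]
    omega
  · rw [show H1.W R (H1.ch (q + 1)) B S 6 = R △ (H1.ch (q + 1) △ .nil) from rfl] at hx'
    exact hs.no1 (by rw [hx', cont_node, Multiset.count_add, one_raise (by omega)]; omega)
      (A := R) (Y := [H1.ch (q + 1)]) (by rw [hx']; simp) hRn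
      (Z := H1.ch (q + 1)) (V := [R]) (by rw [hx']; simp) hQn (by rw [hx']; simp)
  · rw [show H1.W R (H1.ch (q + 1)) B S 7 = app (H1.ch (q + 1)) ((.nil △ R) △ .nil) from rfl] at hx'
    apply hs.no2
    rw [hx', cont_app, cont_node, cont_nil, add_zero, cont_node, raise_nil, Multiset.count_add,
      one_raise (sup2' (by omega))]
    simp only [Multiset.count_add, h11]
    omega
  · rw [show H1.W R (H1.ch (q + 1)) B S 8 = app (H1.ch (q + 1)) (.nil △ (R △ .nil)) from rfl] at hx'
    apply hs.no2
    rw [hx', cont_app, cont_node, raise_nil, cont_node, Multiset.count_add, Multiset.count_add,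
      Multiset.count_add, one_raise (by omega)]
    omega
  · rw [show H1.W R (H1.ch (q + 1)) B S 9 = (R △ .nil) △ H1.ch (q + 1) from rfl] at hx'
    have h3 : (raise (OddHC.cont (R △ .nil))).count 1 = (OddHC.cont R).count 1 := by
      rw [cont_node, cont_nil, add_zero, one_raise (r2 (by omega)), one_raise (by omega)]
    by_cases hq : q = 0
    · apply hs.no2
      rw [hx', cont_node, Multiset.count_add, h3, hQc, hQ1, if_pos hq]
      omega
    · exact hs.no1 (by rw [hx', cont_node, Multiset.count_add, h3]; omega)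
        (A := R △ .nil) (Y := [H1.ch q]) (by rw [hx', cs_node, hcq]) (by simp)
        (Z := H1.ch q) (V := [R △ .nil]) (by rw [hx', cs_node, hcq]; rfl) (hchq hq)
        (by rw [hx', cs_node, hcq]; simp)
  · rw [show H1.W R (H1.ch (q + 1)) B S 10 = app B ((H1.ch (q + 1) △ .nil) △ S) from rfl] at hx'
    have h4 : (cs t).reverse = ZS :: (VS ++ [H1.ch (q + 1) △ .nil] ++ (cs B).reverse) := by
      rw [hx']; simp [lS]
    have h5 : 1 ≤ (OddHC.cont t).count 1 := by
      rw [hx', cont_app, cont_node, Multiset.count_add, Multiset.count_add]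
      omega
    have h6 : 2 ≤ (cs t).length := by rw [hx']; simp; omega
    rcases hf.fB with hB | ⟨A, Y, hB, hB0, _⟩
    · exact hs.no1 h5 (A := H1.ch (q + 1) △ .nil) (Y := cs S) (by rw [hx', hB]; rfl) (by simp)
        h4 lS0 h6
    · exact hs.no1 h5 (A := A) (Y := Y ++ (H1.ch (q + 1) △ .nil) :: cs S)
        (by rw [hx', cs_app, hB]; rfl) hB0 h4 lS0 h6
  · rw [show H1.W R (H1.ch (q + 1)) B S 11 = app B (.nil △ app (H1.ch (q + 1)) (.nil △ S)) from rfl] at hx'
    apply hs.no2
    rw [hx', cont_app, cont_node, cont_app, cont_node, raise_nil]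
    simp only [Multiset.count_add, h11]
    omega
  · rw [show H1.W R (H1.ch (q + 1)) B S 12 = S △ app B (.nil △ H1.ch (q + 1)) from rfl] at hx'
    apply hs.no2
    rw [hx', cont_node, cont_app, cont_node, raise_nil, Multiset.count_add, one_raise (by omega)]
    simp only [Multiset.count_add, h11]
    omega
  · rw [show H1.W R (H1.ch (q + 1)) B S 13 = app S (app B (.nil △ H1.ch (q + 1)) △ .nil) from rfl] at hx'
    apply hs.no2
    rw [hx', cont_app, cont_node, cont_nil, add_zero, cont_app, cont_node, raise_nil, hQc,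
      Multiset.count_add]
    have h3 : 1 ≤ (raise (OddHC.cont B + ({1} + {q + 1}))).count 1 := by
      by_cases hq : 2 ≤ (OddHC.cont B + ({1} + {q + 1})).sup
      · rw [one_raise hq]
        simp only [Multiset.count_add, h11]
        omega
      · have hq0 : q = 0 := by
          rw [sup_add', sup_add', Multiset.sup_singleton, Multiset.sup_singleton] at hq
          omega
        have := one_raise_ge (OddHC.cont B + ({1} + {q + 1}))
        simp only [Multiset.count_add, h11] at this
        rw [hQ1, if_pos hq0] at this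
        omega
    omega
  · rw [show H1.W R (H1.ch (q + 1)) B S 14 = app (H1.ch (q + 1)) (.nil △ S) △ B from rfl] at hx'
    apply hs.no2
    rw [hx', cont_node, cont_app, cont_node, raise_nil, Multiset.count_add,
      one_raise (sup2' (sup2' (by omega)))]
    simp only [Multiset.count_add, h11]
    omega
  · rw [show H1.W R (H1.ch (q + 1)) B S 15 = H1.ch (q + 1) △ (S △ B) from rfl] at hx'
    have h5 : 1 ≤ (OddHC.cont t).count 1 := by
      rw [hx', cont_node, cont_node, Multiset.count_add, Multiset.count_add, one_raise sS]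
      omega
    have h6 : 2 ≤ (cs t).length := by rw [hx']; simp
    rcases hf.lB with hB | ⟨A, Y, hB, hB0, _⟩
    · exact hs.no1 h5 (A := H1.ch (q + 1)) (Y := [S]) (by rw [hx', hB]; rfl) hQn
        (Z := S) (V := [H1.ch (q + 1)]) (by rw [hx', hB]; rfl) hSn h6
    · exact hs.no1 h5 (A := H1.ch (q + 1)) (Y := S :: cs B) (by rw [hx']; rfl) hQn
        (Z := A) (V := Y ++ [S, H1.ch (q + 1)]) (by rw [hx']; simp [hB]) hB0 h6
  · rw [show H1.W R (H1.ch (q + 1)) B S 16 = app S (B △ (H1.ch (q + 1) △ .nil)) from rfl] at hx'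
    exact hs.no1 (by rw [hx', cont_app, Multiset.count_add]; omega)
      (A := AS) (Y := YS ++ [B, H1.ch (q + 1)]) (by rw [hx']; simp [fS]) fS0
      (Z := H1.ch (q + 1)) (V := B :: (cs S).reverse) (by rw [hx']; simp) hQn
      (by rw [hx']; simp)
  · rw [show H1.W R (H1.ch (q + 1)) B S 17 = app (H1.ch (q + 1)) ((S △ B) △ .nil) from rfl] at hx'
    have h3 : 1 ≤ (raise (OddHC.cont (S △ B))).count 1 := by
      rw [cont_node, one_raise (sup2 (r2 sS)), Multiset.count_add, one_raise sS]
      omega
    by_cases hq : q = 0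
    · apply hs.no2
      rw [hx', cont_app, cont_node, cont_nil, add_zero, Multiset.count_add, hQc, hQ1, if_pos hq]
      omega
    · exact hs.no1 (by rw [hx', cont_app, cont_node, cont_nil, add_zero, Multiset.count_add]; omega)
        (A := H1.ch q) (Y := [S △ B]) (by rw [hx', cs_app, hcq]; rfl) (hchq hq)
        (Z := S △ B) (V := [H1.ch q]) (by rw [hx', cs_app, hcq]; rfl) (by simp)
        (by rw [hx', cs_app, hcq]; simp)
  · rw [show H1.W R (H1.ch (q + 1)) B S 18 = app (H1.ch (q + 1)) (.nil △ app S (B △ .nil)) from rfl] at hx'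
    apply hs.no2
    rw [hx', cont_app, cont_node, raise_nil, cont_app]
    simp only [Multiset.count_add, h11]
    omega
  · rw [show H1.W R (H1.ch (q + 1)) B S 19 = app S (B △ .nil) △ H1.ch (q + 1) from rfl] at hx'
    have h3 : 1 ≤ (raise (OddHC.cont (app S (B △ .nil)))).count 1 := by
      rw [cont_app, one_raise (sup2 sS), Multiset.count_add]
      omega
    by_cases hq : q = 0
    · apply hs.no2
      rw [hx', cont_node, Multiset.count_add, hQc, hQ1, if_pos hq]
      omega
    · exact hs.no1 (by rw [hx', cont_node, Multiset.count_add]; omega)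
        (A := app S (B △ .nil)) (Y := [H1.ch q]) (by rw [hx', cs_node, hcq])
        (by
          intro h
          have := congrArg cs h
          simp at this)
        (Z := H1.ch q) (V := [app S (B △ .nil)]) (by rw [hx', cs_node, hcq]; rfl) (hchq hq)
        (by rw [hx', cs_node, hcq]; simp)

/-- the nine words have the property `Sg` -/
theorem sg_W (m : MF S X) {i : ℕ} (hi : i < 9) : Sg (W S X i) := by
  have hS := m.hS
  have sS : 3 ≤ (OddHC.cont S).sup := by rw [← OddHC.ht_eq]; exact hS
  have oS := m.oS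
  have oX := m.oX
  obtain ⟨Z, T, hZ, hT⟩ := m.last
  have sX : 3 ≤ (OddHC.cont X).sup := by
    rw [← OddHC.ht_eq]
    have e : X = app (X : BinaryTree Unit) .nil := (H1.app_nil X).symm
    have key : ∀ (t : BinaryTree Unit) (Z : List (BinaryTree Unit)) (T : BinaryTree Unit),
        comps t = Z ++ [T] → ht T + 1 ≤ ht t := by
      intro t
      induction t with
      | nil => intro Z T h; simp [comps] at h
      | node _ A B _ ih =>
        intro Z T h
        change ht T + 1 ≤ max (ht A + 1) (ht B)
        cases Z with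
        | nil =>
          have h' : A :: comps B = [T] := h
          rw [List.cons.injEq] at h'
          rw [h'.1]
          exact le_max_left _ _
        | cons z Z =>
          have h' : A :: comps B = z :: (Z ++ [T]) := h
          rw [List.cons.injEq] at h'
          exact le_trans (ih Z T h'.2) (le_max_right _ _)
    have := key X Z T hZ
    omega
  have h11 : ({1} : Multiset ℕ).count 1 = 1 := rfl
  interval_cases i
  · left
    change (OddHC.cont ((.nil △ .nil) △ S)).count 1 = 0
    rw [cont_node, cont_node, raise_nil, cont_nil, add_zero, Multiset.count_add, oS]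
    have : raise ({1} : Multiset ℕ) = {2} := rfl
    rw [this]
    rfl
  · left
    change (OddHC.cont (app S ((.nil △ .nil) △ .nil))).count 1 = 0
    rw [cont_app, cont_node, cont_node, raise_nil, cont_nil, add_zero, add_zero,
      Multiset.count_add, oS]
    have : raise ({1} : Multiset ℕ) = {2} := rfl
    rw [this]
    rfl
  · right
    refine ⟨?_, Or.inl rfl⟩
    change (OddHC.cont (app S (.nil △ .nil) △ .nil)).count 1 = 1
    rw [cont_node, cont_nil, add_zero, cont_app, one_raise (by rw [sup_add']; omega),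
      Multiset.count_add, oS, cont_node, raise_nil, cont_nil]
    rfl
  · left
    change (OddHC.cont ((S △ .nil) △ .nil)).count 1 = 0
    rw [cont_node, cont_nil, add_zero, cont_node, cont_nil, add_zero,
      one_raise (by rw [sup_raise]; omega), one_raise (by omega), oS]
  · right
    refine ⟨?_, Or.inl rfl⟩
    change (OddHC.cont ((.nil △ S) △ .nil)).count 1 = 1
    rw [cont_node, cont_nil, add_zero, cont_node, raise_nil,
      one_raise (by rw [sup_add']; omega), Multiset.count_add, oS]
    rfl
  · right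
    refine ⟨?_, Or.inr (Or.inl ⟨[S], rfl⟩)⟩
    change (OddHC.cont (.nil △ (S △ .nil))).count 1 = 1
    rw [cont_node, raise_nil, cont_node, cont_nil, add_zero, Multiset.count_add,
      one_raise (by omega), oS]
    rfl
  · left
    change (OddHC.cont (X △ .nil)).count 1 = 0
    rw [cont_node, cont_nil, add_zero, one_raise (by omega), oX]
  · right
    refine ⟨?_, Or.inr (Or.inl ⟨cs X, rfl⟩)⟩
    change (OddHC.cont (.nil △ X)).count 1 = 1
    rw [cont_node, raise_nil, Multiset.count_add, oX]
    rfl
  · right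
    refine ⟨?_, Or.inr (Or.inr ⟨(cs X).reverse, ?_⟩)⟩
    · change (OddHC.cont (app X (.nil △ .nil))).count 1 = 1
      rw [cont_app, cont_node, raise_nil, cont_nil, Multiset.count_add, oX]
      rfl
    · change (cs (app X (.nil △ .nil))).reverse = _
      rw [cs_app]
      simp

/-- **A** (a `()` in the marker) -/
theorem dis_A (h : Is9M .nil .nil S F g) (hS : 3 ≤ ht S) (oS : (cont S).count 1 = 0)
    (hA : TyA F' g') (hm : ∀ c ∈ F', 1 ≤ (contc c).count 1) : ∀ w ∈ g.B, w ∉ g'.B := by
  have m := MF.of hS oS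
  obtain ⟨q, B1, H, s, B, w0, hg, rfl, rfl⟩ := hA
  intro w hw hwB
  obtain ⟨i, hi, rfl⟩ := mem_gad20.1 hwB
  obtain ⟨j, hj, h3, -⟩ := words h _ hw
  have h1 := hm _ rfl
  have h0 : OddHC.cont (H1.gX q B1 H s B w0 0).1 = OddHC.cont (H1.gR B1 H s B) + {q + 3} := by
    rw [hg.word w0 (by norm_num)]
    change OddHC.cont (app (H1.gR B1 H s B) (H1.ch (q + 3))) = _
    rw [cont_app, cont_ch (by omega)]
  have h2 : 1 ≤ (OddHC.cont (H1.gR B1 H s B)).count 1 := by
    change 1 ≤ (OddHC.cont (H1.gX q B1 H s B w0 0).1).count 1 at h1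
    rw [h0, Multiset.count_add, Multiset.count_singleton, if_neg (by omega)] at h1
    omega
  exact win (winF_A hg h2) (sg_W m hj) hi (h3.symm.trans (hg.word w0 hi))

end MV

end Pool.OddHC
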