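import Pool.Agent.Work.MP_8f87b2_h16.MV
import Pool.Agent.Work.MP_8f87b2_h49.JVJ
import Pool.Agent.Work.MP_8f87b2_h49.JVS5
import Pool.Agent.Work.MP_8f87b2_h4.Meet2

/-!
# The mirrored pair gadget JVm = `Is9M nil nil Z` against the one-soliton gadgets (JG), S5, J3V, words (helper16)

`JG.disj_JVm`: side condition `X <> (B)R'`, `B = (())^(t+1)` (only if `Z` has exactly two parts `>= 3`, one of them 3).
`SqD.meetM`: common words with `H1.W R nil B S i`.
-/

set_option autoImplicit false
set_option linter.unusedSimpArgs false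
set_option linter.unusedVariables false

namespace Pool.OddHC

open Finset Equiv BinaryTree Pool.Agent.Work.MP_8f87b2_co

namespace MV

variable {k n : ℕ} {Z X : BinaryTree Unit} {F F' : Set (Cyc k)} {g g' : DG k}

/-- the square of the mirror image -/
theorem xTM_data (hZ : 3 ≤ ht Z) : ∃ A C : BinaryTree Unit, xTM Z = app C (A △ .nil) ∧
    cont A + cont C = cont Z ∧ ht A = ht Z := by
  have hne : Tsq.mir Z ≠ .nil := mir_ne (by rintro rfl; rw [ht] at hZ; omega)
  refine ⟨_, _, xTM_eq Z, ?_, ?_⟩
  · rw [cont_mir9, cont_mir9, cont_sqV hne, cont_mir9]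
  · rw [ht_mir, (ht_sq hne).1, ht_mir]

theorem p3_X (hZ : 3 ≤ ht Z) : p3 (cont Z) ≤ p3 (cont (xTM Z)) := by
  obtain ⟨A, C, e, h1, h2⟩ := xTM_data hZ
  have := p3_raise_ge (cont A)
  rw [e, cont_app, cont_node, cont_nil, add_zero, p3_add, ← h1, p3_add]
  omega

/-- the parts of `X` below the height are those of `Z` -/
theorem mem_X (hZ : 3 ≤ ht Z) {s : ℕ} (hs : s < ht Z) : s ∈ cont (xTM Z) ↔ s ∈ cont Z := by
  obtain ⟨A, C, e, h1, h2⟩ := xTM_data hZ
  rw [e, cont_app, cont_node, cont_nil, add_zero, ← h1, Multiset.mem_add, Multiset.mem_add]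
  have h3 : (cont A).sup = ht Z := by rw [← ht_eq, h2]
  have h4 : s ∈ raise (cont A) ↔ s ∈ cont A := by
    unfold raise
    rw [h3, Multiset.mem_cons, Multiset.mem_erase_of_ne (by omega)]
    constructor
    · rintro (h | h)
      · omega
      · exact h
    · exact Or.inr
  rw [h4]
  exact or_comm

/-- the contents of the nine words -/
theorem contW (m : MF Z X) (hX : X = xTM Z) {i : ℕ} (hi : i < 9) :
    p3 (cont Z) ≤ p3 (cont (W Z X i)) ∧
      (cont (W Z X i)).count 1 = if i = 0 ∨ i = 1 ∨ i = 3 ∨ i = 6 then 0 else 1 := by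
  have h0 := m.oS
  have h3 := m.hS
  have k0 := m.oX
  have hp : p3 (cont Z) ≤ p3 (cont X) := by rw [hX]; exact p3_X h3
  have hz : 2 ≤ (cont Z).sup := by rw [← OddHC.ht_eq]; omega
  have hx : 2 ≤ (cont X).sup := by
    obtain ⟨A, C, e, h1, h2⟩ := xTM_data h3
    have h4 : (cont A).sup = ht Z := by rw [← ht_eq, h2]
    rw [hX, e, cont_app, Multiset.sup_add, cont_node, cont_nil, add_zero, sup_raise, h4]
    exact le_sup_of_le_right (by omega)
  have c1 : ∀ M : Multiset ℕ, 2 ≤ M.sup → (raise M).count 1 = M.count 1 := fun M h => H1.raise_one h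
  have one : ({1} : Multiset ℕ).count 1 = 1 := by simp
  have two : ({2} : Multiset ℕ).count 1 = 0 := by simp
  have g1 := p3_raise_ge (cont X)
  have g2 := p3_raise_ge (cont Z)
  interval_cases i
  · change p3 (cont Z) ≤ p3 (cont ((.nil △ .nil) △ Z)) ∧ _
    refine ⟨?_, ?_⟩
    · rw [cont_node, cont_pp, p3_add]; omega
    · change (cont ((.nil △ .nil) △ Z)).count 1 = _
      rw [cont_node, cont_pp, Multiset.count_add, h0]
      simp [raise]
  · refine ⟨?_, ?_⟩
    · change p3 (cont Z) ≤ p3 (cont (app Z ((.nil △ .nil) △ .nil)))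
      rw [cont_app, cont_ppp, p3_add]; omega
    · change (cont (app Z ((.nil △ .nil) △ .nil))).count 1 = _
      rw [cont_app, cont_ppp, Multiset.count_add, h0, two]
      simp
  · refine ⟨?_, ?_⟩
    · change p3 (cont Z) ≤ p3 (cont (app Z (.nil △ .nil) △ .nil))
      rw [cont_node, cont_app, cont_pp, cont_nil, add_zero]
      have := p3_raise_ge (cont Z + {1})
      rw [p3_add] at this
      omega
    · change (cont (app Z (.nil △ .nil) △ .nil)).count 1 = _
      rw [cont_node, cont_app, cont_pp, cont_nil, add_zero,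
        c1 _ (by rw [Multiset.sup_add]; exact le_sup_of_le_left hz), Multiset.count_add, h0, one]
      simp
  · refine ⟨?_, ?_⟩
    · change p3 (cont Z) ≤ p3 (cont ((Z △ .nil) △ .nil))
      rw [cont_node, cont_node, cont_nil, add_zero, add_zero]
      have := p3_raise_ge (raise (cont Z))
      omega
    · change (cont ((Z △ .nil) △ .nil)).count 1 = _
      rw [cont_node, cont_node, cont_nil, add_zero, add_zero, c1 _ (by rw [sup_raise]; omega),
        c1 _ hz, h0]
      simp
  · refine ⟨?_, ?_⟩
    · change p3 (cont Z) ≤ p3 (cont ((.nil △ Z) △ .nil))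
      rw [cont_node, cont_node, cont_nil, raise_zero, add_zero]
      have := p3_raise_ge ({1} + cont Z)
      rw [p3_add] at this
      omega
    · change (cont ((.nil △ Z) △ .nil)).count 1 = _
      rw [cont_node, cont_node, cont_nil, raise_zero, add_zero,
        c1 _ (by rw [Multiset.sup_add]; exact le_sup_of_le_right hz), Multiset.count_add, h0, one]
      simp
  · refine ⟨?_, ?_⟩
    · change p3 (cont Z) ≤ p3 (cont (.nil △ (Z △ .nil)))
      rw [cont_node, cont_node, cont_nil, raise_zero, add_zero, p3_add]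
      omega
    · change (cont (.nil △ (Z △ .nil))).count 1 = _
      rw [cont_node, cont_node, cont_nil, raise_zero, add_zero, Multiset.count_add, c1 _ hz, h0, one]
      simp
  · refine ⟨?_, ?_⟩
    · change p3 (cont Z) ≤ p3 (cont (X △ .nil))
      rw [cont_node, cont_nil, add_zero]
      omega
    · change (cont (X △ .nil)).count 1 = _
      rw [cont_node, cont_nil, add_zero, c1 _ hx, k0]
      simp
  · refine ⟨?_, ?_⟩
    · change p3 (cont Z) ≤ p3 (cont (.nil △ X))
      rw [cont_node, cont_nil, raise_zero, p3_add]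
      omega
    · change (cont (.nil △ X)).count 1 = _
      rw [cont_node, cont_nil, raise_zero, Multiset.count_add, k0, one]
      simp
  · refine ⟨?_, ?_⟩
    · change p3 (cont Z) ≤ p3 (cont (app X (.nil △ .nil)))
      rw [cont_app, cont_pp, p3_add]
      omega
    · change (cont (app X (.nil △ .nil))).count 1 = _
      rw [cont_app, cont_pp, Multiset.count_add, k0, one]
      simp

/-- **S5 against JVm** -/
theorem dis_S5 (h : Is9M .nil .nil Z F g) (h3 : 3 ≤ ht Z) (h0 : (cont Z).count 1 = 0)
    (h' : TyS5 F' g') : ∀ w ∈ g.B, w ∉ g'.B := by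
  intro w hw hw'
  have h1 := h'.one w hw'
  obtain ⟨i, hi, e, -⟩ := words h w hw
  have h2 := (contW (MF.of h3 h0) rfl hi).2
  rw [e, h2] at h1
  split_ifs at h1 <;> omega

end MV

namespace J

variable {k n : ℕ} {Z : BinaryTree Unit}

theorem b2_ne (t : ℕ) : b2 (t + 1) ≠ .nil := by
  intro h
  have := congrArg cs h
  rw [b2_front] at this
  simp at this

theorem b2_ne1 (t : ℕ) : b2 (t + 1) ≠ .nil △ .nil := by
  intro h
  have := congrArg cs h
  rw [b2_front] at this
  simp at this

theorem p3_le {M : Multiset ℕ} : p3 M ≤ M.card := Multiset.countP_le_card _ _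

theorem p3_s4 (s b : ℕ) : p3 ({s} + {3} + Multiset.replicate b 2) ≤ 2 := by
  have h1 := p3_le (M := {s})
  have h2 := p3_le (M := {3})
  have h3 : p3 (Multiset.replicate b 2) = 0 :=
    p3_low (fun x hx => (Multiset.eq_of_mem_replicate hx).le)
  rw [p3_add, p3_add, h3]
  simp at h1 h2
  omega

theorem p3_s3 (s b : ℕ) : p3 ({s} + {3} + Multiset.replicate b 2 + {1}) ≤ 2 := by
  have := p3_s4 s b
  rw [p3_add, p3_one]
  omega

/-- **JG against JVm**, words -/
theorem JG.disj_JVm (hn : 1 ≤ n) {B : Finset (X k)} {P U M : Set (ZMod (2 * n + 1) → ℕ)}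
    (h : JG n B P U M) {F : Set (Cyc k)} {g : DG k} (h9 : Is9M .nil .nil Z F g)
    (h0 : (OddHC.cont Z).count 1 = 0) (h3 : 3 ≤ OddHC.ht Z) (h2 : 2 ≤ p3 (OddHC.cont Z))
    (hx : 3 ∈ OddHC.cont Z → p3 (OddHC.cont Z) = 2 →
      ∀ (t u : ℕ) (D : BinaryTree Unit), GD D → xTM Z ≠ b2 (t + 1) △ RR u D 0) :
    ∀ w ∈ B, w ∉ g.B := by
  intro w hw hwg
  obtain ⟨i, hi, e, -⟩ := MV.words h9 w hwg
  have m := MV.MF.of h3 h0
  obtain ⟨q1, q2⟩ := MV.contW m rfl hi
  rw [← e] at q1 q2
  have h3' : ∀ (t : ℕ) (Y : BinaryTree Unit), xTM Z = b2 (t + 1) △ Y → 3 ∈ OddHC.cont Z := by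
    intro t Y hY
    rcases Nat.eq_or_lt_of_le h3 with h4 | h4
    · have h5 := sup_mem (M := OddHC.cont Z) (fun h6 => by
        rw [ht_eq, h6] at h3
        simp at h3)
      rw [← ht_eq, ← h4] at h5
      exact h5
    · rw [← MV.mem_X h3 h4, hY, cont_node, raise_b2]
      simp
  replace hx : p3 (OddHC.cont w.1) ≤ 2 →
      ∀ (t u : ℕ) (D : BinaryTree Unit), GD D → xTM Z ≠ b2 (t + 1) △ RR u D 0 := by
    intro h4 t u D hD hY
    exact hx (h3' t _ hY) (by omega) t u D hD hY
  have hZ := m.Sne
  have hX := m.Xne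
  have oZ := m.oS
  have oX := m.oX
  obtain ⟨s, b, hs3, hc | hc | hc | ⟨hc, t, u, D, hD, f | f | f⟩ | ⟨hc, t, u, D, hD, f⟩⟩ :=
    h.cases2 hn hw
  · rw [hc, p3_s2 hs3] at q1
    omega
  · rw [hc, p3_add, p3_s2 hs3, p3_one] at q1
    omega
  · rw [hc, p3_add, p3_add, p3_s2 hs3, p3_one] at q1
    omega
  · -- `(()B)R`
    replace hx := hx (by rw [hc]; exact p3_s3 s b)
    have hR := RR_ne u D 0
    have hbn := b2_ne t
    have key : ∀ Y : BinaryTree Unit, (OddHC.cont Y).count 1 = 0 → Y ≠ .nil → ∀ V : BinaryTree Unit,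
        (.nil △ b2 (t + 1)) △ RR u D 0 ≠ app Y V := by
      intro Y hY hn V hV
      cases Y with
      | nil => exact hn rfl
      | node _ A C =>
        have h5 := (node_inj' (hV : _ = A △ app C V)).1
        have h6 := one_of_first (t := t) (Y := C)
        rw [h5] at h6
        change 1 ≤ (OddHC.cont (A △ C)).count 1 at h6
        change (OddHC.cont (A △ C)).count 1 = 0 at hY
        omega
    rw [f] at e
    interval_cases i
    · exact hbn (node_inj' (node_inj' e).1).2
    · exact key Z oZ hZ _ e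
    · exact hR (node_inj' e).2
    · exact hR (node_inj' e).2
    · exact hR (node_inj' e).2
    · have := (node_inj' e).1
      simp at this
    · exact hR (node_inj' e).2
    · have := (node_inj' e).1
      simp at this
    · exact key _ oX hX _ e
  · -- `()(B)R`
    replace hx := hx (by rw [hc]; exact p3_s3 s b)
    have key : ∀ Y : BinaryTree Unit, (OddHC.cont Y).count 1 = 0 → Y ≠ .nil → ∀ V : BinaryTree Unit,
        .nil △ (b2 (t + 1) △ RR u D 0) ≠ app Y V := by
      intro Y hY hn V hV
      cases Y with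
      | nil => exact hn rfl
      | node _ A C =>
        have h5 := (node_inj' (hV : _ = A △ app C V)).1
        have h6 := one_of_nil (Y := C)
        rw [h5] at h6
        change 1 ≤ (OddHC.cont (A △ C)).count 1 at h6
        change (OddHC.cont (A △ C)).count 1 = 0 at hY
        omega
    have hR := RR_ne u D 0
    rw [f] at e
    interval_cases i
    · have := (node_inj' e).1
      simp at this
    · exact key Z oZ hZ _ e
    · have := (node_inj' e).2
      simp at this
    · have := (node_inj' e).2
      simp at this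
    · have := (node_inj' e).2
      simp at this
    · exact hR (node_inj' (node_inj' e).2).2
    · have := (node_inj' e).2
      simp at this
    · exact hx t u D hD (node_inj' e).2.symm
    · exact key _ oX hX _ e
  · -- `(B)R()`
    replace hx := hx (by rw [hc]; exact p3_s3 s b)
    have hbn := b2_ne t
    have hbn1 := b2_ne1 t
    have hR : app (RR u D 0) (.nil △ .nil) ≠ .nil := H1.app_ne (by simp)
    rw [f] at e
    interval_cases i
    · exact hbn1 (node_inj' e).1
    · have h5 : app (b2 (t + 1) △ RR u D 0) (.nil △ .nil) = app Z ((.nil △ .nil) △ .nil) := e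
      have := (H1.app_snoc h5).2
      simp at this
    · exact hR (node_inj' e).2
    · exact hR (node_inj' e).2
    · exact hR (node_inj' e).2
    · exact hbn (node_inj' e).1
    · exact hR (node_inj' e).2
    · exact hbn (node_inj' e).1
    · have h5 : app (b2 (t + 1) △ RR u D 0) (.nil △ .nil) = app (xTM Z) (.nil △ .nil) := e
      exact hx t u D hD (H1.app_snoc h5).1.symm
  · -- `((B)R)`
    replace hx := hx (by rw [hc]; exact p3_s4 s b)
    have hR := RR_ne u D 0
    have h1 : (OddHC.cont w.1).count 1 = 0 := by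
      rw [hc, Multiset.count_add, Multiset.count_add, Multiset.count_replicate, if_neg (by omega),
        Multiset.count_singleton, if_neg (by omega), Multiset.count_singleton, if_neg (by omega)]
    rw [h1] at q2
    rw [f] at e
    interval_cases i
    · have := (node_inj' e).2
      exact hZ this.symm
    · have h5 : app .nil ((b2 (t + 1) △ RR u D 0) △ .nil) = app Z ((.nil △ .nil) △ .nil) := e
      exact hZ (H1.app_snoc h5).1.symm
    · exact absurd q2 (by simp)
    · exact hR (node_inj' (node_inj' e).1).2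
    · exact absurd q2 (by simp)
    · exact absurd q2 (by simp)
    · exact hx t u D hD (node_inj' e).1.symm
    · exact absurd q2 (by simp)
    · exact absurd q2 (by simp)

end J

end Pool.OddHC
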