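import Pool.Agent.Work.MP_8f87b2_h16.MV
import Pool.Agent.Work.MP_8f87b2_h71.H1Gad

/-!
# The pair gadgets (right and mirrored) against the bare windows (helper16)

`T10 S X i`, `i < 10`: the nine words of the mirrored gadget and `(S)()`. `bare`: the common words with a bare window.
-/

set_option autoImplicit false
set_option linter.unusedSimpArgs false
set_option linter.unusedVariables false

namespace Pool.OddHC

open Finset Equiv BinaryTree Pool.Agent.Work.MP_8f87b2_co

namespace MV

variable {k : ℕ} {S X : BinaryTree Unit} {F F' : Set (Cyc k)} {g g' : DG k}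

/-- the words of the right and of the mirrored pair gadget -/
def T10 (S X : BinaryTree Unit) : ℕ → BinaryTree Unit
  | 0 => (.nil △ .nil) △ S
  | 1 => app S ((.nil △ .nil) △ .nil)
  | 2 => app S (.nil △ .nil) △ .nil
  | 3 => (S △ .nil) △ .nil
  | 4 => (.nil △ S) △ .nil
  | 5 => .nil △ (S △ .nil)
  | 6 => X △ .nil
  | 7 => .nil △ X
  | 8 => app X (.nil △ .nil)
  | _ => S △ (.nil △ .nil)

theorem W_T10 (S X : BinaryTree Unit) {i : ℕ} (hi : i < 9) : W S X i = T10 S X i := by
  interval_cases i <;> rfl

theorem cT (S X : BinaryTree Unit) : comps (T10 S X 0) = (.nil △ .nil) :: comps S ∧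
    comps (T10 S X 1) = comps S ++ [.nil △ .nil] ∧ comps (T10 S X 2) = [app S (.nil △ .nil)] ∧
    comps (T10 S X 3) = [S △ .nil] ∧ comps (T10 S X 4) = [.nil △ S] ∧
    comps (T10 S X 5) = [.nil, S] ∧ comps (T10 S X 6) = [X] ∧ comps (T10 S X 7) = .nil :: comps X ∧
    comps (T10 S X 8) = comps X ++ [.nil] ∧ comps (T10 S X 9) = [S, .nil] := by
  refine ⟨rfl, ?_, rfl, rfl, rfl, rfl, rfl, rfl, ?_, rfl⟩
  · change comps (app S _) = _
    rw [comps_app]; rfl
  · change comps (app X _) = _
    rw [comps_app]; rfl

/-- all components have height at least `2` -/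
def Hf (t : BinaryTree Unit) : Prop := ∀ A ∈ comps t, 2 ≤ ht A

theorem Hf.of : ∀ {t : BinaryTree Unit}, (∀ x ∈ cont t, 3 ≤ x) → Hf t := by
  intro t
  induction t with
  | nil => intro _ A hA; simp [comps] at hA
  | node _ A B _ ih =>
    intro h C hC
    change C ∈ A :: comps B at hC
    change ∀ x ∈ cont (A △ B), 3 ≤ x at h
    rw [List.mem_cons] at hC
    rcases hC with rfl | hC
    · have h1 : C = C := rfl
      have h2 : (raise (cont C)).sup ∈ raise (cont C) := by
        unfold raise
        rw [Multiset.sup_cons]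
        have h3 : ((cont C).erase (cont C).sup).sup ≤ (cont C).sup := by
          apply Multiset.sup_mono
          intro x hx
          exact Multiset.mem_of_mem_erase hx
        have h4 : ((cont C).sup + 1) ⊔ ((cont C).erase (cont C).sup).sup = (cont C).sup + 1 := by
          apply sup_eq_left.2
          omega
        rw [h4]
        exact Multiset.mem_cons_self _ _
      have h5 := h _ (by rw [cont_node]; exact Multiset.mem_add.2 (Or.inl h2))
      rw [sup_raise, ← ht_eq] at h5
      omega
    · exact ih (fun x hx => h x (by rw [cont_node]; exact Multiset.mem_add.2 (Or.inr hx))) C hC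

theorem Hf.nil_mem {t : BinaryTree Unit} (h : Hf t) : BinaryTree.nil ∉ comps t := by
  intro h1
  have := h _ h1
  rw [ht] at this
  omega

theorem Hf.one_mem {t : BinaryTree Unit} (h : Hf t) : (.nil △ .nil : BinaryTree Unit) ∉ comps t := by
  intro h1
  have := h _ h1
  change 2 ≤ 1 at this
  omega

/-- the common words of a pair gadget and a bare window -/
def Cb (q : ℕ) (R B S' S X : BinaryTree Unit) : Prop :=
  (q = 0 ∧ (S = R △ .nil ∨ S = S' △ B ∨ S = app S' (B △ .nil) ∨ X = (R △ .nil) △ .nil ∨
    X = (S' △ B) △ .nil ∨ X = app S' (B △ .nil) △ .nil)) ∨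
  (q = 1 ∧ (S = (R △ .nil) △ .nil ∨ S = (S' △ B) △ .nil ∨ S = app S' (B △ .nil) △ .nil))

/-- **the bare windows** -/
theorem bare {R B S' : BinaryTree Unit} {q : ℕ} (cS : (cont S).count 1 = 0)
    (cX : (cont X).count 1 = 0)
    (hS0 : S ≠ .nil) (hX0 : X ≠ .nil) (hR : Hf R) (hB : Hf B) (hS : Hf S') (tR : 2 ≤ ht R)
    (tS : 2 ≤ ht S') {i j : ℕ} (hi : i < 10) (hj : j < 20)
    (e : T10 S X i = H1.W R (H1.ch (q + 1)) B S' j) : Cb q R B S' S X := by
  have e := congrArg comps e
  have oS : .nil ∉ comps S := nil_mem cS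
  have oX : .nil ∉ comps X := nil_mem cX
  obtain ⟨c0, c1, c2, c3, c4, c5, c6, c7, c8, c9⟩ := cT S X
  have hQ : comps (H1.ch (q + 1)) = [H1.ch q] := rfl
  have hQn : H1.ch (q + 1) ≠ .nil := ch_ne (by omega)
  have hQt : H1.ch (q + 1) △ .nil ≠ .nil △ .nil := by
    intro h
    exact hQn (H1.node_inj h).1
  have q0 : H1.ch q = .nil → q = 0 := by
    intro h
    by_contra hq
    exact ch_ne (show 1 ≤ q by omega) h
  have q1 : H1.ch q = .nil △ .nil → q = 1 := by
    intro h
    have h' : H1.ch q = H1.ch 1 := h
    exact H1.ch_inj h'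
  have Q0 : H1.ch (q + 1) = .nil △ .nil → q = 0 := by
    intro h
    have h' : H1.ch (q + 1) = H1.ch 1 := h
    have := H1.ch_inj h'
    omega
  have hRn : R ≠ .nil := ht2_ne tR
  have hSn : S' ≠ .nil := ht2_ne tS
  have hR1 : R ≠ .nil △ .nil := ht2_lp tR 1
  have hS1 : S' ≠ .nil △ .nil := ht2_lp tS 1
  have hRc := comps_ne hRn
  have hSc := comps_ne hSn
  have hsc := comps_ne hS0
  have hxc := comps_ne hX0
  obtain ⟨AR, YR, fR⟩ := List.exists_cons_of_ne_nil hRc
  obtain ⟨AS, YS, fS⟩ := List.exists_cons_of_ne_nil hSc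
  obtain ⟨Ax, Yx, fx⟩ := List.exists_cons_of_ne_nil hxc
  obtain ⟨As, Ys, fs⟩ := List.exists_cons_of_ne_nil hsc
  obtain ⟨ZR, LR, lR⟩ := last_mem hRc
  obtain ⟨ZS, LS, lS⟩ := last_mem hSc
  obtain ⟨Zx, Lx, lx⟩ := last_mem hxc
  obtain ⟨Zs, Ls, ls⟩ := last_mem hsc
  have nR := hR.nil_mem
  have nS := hS.nil_mem
  have nB := hB.nil_mem
  have oR' := hR.one_mem
  have oS' := hS.one_mem
  have oB' := hB.one_mem
  have aR0 : AR ≠ .nil := fun h => nR (by rw [fR, h]; simp)
  have aR1 : AR ≠ .nil △ .nil := fun h => oR' (by rw [fR, h]; simp)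
  have aS0 : AS ≠ .nil := fun h => nS (by rw [fS, h]; simp)
  have aS1 : AS ≠ .nil △ .nil := fun h => oS' (by rw [fS, h]; simp)
  have lR0 : LR ≠ .nil := fun h => nR (by rw [lR, h]; simp)
  have lR1 : LR ≠ .nil △ .nil := fun h => oR' (by rw [lR, h]; simp)
  have lS0 : LS ≠ .nil := fun h => nS (by rw [lS, h]; simp)
  have lS1 : LS ≠ .nil △ .nil := fun h => oS' (by rw [lS, h]; simp)
  have Bc : B = .nil ∨ (∃ A Y, comps B = A :: Y ∧ A ≠ .nil ∧ A ≠ .nil △ .nil) ∧
      (∃ Z L, comps B = Z ++ [L] ∧ L ≠ .nil ∧ L ≠ .nil △ .nil) := by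
    by_cases h0 : B = .nil
    · exact Or.inl h0
    · right
      have hc := comps_ne h0
      obtain ⟨A, Y, f⟩ := List.exists_cons_of_ne_nil hc
      obtain ⟨Z, L, l⟩ := last_mem hc
      exact ⟨⟨A, Y, f, fun h => nB (by rw [f, h]; simp), fun h => oB' (by rw [f, h]; simp)⟩,
        ⟨Z, L, l, fun h => nB (by rw [l, h]; simp), fun h => oB' (by rw [l, h]; simp)⟩⟩
  -- a prime word `(()R)` contains a part 1
  have prm : ∀ Y : BinaryTree Unit, (OddHC.cont Y).count 1 = 0 → comps Y = [.nil △ R] → False := by
    intro Y hY h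
    have h1 : Y = (.nil △ R) △ .nil := comps_inj h
    rw [h1, cont_node, cont_nil, add_zero, cont_node, cont_nil, raise_zero] at hY
    have h2 : 2 ≤ ({1} + OddHC.cont R : Multiset ℕ).sup := by
      rw [sup_add', ← ht_eq]
      omega
    rw [H1.raise_one h2, Multiset.count_add] at hY
    have h3 : ({1} : Multiset ℕ).count 1 = 1 := rfl
    omega
  -- the forms by the first, the last component and the length
  have key : ∀ l : List (BinaryTree Unit), comps (T10 S X i) = l →
      (∀ a Y, l = a :: Y → a ≠ .nil → a ≠ .nil △ .nil → ∀ Z b, l = Z ++ [b] → b ≠ .nil →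
        b ≠ .nil △ .nil → i = 2 ∨ i = 3 ∨ i = 4 ∨ i = 6) := by
    intro l hl a Y h1 h2 h3 Z b h4 h5 h6
    interval_cases i
    · rw [c0] at hl; rw [← hl] at h1; simp at h1; exact absurd h1.1.symm h3
    · rw [c1] at hl; rw [← hl] at h4; exact absurd (last_eq h4).2.symm h6
    · exact Or.inl rfl
    · exact Or.inr (Or.inl rfl)
    · exact Or.inr (Or.inr (Or.inl rfl))
    · rw [c5] at hl; rw [← hl] at h1; simp at h1; exact absurd h1.1.symm h2
    · exact Or.inr (Or.inr (Or.inr rfl))
    · rw [c7] at hl; rw [← hl] at h1; simp at h1; exact absurd h1.1.symm h2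
    · rw [c8] at hl; rw [← hl] at h4; exact absurd (last_eq h4).2.symm h5
    · rw [c9] at hl; rw [← hl] at h4
      have := last_eq (l := [S]) h4
      exact absurd this.2.symm h5
  have keyL : (i = 2 ∨ i = 3 ∨ i = 4 ∨ i = 6) → (comps (T10 S X i)).length = 1 := by
    rintro (rfl | rfl | rfl | rfl)
    · rw [c2]; rfl
    · rw [c3]; rfl
    · rw [c4]; rfl
    · rw [c6]; rfl
  have kill : ∀ l : List (BinaryTree Unit), comps (T10 S X i) = l → 2 ≤ l.length →
      (∀ a Y, l = a :: Y → a ≠ .nil → a ≠ .nil △ .nil → ∀ Z b, l = Z ++ [b] → b ≠ .nil →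
        b ≠ .nil △ .nil → False) := by
    intro l hl hlen a Y h1 h2 h3 Z b h4 h5 h6
    have h7 := keyL (key l hl a Y h1 h2 h3 Z b h4 h5 h6)
    rw [hl] at h7
    omega
  have hQ0 : H1.ch (q + 1) ≠ .nil := hQn
  -- the forms with many components
  have single : ∀ l : List (BinaryTree Unit), comps (T10 S X i) = l → 3 ≤ l.length →
      i = 0 ∨ i = 1 ∨ i = 7 ∨ i = 8 := by
    intro l hl hlen
    interval_cases i
    · exact Or.inl rfl
    · exact Or.inr (Or.inl rfl)
    · rw [c2] at hl; rw [← hl] at hlen; simp at hlen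
    · rw [c3] at hl; rw [← hl] at hlen; simp at hlen
    · rw [c4] at hl; rw [← hl] at hlen; simp at hlen
    · rw [c5] at hl; rw [← hl] at hlen; simp at hlen
    · rw [c6] at hl; rw [← hl] at hlen; simp at hlen
    · exact Or.inr (Or.inr (Or.inl rfl))
    · exact Or.inr (Or.inr (Or.inr rfl))
    · rw [c9] at hl; rw [← hl] at hlen; simp at hlen
  -- `()` as a component which is neither the first nor the last one
  have mid : ∀ (a b : BinaryTree Unit) (l : List (BinaryTree Unit)),
      comps (T10 S X i) = a :: (l ++ [b]) → .nil ∈ l → False := by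
    intro a b l hl hm
    obtain ⟨x, y, l', hl'⟩ : ∃ x y l', l ++ [b] = x :: y :: l' := by
      cases l with
      | nil => simp at hm
      | cons x l =>
        cases l with
        | nil => exact ⟨x, b, [], rfl⟩
        | cons y l => exact ⟨x, y, l ++ [b], rfl⟩
    rcases single _ hl (by rw [hl']; simp) with rfl | rfl | rfl | rfl
    · rw [c0, List.cons.injEq] at hl
      exact oS (by rw [hl.2]; simp [hm])
    · rw [c1] at hl
      have := last_eq (l' := a :: l) hl
      exact oS (by rw [this.1]; simp [hm])
    · rw [c7, List.cons.injEq] at hl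
      exact oX (by rw [hl.2]; simp [hm])
    · rw [c8] at hl
      have := last_eq (l' := a :: l) hl
      exact oX (by rw [this.1]; simp [hm])
  interval_cases j
  · -- 0
    have e' : comps (T10 S X i) = comps R ++ [H1.ch (q + 1) △ .nil] := by
      rw [e]; change comps (app R _) = _; rw [comps_app]; rfl
    exact (kill _ e' (by rw [fR]; simp) AR (YR ++ [H1.ch (q + 1) △ .nil]) (by rw [fR]; rfl) aR0 aR1
      (comps R) _ rfl (by simp) hQt).elim
  · -- 1
    have e' : comps (T10 S X i) = comps R ++ [.nil, H1.ch q, .nil] := by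
      rw [e]; change comps (app R _) = _; rw [comps_app]; rfl
    exact (mid AR .nil (YR ++ [.nil, H1.ch q]) (by rw [e', fR]; simp) (by simp)).elim
  · -- 2
    have e' : comps (T10 S X i) = .nil :: (comps R ++ [.nil, H1.ch q]) := by
      rw [e]; change comps (.nil △ app R _) = _; rw [comps_node, comps_app]; rfl
    exact (mid .nil (H1.ch q) (comps R ++ [.nil]) (by rw [e']; simp) (by simp)).elim
  · -- 3
    have e' : comps (T10 S X i) = [app R (.nil △ H1.ch (q + 1))] := by
      rw [e]; rfl
    have e1 : comps (app R (.nil △ H1.ch (q + 1))) = comps R ++ [.nil, H1.ch q] := by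
      rw [comps_app]; rfl
    interval_cases i
    · rw [c0, fs] at e'; simp at e'
    · rw [c1, fs] at e'; simp at e'
    · rw [c2] at e'; simp only [List.cons.injEq, and_true] at e'
      have h1 := congrArg comps e'
      rw [e1, comps_app] at h1
      have h2 := last_eq (l := comps S) (l' := comps R ++ [.nil]) (b := H1.ch q) (h1.trans (by simp))
      exact absurd (by rw [h2.1]; simp) oS
    · rw [c3] at e'; simp only [List.cons.injEq, and_true] at e'
      have h1 := congrArg comps e'
      rw [e1, comps_node, fR] at h1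
      simp [comps] at h1
    · rw [c4] at e'; simp only [List.cons.injEq, and_true] at e'
      have h1 := congrArg comps e'
      rw [e1, comps_node, fR] at h1
      simp only [List.cons_append, List.cons.injEq] at h1
      exact absurd h1.1.symm aR0
    · rw [c5] at e'; simp at e'
    · rw [c6] at e'; simp only [List.cons.injEq, and_true] at e'
      exact absurd (by rw [e', e1]; simp) oX
    · rw [c7, fx] at e'; simp at e'
    · rw [c8, fx] at e'; simp at e'
    · rw [c9] at e'; simp at e'
  · -- 4
    have e' : comps (T10 S X i) = app (H1.ch (q + 1)) (.nil △ .nil) :: comps R := by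
      rw [e]; rfl
    exact (kill _ e' (by rw [fR]; simp) _ _ rfl (by
        intro h
        have := congrArg comps h
        rw [comps_app, hQ] at this
        simp [comps] at this) (by
        intro h
        have := congrArg comps h
        rw [comps_app, hQ] at this
        simp [comps] at this)
      (app (H1.ch (q + 1)) (.nil △ .nil) :: ZR) LR (by rw [lR]; rfl) lR0 lR1).elim
  · -- 5
    have e' : comps (T10 S X i) = H1.ch (q + 1) :: .nil :: comps R := by
      rw [e]; rfl
    exact (mid (H1.ch (q + 1)) LR (.nil :: ZR) (by rw [e', lR]; rfl) (by simp)).elim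
  · -- 6
    have e' : comps (T10 S X i) = [R, H1.ch (q + 1)] := by
      rw [e]; rfl
    interval_cases i
    · rw [c0] at e'; simp only [List.cons.injEq] at e'; exact absurd e'.1.symm hR1
    · rw [c1] at e'
      have := last_eq (l' := [R]) e'
      exact Or.inl ⟨Q0 this.2.symm, Or.inl (comps_inj this.1)⟩
    · rw [c2] at e'; simp at e'
    · rw [c3] at e'; simp at e'
    · rw [c4] at e'; simp at e'
    · rw [c5] at e'; simp only [List.cons.injEq] at e'; exact absurd e'.1.symm hRn
    · rw [c6] at e'; simp at e'
    · rw [c7] at e'; simp only [List.cons.injEq] at e'; exact absurd e'.1.symm hRn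
    · rw [c8] at e'
      have := last_eq (l' := [R]) e'
      exact absurd this.2.symm hQn
    · rw [c9] at e'; simp only [List.cons.injEq, and_true] at e'; exact absurd e'.2.symm hQn
  · -- 7
    have e' : comps (T10 S X i) = [H1.ch q, .nil △ R] := by
      rw [e]; change comps (app _ _) = _; rw [comps_app]; rfl
    interval_cases i
    · rw [c0] at e'; simp only [List.cons.injEq] at e'
      exact (prm S cS e'.2).elim
    · rw [c1] at e'
      have := last_eq (l' := [H1.ch q]) e'
      exact absurd (H1.node_inj this.2).2.symm hRn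
    · rw [c2] at e'; simp at e'
    · rw [c3] at e'; simp at e'
    · rw [c4] at e'; simp at e'
    · rw [c5] at e'; simp only [List.cons.injEq, and_true] at e'
      exfalso
      rw [e'.2] at cS
      exact prm ((.nil △ R) △ .nil) (by
        rw [cont_node, cont_nil, add_zero, H1.raise_one (by
          rw [cont_node, sup_add', ← ht_eq]; omega)]
        exact cS) rfl
    · rw [c6] at e'; simp at e'
    · rw [c7] at e'; simp only [List.cons.injEq] at e'
      exact (prm X cX e'.2).elim
    · rw [c8] at e'
      have := last_eq (l' := [H1.ch q]) e'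
      simp at this
    · rw [c9] at e'; simp at e'
  · -- 8
    have e' : comps (T10 S X i) = [H1.ch q, .nil, R] := by
      rw [e]; change comps (app _ _) = _; rw [comps_app]; rfl
    exact (mid (H1.ch q) R [.nil] (by rw [e']; rfl) (by simp)).elim
  · -- 9
    have e' : comps (T10 S X i) = [R △ .nil, H1.ch q] := by
      rw [e]; rfl
    have hR2 : R △ .nil ≠ .nil △ .nil := fun h => hRn (H1.node_inj h).1
    interval_cases i
    · rw [c0] at e'; simp only [List.cons.injEq] at e'; exact absurd e'.1.symm hR2
    · rw [c1] at e'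
      have := last_eq (l' := [R △ .nil]) e'
      exact Or.inr ⟨q1 this.2.symm, Or.inl (comps_inj this.1)⟩
    · rw [c2] at e'; simp at e'
    · rw [c3] at e'; simp at e'
    · rw [c4] at e'; simp at e'
    · rw [c5] at e'; simp at e'
    · rw [c6] at e'; simp at e'
    · rw [c7] at e'; simp at e'
    · rw [c8] at e'
      have := last_eq (l' := [R △ .nil]) e'
      exact Or.inl ⟨q0 this.2.symm, Or.inr (Or.inr (Or.inr (Or.inl (comps_inj this.1))))⟩
    · rw [c9] at e'; simp only [List.cons.injEq, and_true] at e'
      exact Or.inl ⟨q0 e'.2.symm, Or.inl e'.1⟩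
  · -- 10
    have e' : comps (T10 S X i) = comps B ++ (H1.ch (q + 1) △ .nil) :: comps S' := by
      rw [e]; change comps (app B _) = _; rw [comps_app]; rfl
    have hl : comps B ++ (H1.ch (q + 1) △ .nil) :: comps S' =
        (comps B ++ (H1.ch (q + 1) △ .nil) :: ZS) ++ [LS] := by rw [lS]; simp
    have hlen : 2 ≤ (comps B ++ (H1.ch (q + 1) △ .nil) :: comps S').length := by
      rw [fS]; simp; omega
    rcases Bc with rfl | ⟨⟨A, Y, f, f0, f1⟩, _⟩
    · exact (kill _ e' hlen _ _ rfl (by simp) hQt _ _ hl lS0 lS1).elim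
    · exact (kill _ e' hlen A (Y ++ (H1.ch (q + 1) △ .nil) :: comps S') (by rw [f]; rfl) f0 f1
        _ _ hl lS0 lS1).elim
  · -- 11
    have e' : comps (T10 S X i) = comps B ++ .nil :: H1.ch q :: .nil :: comps S' := by
      rw [e]; change comps (app B _) = _; rw [comps_app]; rfl
    cases hB' : comps B with
    | nil =>
      exact (mid .nil LS (H1.ch q :: .nil :: ZS) (by rw [e', hB', lS]; simp) (by simp)).elim
    | cons A Y =>
      exact (mid A LS (Y ++ .nil :: H1.ch q :: .nil :: ZS) (by rw [e', hB', lS]; simp)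
        (by simp)).elim
  · -- 12
    have e' : comps (T10 S X i) = S' :: (comps B ++ [.nil] ++ [H1.ch q]) := by
      rw [e]; change comps (S' △ app B _) = _; rw [comps_node, comps_app]; simp [comps, hQ]
    exact (mid S' (H1.ch q) (comps B ++ [.nil]) e' (by simp)).elim
  · -- 13
    have e' : comps (T10 S X i) = comps S' ++ [app B (.nil △ H1.ch (q + 1))] := by
      rw [e]; change comps (app S' _) = _; rw [comps_app]; rfl
    have hx : comps (app B (.nil △ H1.ch (q + 1))) = comps B ++ [.nil, H1.ch q] := by
      rw [comps_app]; rfl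
    exact (kill _ e' (by rw [fS]; simp) AS (YS ++ [app B (.nil △ H1.ch (q + 1))])
      (by rw [fS]; rfl) aS0 aS1 (comps S') _ rfl
      (by
        intro h
        have := congrArg (fun t => (comps t).length) h
        simp only [hx] at this
        simp [comps] at this)
      (by
        intro h
        have := congrArg (fun t => (comps t).length) h
        simp only [hx] at this
        simp [comps] at this)).elim
  · -- 14
    have e' : comps (T10 S X i) = app (H1.ch (q + 1)) (.nil △ S') :: comps B := by
      rw [e]; rfl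
    have hx : comps (app (H1.ch (q + 1)) (.nil △ S')) = H1.ch q :: .nil :: comps S' := by
      rw [comps_app]; rfl
    rcases Bc with rfl | ⟨_, ⟨Z, L, l, l0, l1⟩⟩
    · have e'' : comps (T10 S X i) = [app (H1.ch (q + 1)) (.nil △ S')] := e'
      interval_cases i
      · rw [c0, fs] at e''; simp at e''
      · rw [c1, fs] at e''; simp at e''
      · rw [c2] at e''; simp only [List.cons.injEq, and_true] at e''
        have h1 := congrArg comps e''
        rw [hx, comps_app, lS] at h1
        have h2 := last_eq (l := comps S) (l' := H1.ch q :: .nil :: ZS) (b := LS) (h1.trans (by simp))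
        exact absurd h2.2.symm lS0
      · rw [c3] at e''; simp only [List.cons.injEq, and_true] at e''
        have h1 := congrArg comps e''
        rw [hx, comps_node] at h1
        simp [comps] at h1
      · rw [c4] at e''; simp only [List.cons.injEq, and_true] at e''
        have h1 := congrArg comps e''
        rw [hx, comps_node] at h1
        simp only [List.cons.injEq] at h1
        exact absurd (by rw [h1.2]; simp) oS
      · rw [c5] at e''; simp at e''
      · rw [c6] at e''; simp only [List.cons.injEq, and_true] at e''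
        exact absurd (by rw [e'', hx]; simp) oX
      · rw [c7, fx] at e''; simp at e''
      · rw [c8, fx] at e''; simp at e''
      · rw [c9] at e''; simp at e''
    · exact (kill _ e' (by rw [l]; simp) _ _ rfl (by
          intro h
          have := congrArg comps h
          rw [hx] at this
          simp [comps] at this) (by
          intro h
          have := congrArg comps h
          rw [hx] at this
          simp [comps] at this) (app (H1.ch (q + 1)) (.nil △ S') :: Z) L (by rw [l]; rfl) l0 l1).elim
  · -- 15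
    have e' : comps (T10 S X i) = H1.ch (q + 1) :: S' :: comps B := by
      rw [e]; rfl
    obtain ⟨Z, L, hL, hL0, hL1⟩ : ∃ Z L, H1.ch (q + 1) :: S' :: comps B = Z ++ [L] ∧ L ≠ .nil ∧
        L ≠ .nil △ .nil := by
      rcases Bc with rfl | ⟨_, ⟨Z, L, l, l0, l1⟩⟩
      · exact ⟨[H1.ch (q + 1)], S', rfl, hSn, hS1⟩
      · exact ⟨H1.ch (q + 1) :: S' :: Z, L, by rw [l]; rfl, l0, l1⟩
    by_cases hq : q = 0
    · interval_cases i
      · rw [c0] at e'; simp only [List.cons.injEq] at e'
        exact Or.inl ⟨hq, Or.inr (Or.inl (comps_inj e'.2))⟩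
      · rw [c1] at e'
        rw [hL] at e'
        exact absurd (last_eq e').2.symm hL1
      · rw [c2] at e'; simp at e'
      · rw [c3] at e'; simp at e'
      · rw [c4] at e'; simp at e'
      · rw [c5] at e'; simp only [List.cons.injEq] at e'; exact absurd e'.1.symm hQn
      · rw [c6] at e'; simp at e'
      · rw [c7] at e'; simp only [List.cons.injEq] at e'; exact absurd e'.1.symm hQn
      · rw [c8] at e'
        rw [hL] at e'
        exact absurd (last_eq e').2.symm hL0
      · rw [c9] at e'
        rw [hL] at e'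
        exact absurd (last_eq (l := [S]) e').2.symm hL0
    · exact (kill _ e' (by simp) _ _ rfl hQn (fun h => hq (Q0 h)) _ _ hL hL0 hL1).elim
  · -- 16
    have e' : comps (T10 S X i) = comps S' ++ [B, H1.ch (q + 1)] := by
      rw [e]; change comps (app S' _) = _; rw [comps_app]; rfl
    have e2 : comps S' ++ [B, H1.ch (q + 1)] = (comps S' ++ [B]) ++ [H1.ch (q + 1)] := by simp
    by_cases hq : q = 0
    · rcases single _ e' (by rw [fS]; simp) with rfl | rfl | rfl | rfl
      · rw [c0, fS] at e'; simp at e'; exact absurd e'.1.symm aS1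
      · rw [c1, e2] at e'
        refine Or.inl ⟨hq, Or.inr (Or.inr (Or.inl (comps_inj ?_)))⟩
        rw [(last_eq e').1, comps_app]
        rfl
      · rw [c7, fS] at e'; simp at e'; exact absurd e'.1.symm aS0
      · rw [c8, e2] at e'
        exact absurd (last_eq e').2.symm hQn
    · exact (kill _ e' (by rw [fS]; simp) AS (YS ++ [B, H1.ch (q + 1)]) (by rw [fS]; rfl) aS0 aS1
        _ _ e2 hQn (fun h => hq (Q0 h))).elim
  · -- 17
    have e' : comps (T10 S X i) = [H1.ch q, S' △ B] := by
      rw [e]; change comps (app _ _) = _; rw [comps_app]; rfl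
    have hx1 : S' △ B ≠ .nil △ .nil := fun h => hSn (H1.node_inj h).1
    interval_cases i
    · rw [c0] at e'; simp only [List.cons.injEq] at e'
      exact Or.inr ⟨q1 e'.1.symm, Or.inr (Or.inl (comps_inj e'.2))⟩
    · rw [c1] at e'
      exact absurd (last_eq (l' := [H1.ch q]) e').2.symm hx1
    · rw [c2] at e'; simp at e'
    · rw [c3] at e'; simp at e'
    · rw [c4] at e'; simp at e'
    · rw [c5] at e'; simp only [List.cons.injEq, and_true] at e'
      exact Or.inl ⟨q0 e'.1.symm, Or.inr (Or.inl e'.2)⟩
    · rw [c6] at e'; simp at e'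
    · rw [c7] at e'; simp only [List.cons.injEq] at e'
      exact Or.inl ⟨q0 e'.1.symm, Or.inr (Or.inr (Or.inr (Or.inr (Or.inl (comps_inj e'.2)))))⟩
    · rw [c8] at e'
      exact absurd (last_eq (l' := [H1.ch q]) e').2.symm (by simp)
    · rw [c9] at e'; simp at e'
  · -- 18
    have e' : comps (T10 S X i) = H1.ch q :: (.nil :: comps S' ++ [B]) := by
      rw [e]; change comps (app (H1.ch (q + 1)) (.nil △ app S' _)) = _
      rw [comps_app, comps_node, comps_app, hQ]; rfl
    exact (mid (H1.ch q) B (.nil :: comps S') e' (by simp)).elim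
  · -- 19
    have e' : comps (T10 S X i) = [app S' (B △ .nil), H1.ch q] := by
      rw [e]; rfl
    have hx : comps (app S' (B △ .nil)) = comps S' ++ [B] := by rw [comps_app]; rfl
    have hx0 : app S' (B △ .nil) ≠ .nil := by
      intro h
      have := congrArg comps h
      rw [hx] at this
      simp [comps] at this
    have hx1 : app S' (B △ .nil) ≠ .nil △ .nil := by
      intro h
      have := congrArg (fun t => (comps t).length) h
      simp only [hx, fS] at this
      simp [comps] at this
    interval_cases i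
    · rw [c0] at e'; simp only [List.cons.injEq] at e'
      exact absurd e'.1.symm hx1
    · rw [c1] at e'
      have := last_eq (l' := [app S' (B △ .nil)]) e'
      exact Or.inr ⟨q1 this.2.symm, Or.inr (Or.inr (comps_inj this.1))⟩
    · rw [c2] at e'; simp at e'
    · rw [c3] at e'; simp at e'
    · rw [c4] at e'; simp at e'
    · rw [c5] at e'; simp only [List.cons.injEq] at e'
      exact absurd e'.1.symm hx0
    · rw [c6] at e'; simp at e'
    · rw [c7] at e'; simp only [List.cons.injEq] at e'
      exact absurd e'.1.symm hx0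
    · rw [c8] at e'
      have := last_eq (l' := [app S' (B △ .nil)]) e'
      exact Or.inl ⟨q0 this.2.symm, Or.inr (Or.inr (Or.inr (Or.inr (Or.inr (comps_inj this.1)))))⟩
    · rw [c9] at e'; simp only [List.cons.injEq, and_true] at e'
      exact Or.inl ⟨q0 e'.2.symm, Or.inr (Or.inr (Or.inl e'.1))⟩

end MV

end Pool.OddHC
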