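import Pool.Agent.Work.MP_8f87b2_h16.MVJ
import Pool.Agent.Work.MP_8f87b2_h16.MVB
import Pool.Agent.Work.MP_8f87b2_h13.TyR3
import Pool.Agent.Work.MP_8f87b2_h60.TyB0

/-!
# JVm = `Is9M nil nil Z` against the bare windows R3, S3 (right), A0, B0 (mirrored), words (helper16)

General `Z`: side condition `not Cb`. If `Z` has a part 2: no common word.
-/

set_option autoImplicit false
set_option linter.unusedSimpArgs false
set_option linter.unusedVariables false

namespace Pool.OddHC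

open Finset Equiv BinaryTree Pool.Agent.Work.MP_8f87b2_co

variable {k q : ℕ} {Z R B S : BinaryTree Unit} {F F' : Set (Cyc k)} {g g' : DG k}

namespace MV

variable {X : BinaryTree Unit}

/-- all parts at least 3 -/
def Big3 (t : BinaryTree Unit) : Prop := ∀ x ∈ cont t, 3 ≤ x

theorem Big3.prime (h : Big3 R) (hn : R ≠ .nil) : Big3 (R △ .nil) := by
  intro x hx
  rw [cont_node, cont_nil, add_zero] at hx
  unfold raise at hx
  rcases Multiset.mem_cons.1 hx with e | e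
  · have := h _ (sup_mem (fun h0 => hn (cont_eq_zero.1 h0)))
    omega
  · exact h x (Multiset.mem_of_mem_erase e)

theorem Big3.ap (h : Big3 R) (h' : Big3 S) : Big3 (app R S) := by
  intro x hx
  rw [cont_app, Multiset.mem_add] at hx
  rcases hx with e | e
  · exact h x e
  · exact h' x e

theorem Big3.nil : Big3 .nil := by
  intro x hx
  rw [cont_nil] at hx
  simp at hx

theorem Big3.node (h : Big3 R) (hn : R ≠ .nil) (h' : Big3 S) : Big3 (R △ S) :=
  (h.prime hn).ap h'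

/-- `S(nil) = S()` has a part 1 -/
theorem one_app (S : BinaryTree Unit) : (cont (app S (.nil △ .nil))).count 1 ≠ 0 := by
  rw [cont_app, cont_pp, Multiset.count_add]
  simp

theorem one_app' (S : BinaryTree Unit) : (cont (app S (.nil △ .nil) △ .nil)).count 1 ≠ 0 ∨ S = .nil := by
  by_cases hS : S = .nil
  · exact Or.inr hS
  · left
    intro h
    rw [cont_node, cont_nil, add_zero] at h
    rcases J3.cnt_inner (A := app S (.nil △ .nil)) (C := .nil) (by
      rw [cont_node, cont_nil, add_zero]; exact h) with e | e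
    · exact hS (H1.app_snoc (P' := .nil) e).1
    · exact one_app S e

/-- in every collision `Z` or `X` is a bare word -/
theorem Cb.big (h : Cb q R B S Z X) (hR : Big3 R) (hB : Big3 B) (hS : Big3 S) (nR : R ≠ .nil)
    (nS : S ≠ .nil) (h1 : (cont Z).count 1 = 0) (h2 : (cont X).count 1 = 0) : Big3 Z ∨ Big3 X := by
  have hSB : Big3 (S △ B) := hS.node nS hB
  have sb : (cont (app S (B △ .nil))).count 1 = 0 →
      Big3 (app S (B △ .nil)) := by
    intro h
    by_cases hn : B = .nil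
    · subst hn
      exact absurd h (one_app S)
    · exact hS.ap (hB.prime hn)
  have sb' : (cont (app S (B △ .nil) △ .nil)).count 1 = 0 →
      Big3 (app S (B △ .nil) △ .nil) := by
    intro h
    by_cases hn : B = .nil
    · subst hn
      rcases one_app' S with h' | h'
      · exact absurd h h'
      · exact absurd h' nS
    · exact (hS.ap (hB.prime hn)).prime (H1.app_ne (by simp))
  rcases h with ⟨-, rfl | rfl | rfl | rfl | rfl | rfl⟩ | ⟨-, rfl | rfl | rfl⟩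
  · exact Or.inl (hR.prime nR)
  · exact Or.inl hSB
  · exact Or.inl (sb h1)
  · exact Or.inr ((hR.prime nR).prime (by simp))
  · exact Or.inr (hSB.prime (by simp))
  · exact Or.inr (sb' h2)
  · exact Or.inl ((hR.prime nR).prime (by simp))
  · exact Or.inl (hSB.prime (by simp))
  · exact Or.inl (sb' h1)

/-- a right bare window -/
theorem nodeR (h : HM.NodeM k q R B S) (m : MF Z X) {i j : ℕ} (hi : i < 9) (hj : j < 20)
    (e : W Z X i = H1.W R (H1.ch (q + 1)) B S j) : Cb q R B S Z X := by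
  have hB : Big3 B := fun x hx => by
    have := h.part x (by rw [← h.eq]; exact Multiset.mem_add.2 (Or.inl hx))
    omega
  have hS : Big3 S := fun x hx => by
    have := h.part x (by rw [← h.eq]; exact Multiset.mem_add.2 (Or.inr hx))
    omega
  have hR : Big3 R := fun x hx => by
    have := h.part x hx
    omega
  have htS : ht S = ht R := by
    have := (ht_sq h.ne).1
    rwa [h.sq] at this
  have top := h.top
  exact bare m.oS m.oX m.Sne m.Xne (Hf.of hR) (Hf.of hB) (Hf.of hS) (by omega) (by omega)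
    (by omega : i < 10) hj ((W_T10 Z X hi).symm.trans e)

/-- the mirrored word numbers -/
def pm (i : ℕ) : ℕ := [1, 0, 4, 3, 2, 9, 6, 8, 7].getD i 0

theorem mir_W9 (Z X : BinaryTree Unit) {i : ℕ} (hi : i < 9) :
    Tsq.mir (W Z X i) = T10 (Tsq.mir Z) (Tsq.mir X) (pm i) := by
  have h0 : Tsq.mir (BinaryTree.nil : BinaryTree Unit) = .nil := rfl
  have hn : ∀ A : BinaryTree Unit, Tsq.mir (A △ .nil) = Tsq.mir A △ .nil := fun A => by
    rw [Tsq.mir_node, h0]; rfl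
  interval_cases i
  · change Tsq.mir ((.nil △ .nil) △ Z) = app (Tsq.mir Z) ((.nil △ .nil) △ .nil)
    rw [Tsq.mir_node, hn, h0]
  · change Tsq.mir (app Z ((.nil △ .nil) △ .nil)) = (.nil △ .nil) △ Tsq.mir Z
    rw [Tsq.mir_app, hn, hn, h0]; rfl
  · change Tsq.mir (app Z (.nil △ .nil) △ .nil) = (.nil △ Tsq.mir Z) △ .nil
    rw [hn, Tsq.mir_app, hn, h0]; rfl
  · change Tsq.mir ((Z △ .nil) △ .nil) = (Tsq.mir Z △ .nil) △ .nil
    rw [hn, hn]
  · change Tsq.mir ((.nil △ Z) △ .nil) = app (Tsq.mir Z) (.nil △ .nil) △ .nil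
    rw [hn, Tsq.mir_node, h0]
  · change Tsq.mir (.nil △ (Z △ .nil)) = Tsq.mir Z △ (.nil △ .nil)
    rw [Tsq.mir_node, hn, h0]; rfl
  · change Tsq.mir (X △ .nil) = Tsq.mir X △ .nil
    rw [hn]
  · change Tsq.mir (.nil △ X) = app (Tsq.mir X) (.nil △ .nil)
    rw [Tsq.mir_node, h0]
  · change Tsq.mir (app X (.nil △ .nil)) = .nil △ Tsq.mir X
    rw [Tsq.mir_app, hn, h0]; rfl

theorem pm_lt {i : ℕ} (hi : i < 9) : pm i < 10 := by interval_cases i <;> decide

/-- a mirrored bare window -/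
theorem nodeL (h : HM.NodeM k q R B S) (m : MF Z X) {i j : ℕ} (hi : i < 9) (hj : j < 20)
    (e : W Z X i = Tsq.mir (H1.W R (H1.ch (q + 1)) B S j)) :
    Cb q R B S (Tsq.mir Z) (Tsq.mir X) := by
  have hB : Big3 B := fun x hx => by
    have := h.part x (by rw [← h.eq]; exact Multiset.mem_add.2 (Or.inl hx))
    omega
  have hS : Big3 S := fun x hx => by
    have := h.part x (by rw [← h.eq]; exact Multiset.mem_add.2 (Or.inr hx))
    omega
  have hR : Big3 R := fun x hx => by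
    have := h.part x hx
    omega
  have htS : ht S = ht R := by
    have := (ht_sq h.ne).1
    rwa [h.sq] at this
  have top := h.top
  have e' : T10 (Tsq.mir Z) (Tsq.mir X) (pm i) = H1.W R (H1.ch (q + 1)) B S j := by
    rw [← mir_W9 Z X hi, e, Tsq.mir_mir]
  exact bare (by rw [cont_mir9]; exact m.oS) (by rw [cont_mir9]; exact m.oX) (mir_ne m.Sne)
    (mir_ne m.Xne) (Hf.of hR) (Hf.of hB) (Hf.of hS) (by omega) (by omega) (pm_lt hi) hj e'

/-- a part 2 in `Z` -/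
theorem nCb (h : HM.NodeM k q R B S) (m : MF Z (xTM Z)) (h2 : 2 ∈ cont Z) :
    ¬ Cb q R B S Z (xTM Z) := by
  intro c
  have hB : Big3 B := fun x hx => by
    have := h.part x (by rw [← h.eq]; exact Multiset.mem_add.2 (Or.inl hx))
    omega
  have hS : Big3 S := fun x hx => by
    have := h.part x (by rw [← h.eq]; exact Multiset.mem_add.2 (Or.inr hx))
    omega
  have hR : Big3 R := fun x hx => by
    have := h.part x hx
    omega
  have nS : S ≠ .nil := by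
    have := Tsq.sq_ne h.ne
    rwa [h.sq] at this
  have h3 := m.hS
  have h2' : 2 ∈ cont (xTM Z) := (mem_X h3 (by omega)).2 h2
  rcases c.big hR hB hS h.ne nS m.oS m.oX with h4 | h4
  · have := h4 2 h2
    omega
  · have := h4 2 h2'
    omega

theorem nCb' (h : HM.NodeM k q R B S) (m : MF Z (xTM Z)) (h2 : 2 ∈ cont Z) :
    ¬ Cb q R B S (Tsq.mir Z) (Tsq.mir (xTM Z)) := by
  intro c
  have hB : Big3 B := fun x hx => by
    have := h.part x (by rw [← h.eq]; exact Multiset.mem_add.2 (Or.inl hx))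
    omega
  have hS : Big3 S := fun x hx => by
    have := h.part x (by rw [← h.eq]; exact Multiset.mem_add.2 (Or.inr hx))
    omega
  have hR : Big3 R := fun x hx => by
    have := h.part x hx
    omega
  have nS : S ≠ .nil := by
    have := Tsq.sq_ne h.ne
    rwa [h.sq] at this
  have h3 := m.hS
  have h2' : 2 ∈ cont (xTM Z) := (mem_X h3 (by omega)).2 h2
  rcases c.big hR hB hS h.ne nS (by rw [cont_mir9]; exact m.oS) (by rw [cont_mir9]; exact m.oX)
    with h4 | h4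
  · have := h4 2 (by rw [cont_mir9]; exact h2)
    omega
  · have := h4 2 (by rw [cont_mir9]; exact h2')
    omega

end MV

/-- **R3 against JVm**, words -/
theorem TyR3.dis_JVm (h : TyR3 F' g') (h9 : Is9M .nil .nil Z F g) (h3 : 3 ≤ ht Z)
    (h1 : (cont Z).count 1 = 0) (hx : ∀ R B S w0, HM.NodeM k 0 R B S →
      g' = gad20 (H1.wX R B S 0 w0) → ¬ MV.Cb 0 R B S Z (xTM Z)) : ∀ w ∈ g.B, w ∉ g'.B := by
  obtain ⟨R, B, S, w0, h4, -, -, -, rfl, rfl⟩ := h
  intro w hw hw'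
  obtain ⟨i, hi, e, -⟩ := MV.words h9 w hw
  obtain ⟨j, hj, rfl⟩ := mem_gad20.1 hw'
  rw [H1.wX_eq h4.dat h4.size w0 hj] at e
  exact hx R B S w0 h4 rfl (MV.nodeR h4 (MV.MF.of h3 h1) hi hj e.symm)

theorem TyR3.dis_JVm2 (h : TyR3 F' g') (h9 : Is9M .nil .nil Z F g) (h3 : 3 ≤ ht Z)
    (h1 : (cont Z).count 1 = 0) (h2 : 2 ∈ cont Z) : ∀ w ∈ g.B, w ∉ g'.B :=
  h.dis_JVm h9 h3 h1 fun _ _ _ _ h4 _ => MV.nCb h4 (MV.MF.of h3 h1) h2

/-- **S3 against JVm**, words -/
theorem TyS3.dis_JVm (h : TyS3 F' g') (h9 : Is9M .nil .nil Z F g) (h3 : 3 ≤ ht Z)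
    (h1 : (cont Z).count 1 = 0) (hx : ∀ R B S w0, HM.NodeM k 0 R B S →
      g' = gadS (H1.wX R B S 0 w0) → ¬ MV.Cb 0 R B S Z (xTM Z)) : ∀ w ∈ g.B, w ∉ g'.B := by
  obtain ⟨R, B, S, w0, h4, -, -, -, -, rfl, rfl⟩ := h
  intro w hw hw'
  obtain ⟨i, hi, e, -⟩ := MV.words h9 w hw
  obtain ⟨j, hj, -, rfl⟩ := memR_gadS.1 hw'
  rw [H1.wX_eq h4.dat h4.size w0 hj] at e
  exact hx R B S w0 h4 rfl (MV.nodeR h4 (MV.MF.of h3 h1) hi hj e.symm)

theorem TyS3.dis_JVm2 (h : TyS3 F' g') (h9 : Is9M .nil .nil Z F g) (h3 : 3 ≤ ht Z)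
    (h1 : (cont Z).count 1 = 0) (h2 : 2 ∈ cont Z) : ∀ w ∈ g.B, w ∉ g'.B :=
  h.dis_JVm h9 h3 h1 fun _ _ _ _ h4 _ => MV.nCb h4 (MV.MF.of h3 h1) h2

theorem mX_W (h : HM.NodeM k q R B S) (w0 : X k) {j : ℕ} (hj : j < 20) :
    (HM.mX R B S q w0 j).1 = Tsq.mir (H1.W R (H1.ch (q + 1)) B S j) := by
  change Tsq.mir (H1.wX R B S q w0 j).1 = _
  rw [H1.wX_eq h.dat h.size w0 hj]

/-- **A0 against JVm**, words -/
theorem TyA0.dis_JVm (h : TyA0 F' g') (h9 : Is9M .nil .nil Z F g) (h3 : 3 ≤ ht Z)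
    (h1 : (cont Z).count 1 = 0) (hx : ∀ q R B S w0, HM.NodeM k q R B S →
      g' = gad20M (HM.mX R B S q w0) → ¬ MV.Cb q R B S (Tsq.mir Z) (Tsq.mir (xTM Z))) :
    ∀ w ∈ g.B, w ∉ g'.B := by
  obtain ⟨q, R, B, S, w0, h4, -, rfl, rfl⟩ := h
  intro w hw hw'
  obtain ⟨i, hi, e, -⟩ := MV.words h9 w hw
  obtain ⟨j, hj, rfl⟩ := mem_gad20M.1 hw'
  rw [mX_W h4 w0 hj] at e
  exact hx q R B S w0 h4 rfl (MV.nodeL h4 (MV.MF.of h3 h1) hi hj e.symm)

theorem TyA0.dis_JVm2 (h : TyA0 F' g') (h9 : Is9M .nil .nil Z F g) (h3 : 3 ≤ ht Z)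
    (h1 : (cont Z).count 1 = 0) (h2 : 2 ∈ cont Z) : ∀ w ∈ g.B, w ∉ g'.B :=
  TyA0.dis_JVm h h9 h3 h1 fun _ _ _ _ _ h4 _ => MV.nCb' h4 (MV.MF.of h3 h1) h2

/-- **B0 against JVm**, words -/
theorem TyB0.dis_JVm (h : TyB0 F' g') (h9 : Is9M .nil .nil Z F g) (h3 : 3 ≤ ht Z)
    (h1 : (cont Z).count 1 = 0) (hx : ∀ q R B S w0, HM.NodeM k q R B S →
      g' = gadSM (HM.mX R B S q w0) → ¬ MV.Cb q R B S (Tsq.mir Z) (Tsq.mir (xTM Z))) :
    ∀ w ∈ g.B, w ∉ g'.B := by
  obtain ⟨q, R, B, S, w0, h4, -, -, -, rfl, rfl⟩ := h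
  intro w hw hw'
  obtain ⟨i, hi, e, -⟩ := MV.words h9 w hw
  obtain ⟨j, hj, -, rfl⟩ := mem_gadSM.1 hw'
  rw [mX_W h4 w0 hj] at e
  exact hx q R B S w0 h4 rfl (MV.nodeL h4 (MV.MF.of h3 h1) hi hj e.symm)

theorem TyB0.dis_JVm2 (h : TyB0 F' g') (h9 : Is9M .nil .nil Z F g) (h3 : 3 ≤ ht Z)
    (h1 : (cont Z).count 1 = 0) (h2 : 2 ∈ cont Z) : ∀ w ∈ g.B, w ∉ g'.B :=
  TyB0.dis_JVm h h9 h3 h1 fun _ _ _ _ _ h4 _ => MV.nCb' h4 (MV.MF.of h3 h1) h2

end Pool.OddHC
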