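import Pool.Agent.Work.MP_8f87b2_h16.MVA
import Pool.Agent.Work.MP_8f87b2_h22.JT

/-!
# JVm = `Is9M nil nil Z` against T (helper16)
-/

set_option autoImplicit false

namespace Pool.OddHC

open Finset Equiv BinaryTree Pool.Agent.Work.MP_8f87b2_co

namespace MV

variable {k : ℕ} {S : BinaryTree Unit} {F F' : Set (Cyc k)} {g g' : DG k}

/-- **T against JVm**, words -/
theorem dis_T (h : Is9M .nil .nil S F g) (hS : 3 ≤ ht S) (oS : (cont S).count 1 = 0)
    (hA : TyT F' g') : ∀ w ∈ g.B, w ∉ g'.B := by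
  have m := MF.of hS oS
  obtain ⟨b, m', a, w0, hg, rfl, rfl⟩ := hA
  intro w hw hwB
  obtain ⟨i, hi, rfl⟩ := mem_gad20.1 hwB
  obtain ⟨j, hj, h3, -⟩ := words h _ hw
  exact win (q := 0) (J.winF_T hg) (sg_W m hj) hi (h3.symm.trans (hg.word w0 hi))

end MV

end Pool.OddHC
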