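import Pool.Agent.Work.MP_8f87b2_h16.BwJ
import Pool.Agent.Work.MP_8f87b2_h99.J2I2
import Pool.Agent.Work.MP_8f87b2_h10.JVA
import Pool.Agent.Work.MP_8f87b2_h50.WinJ2
import Pool.Agent.Work.MP_8f87b2_h33.InRq
import Pool.Agent.Work.MP_8f87b2_h63.BWg

/-!
# Inner rows JV, JE - windows (both directions), all windows without part 1 (Bw, Rq, Sq, RqE, MarA, MarB, A with m = 0) (helper16)

`inner_win`: the inner words `T((S()))`, `T((S)(()))` of JV and JE are words of no window without part 1, right or mirrored; the third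
inner word `T(((S)))` is the hypothesis `hz`. `PD.JV`: an inner word of a window with `q >= 1` and all parts at least 3 is a word of JV
only if it is `T` of the word 9, `ht S = ht R`, `raise^2 cont S = raise^2 cont R + (q + 1)`, and `S = a 1 b` (first maximum) with
`b = 0^(q+1) 1^(q+1) ..` or `a = .. 0^(q+1) 1^(q+1)`.
-/

set_option autoImplicit false
set_option linter.unusedSimpArgs false
set_option linter.unusedVariables false

namespace Pool.OddHC

open Finset Equiv BinaryTree Pool.Agent.Work.MP_8f87b2_co J3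

variable {k q : ℕ} {R B S Sr : BinaryTree Unit} {F F' : Set (Cyc k)} {g g' : DG k}

namespace MV

/-- words of windows without part 1, right or mirrored -/
def WinS (C : Finset (OddHC.X k)) : Prop :=
  ∀ w ∈ C, ∃ (q : ℕ) (R B S : BinaryTree Unit) (i : ℕ), (cont R).count 1 = 0 ∧ (cont B).count 1 = 0 ∧
    (cont S).count 1 = 0 ∧ i < 20 ∧
    (w.1 = H1.W R (H1.ch (q + 1)) B S i ∨ w.1 = Tsq.mir (H1.W R (H1.ch (q + 1)) B S i))

theorem in36 (hd : SqD k S B Sr) {x : OddHC.X k}
    (hx : x.1 = (app S (.nil △ .nil)) △ .nil ∨ x.1 = S △ (.nil △ .nil)) {C : Finset (OddHC.X k)}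
    (hC : WinS C) : TT x ∉ C := by
  intro hm
  obtain ⟨q, R', B', S', i, h2, h3, h4, hi, e⟩ := hC _ hm
  rcases hx with hx | hx
  · have e1 : sX S B Sr x 3 = x := Subtype.ext ((hd.word x (by norm_num)).trans hx.symm)
    have h5 := hd.inB x (i := 3) (by simp)
    rw [e1] at h5
    exact h5.not_win h2 h3 h4 hi e
  · have e1 : sX S B Sr x 6 = x := Subtype.ext ((hd.word x (by norm_num)).trans hx.symm)
    have h5 := hd.inB x (i := 6) (by simp)
    rw [e1] at h5
    exact h5.not_win h2 h3 h4 hi e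

theorem sqd_of {x : OddHC.X k} (h1 : (cont S).count 1 = 0) (h3 : 3 ≤ ht S) (h2 : ht S < S.numNodes)
    (hn : S.numNodes + 2 = k) : SqD k S (Tsq.sq S).2 (Tsq.sq S).1 :=
  ⟨rfl, h3, h1, h2, hn⟩

end MV

open MV

/-- **I-JV-windows** -/
theorem Is9.inner_win (h : Is9 .nil .nil S F g) (h1 : (cont S).count 1 = 0) (h3 : 3 ≤ ht S)
    (h2 : ht S < S.numNodes) {C : Finset (OddHC.X k)} (hC : WinS C)
    (hz : ∀ x : OddHC.X k, x.1 = (S △ .nil) △ .nil → TT x ∉ C) :
    ∀ p ∈ g.arcs, ∀ w ∈ innA p, w ∉ C := by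
  intro p hp w hw
  obtain ⟨x, rfl, hx⟩ := h.inner_cases p hp w hw
  rcases hx with hx | hx
  · exact hz x hx
  · have hn : S.numNodes + 2 = k := by
      have e : x.1.numNodes = k := mem_treesOfNumNodesEq.1 x.2
      rcases hx with hx | hx
      · rw [hx] at e
        change (app S (.nil △ .nil)).numNodes + 0 + 1 = k at e
        rw [num_app'] at e
        change S.numNodes + 1 + 0 + 1 = k at e
        omega
      · rw [hx] at e
        change S.numNodes + 1 + 1 = k at e
        omega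
    exact in36 (sqd_of (x := x) h1 h3 h2 hn) hx hC

/-- **I-JE-windows** -/
theorem TyJE.inner_win (h : TyJE S F g) {C : Finset (OddHC.X k)} (hC : WinS C)
    (hz : ∀ x : OddHC.X k, x.1 = (S △ .nil) △ .nil → TT x ∉ C) :
    ∀ p ∈ g.arcs, ∀ w ∈ innA p, w ∉ C := by
  intro p hp w hw
  obtain ⟨B, Sr, w0, hd, -, -, -, hi⟩ := h.inn
  rcases hi p hp w hw with rfl | rfl | rfl
  · exact in36 hd (Or.inl (hd.word w0 (by norm_num))) hC
  · exact in36 hd (Or.inr (hd.word w0 (by norm_num))) hC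
  · exact hz _ (hd.word w0 (by norm_num))

theorem MV.WinS.of_Bw (h : TyBw3 F g) : WinS g.B := by
  obtain ⟨q, R, B, S, w0, hn, -, rfl, rfl⟩ := h
  intro w hw
  obtain ⟨i, hi, rfl⟩ := mem_gad20.1 hw
  have h1 := WD.ofBw hn le_rfl
  exact ⟨q, R, B, S, i, h1.cR, h1.cB, h1.cS, hi, Or.inl (hn.word w0 hi)⟩

/-- **I-JV-Bw** -/
theorem Is9.inner_Bw (h : Is9 .nil .nil S F g) (h1 : (cont S).count 1 = 0) (h3 : 3 ≤ ht S)
    (h2 : ht S < S.numNodes) (h' : TyBw3 F' g')
    (hz : ∀ x : OddHC.X k, x.1 = (S △ .nil) △ .nil → TT x ∉ g'.B) :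
    ∀ p ∈ g.arcs, ∀ w ∈ innA p, w ∉ g'.B := h.inner_win h1 h3 h2 (WinS.of_Bw h') hz

/-- **I-JE-Bw** -/
theorem TyJE.inner_Bw (h : TyJE S F g) (h' : TyBw3 F' g')
    (hz : ∀ x : OddHC.X k, x.1 = (S △ .nil) △ .nil → TT x ∉ g'.B) :
    ∀ p ∈ g.arcs, ∀ w ∈ innA p, w ∉ g'.B := h.inner_win (WinS.of_Bw h') hz

/-! ### Inner words of the windows against JV -/

namespace MV

/-- the crossing at word 9 -/
def Cr9 (q : ℕ) (a b : List Bool) : Prop :=
  (∃ v, b = List.replicate (q + 1) false ++ (List.replicate (q + 1) true ++ v)) ∨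
  ∃ u, a = u ++ (List.replicate (q + 1) false ++ List.replicate (q + 1) true)

/-- only the inner word of the link 9 > 17 has the content of `((S))` -/
theorem pd_nine (h : H1.PD q R B Sr) {i : ℕ} (hi : i ∈ [0, 1, 3, 6, 8, 9])
    (hone : 1 ∉ cont S) (hS3 : 3 ≤ ht S) (hh : ht R ≤ ht S)
    (hce : cont (H1.W R (H1.ch (q + 1)) B Sr i) = raise (raise (cont S))) :
    i = 9 ∧ ht S = ht R ∧ raise (raise (cont S)) = raise (raise (cont R)) + {q + 1} := by
  have htop := h.dat.big
  have q1 := h.q1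
  have hsupS : (cont S).sup = ht S := (OddHC.ht_eq S).symm
  have hsupR : (cont R).sup = ht R := (OddHC.ht_eq R).symm
  have hno1 : (cont (H1.W R (H1.ch (q + 1)) B Sr i)).count 1 = 0 := by
    rw [hce, count_raise2 (by omega)]
    exact Multiset.count_eq_zero_of_notMem hone
  have hsup : ht (H1.W R (H1.ch (q + 1)) B Sr i) = ht S + 2 := by
    rw [OddHC.ht_eq, hce, sup_raise, sup_raise, hsupS]
  have h00 : OddHC.ht (BinaryTree.nil : BinaryTree Unit) = 0 := rfl
  have r0 : (raise (cont (BinaryTree.nil : BinaryTree Unit))).count 1 = 1 := by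
    rw [cont_nil, raise_zero]; rfl
  have hQ := H1.ch_ht (q + 1)
  simp only [List.mem_cons, List.not_mem_nil, or_false] at hi
  rcases hi with rfl | rfl | rfl | rfl | rfl | rfl
  · exfalso
    simp only [H1.W, ht_app, ht_node, hQ, h00] at hsup
    omega
  · exfalso
    simp only [H1.W, ht_app, ht_node, hQ, h00] at hsup
    omega
  · exfalso
    simp only [H1.W, cont_node, cont_nil, add_zero] at hno1
    rw [count_raise_lt (by
      rw [cont_app, Multiset.sup_add, hsupR]
      exact lt_of_lt_of_le (show 1 < ht R by omega) le_sup_left), cont_app, Multiset.count_add,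
      cont_node, Multiset.count_add, r0] at hno1
    omega
  · exfalso
    simp only [H1.W, ht_node, hQ, h00] at hsup
    omega
  · exfalso
    simp only [H1.W, cont_app, cont_node, Multiset.count_add, r0] at hno1
    omega
  · have hW9 : cont (H1.W R (H1.ch (q + 1)) B Sr 9) = raise (raise (cont R)) + {q + 1} := by
      simp only [H1.W, cont_node, cont_nil, add_zero, H1.ch_cont]
    simp only [H1.W, ht_node, hQ, h00] at hsup
    exact ⟨rfl, by omega, by rw [← hce, hW9]⟩

/-- the crossing -/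
theorem cr9 (hD : H1.Dat q R B Sr) {x : OddHC.X k} (hn : R.numNodes + q + 3 = k)
    (hx : x.1 = H1.W R (H1.ch (q + 1)) B Sr 9) (hts : ht R ≤ ht S)
    (h36 : (TT x).1 = (S △ .nil) △ .nil ∨ ∃ v : OddHC.X k, v.1 = (S △ .nil) △ .nil ∧ TT (TT v) = TT x)
    {a b : List Bool} (h3 : H1.FM S a b) : Cr9 q a b := by
  have htop := hD.big
  have e9 : H1.wX R B Sr q x 9 = x := Subtype.ext ((H1.wX_eq hD hn x (by norm_num)).trans hx.symm)
  have hn2 : (not ∘ not) = (id : Bool → Bool) := by funext x; cases x <;> rfl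
  rcases h36 with e | ⟨v, e, e1⟩
  · left
    have h5 : TT (TT x) = H1.wX R B Sr q x 17 := by
      have := H1.wX_link hD hn x (i := 9) (j := 17) (by simp)
      rwa [e9] at this
    have h6 : wd (TT (TT x)).1 = List.replicate (q + 1) true ++ (List.replicate (q + 1) false ++
        (true :: (wd (Sr △ B) ++ [false]))) := by
      rw [h5, H1.wX_eq hD hn x (by norm_num)]
      simp only [H1.W, wd_app, wd_node, H1.wd_ch]
      simp [wd]
    have h4 := h3.len_b
    rw [wdT_three e h3] at h6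
    obtain ⟨v, hv'⟩ := pre_twoJV (x := true) (n := q + 1) (b := b.map not)
      (r := true :: false :: false :: false :: a.map not) (by rw [h6]; rfl)
      (by rw [List.length_map]; omega)
    refine ⟨v.map not, ?_⟩
    have := congrArg (List.map not) hv'
    rw [List.map_map, hn2, List.map_id] at this
    rw [this]
    simp
  · right
    have h5 : TT v = x := TT.injective e1
    have h6 : wd (TT v).1 = (true :: true :: (wd R ++ [false, false])) ++
        (List.replicate (q + 1) true ++ List.replicate (q + 1) false) := by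
      rw [h5, hx]
      simp only [H1.W, wd_node, H1.wd_ch]
      simp [wd]
    have h4 := h3.len_a
    rw [wdT_three e h3] at h6
    have e2 := congrArg List.reverse h6
    obtain ⟨v', hv'⟩ := pre_twoJV (x := false) (n := q + 1) (b := (a.map not).reverse)
      (t := (true :: true :: (wd R ++ [false, false])).reverse)
      (r := false :: false :: true :: true :: (b.map not).reverse) (by
        have : List.replicate (q + 1) (!false) = List.replicate (q + 1) true := rfl
        rw [this]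
        rw [List.reverse_append, List.reverse_append, List.reverse_append, List.reverse_replicate,
          List.reverse_replicate] at e2
        rw [← List.append_assoc, ← e2]
        simp) (by rw [List.length_reverse, List.length_map]; omega)
    refine ⟨v'.reverse.map not, ?_⟩
    have := congrArg List.reverse hv'
    rw [List.reverse_reverse] at this
    have h8 := congrArg (List.map not) this
    rw [List.map_map, hn2, List.map_id] at h8
    rw [h8]
    simp

/-- **an inner word of a window with `q >= 1`, all parts at least 3, against JV** -/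
theorem pd_JV (h : H1.PD q R B Sr) {x : OddHC.X k} (hn : R.numNodes + q + 3 = k) {i : ℕ}
    (hi : i ∈ [0, 1, 3, 6, 8, 9]) (hx : x.1 = H1.W R (H1.ch (q + 1)) B Sr i)
    (h' : Is9 .nil .nil S F' g') (hone : 1 ∉ cont S) (hS3 : 3 ≤ ht S) (hh : ht R ≤ ht S)
    (hm : TT x ∈ g'.B) :
    i = 9 ∧ ht S = ht R ∧ raise (raise (cont S)) = raise (raise (cont R)) + {q + 1} ∧
      ∀ a b, H1.FM S a b → Cr9 q a b := by
  have hin := (h.innP hi hx).1
  have h36 := hin.only h' hm
  have hce : cont (H1.W R (H1.ch (q + 1)) B Sr i) = raise (raise (cont S)) := by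
    rw [← cont36 (w := TT x) (by
      rcases h36 with e | ⟨v, e, e1⟩
      · exact Or.inl e
      · exact Or.inr ⟨v, e, Or.inl e1⟩), TT_apply, cont_TF, hx]
  obtain ⟨rfl, hts, hce'⟩ := pd_nine h hi hone hS3 hh hce
  exact ⟨rfl, hts, hce', fun a b h3 => cr9 h.dat hn hx hh h36 h3⟩

/-- **the same against JE** -/
theorem pd_JE (h : H1.PD q R B Sr) {x : OddHC.X k} (hn : R.numNodes + q + 3 = k) {i : ℕ}
    (hi : i ∈ [0, 1, 3, 6, 8, 9]) (hx : x.1 = H1.W R (H1.ch (q + 1)) B Sr i)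
    (h' : TyJE S F' g') (hh : ht R ≤ ht S) (hm : TT x ∈ g'.B) :
    i = 9 ∧ ∀ a b, H1.FM S a b → Cr9 q a b := by
  obtain ⟨B', S', w0, hd, -, hB, -, -⟩ := h'.inn
  obtain ⟨j, hj, e⟩ := hB _ hm
  have hj20 : j < 20 := (by decide : ∀ i ∈ ixG13, i < 20) j hj
  have hj19 : j ≠ 19 := (by decide : ∀ i ∈ ixG13, i ≠ 19) j hj
  have e1 : (TT x).1 = H1.W S .nil B' S' j := by rw [e]; exact hd.word w0 hj20
  have htop := h.dat.big
  have q1 := h.q1
  rcases winJ h.R3 (by omega) htop hi hx hd hh hj20 e1 with ⟨_, h2, _⟩ | ⟨rfl, _, rfl | rfl | ⟨rfl, _⟩⟩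
  · exact absurd h2 hj19
  · exact ⟨rfl, fun a b h3 => cr9 h.dat hn hx hh (Or.inl e1) h3⟩
  · refine ⟨rfl, fun a b h3 => cr9 h.dat hn hx hh (Or.inr ⟨sX S B' S' w0 9, hd.word w0 (by norm_num), ?_⟩) h3⟩
    rw [e]
    exact hd.link w0 (by simp)
  · exact absurd rfl hj19

end MV

open MV

theorem MV.ht_Bw {c q : ℕ} {R B S : BinaryTree Unit} (h : NodeBw k c q R B S) (w0 : OddHC.X k) :
    htc (cyc (H1.wX R B S q w0 0)) = ht R := by
  change (cont (H1.wX R B S q w0 0).1).sup = _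
  rw [H1.wX_cont0 h.dat h.size w0, Multiset.sup_add, Multiset.sup_singleton]
  have := h.top
  have e : ht R = (cont R).sup := OddHC.ht_eq R
  change max (cont R).sup (q + 3) = ht R
  omega

/-- **I-Bw-JV** -/
theorem TyBw.inner_JV (h : TyBw F g) (h2 : ∀ d ∈ F, 2 ∉ contc d) (h' : Is9 .nil .nil S F' g')
    (hone : 1 ∉ cont S) (hS3 : 3 ≤ ht S) (hh : ∀ c ∈ F, ∀ d ∈ F', htc c ≤ htc d)
    (hx : ∀ (q : ℕ) (R : BinaryTree Unit), 1 ≤ q → ht S = ht R →
      raise (raise (cont S)) = raise (raise (cont R)) + {q + 1} → ∃ a b, H1.FM S a b ∧ ¬ Cr9 q a b) :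
    ∀ p ∈ g.arcs, ∀ w ∈ innA p, w ∉ g'.B := by
  intro p hp w hw hm
  obtain ⟨c, q, R, B, Sr, w0, i, h1, hi, rfl, hc⟩ := h.inn0 p hp w hw
  have hbd := h1.bd (h1.c3 w0 (h2 _ hc))
  obtain ⟨d, hd, e1⟩ := h'.exF
  have h3 := hh _ hc d hd
  rw [e1, ht_Bw h1 w0] at h3
  obtain ⟨_, h4, h5, h6⟩ := pd_JV hbd.pd h1.size hi (h1.word w0 (bw_list20 hi)) h' hone hS3 h3 hm
  obtain ⟨a, b, h7, h8⟩ := hx q R hbd.pd.q1 h4 h5
  exact h8 (h6 a b h7)

/-- **I-Bw-JE** -/
theorem TyBw.inner_JE (h : TyBw F g) (h2 : ∀ d ∈ F, 2 ∉ contc d) (h' : TyJE S F' g')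
    (hh : ∀ c ∈ F, ∀ d ∈ F', htc c ≤ htc d)
    (hx : ∀ (q : ℕ), 1 ≤ q → ∃ a b, H1.FM S a b ∧ ¬ Cr9 q a b) :
    ∀ p ∈ g.arcs, ∀ w ∈ innA p, w ∉ g'.B := by
  intro p hp w hw hm
  obtain ⟨c, q, R, B, Sr, w0, i, h1, hi, rfl, hc⟩ := h.inn0 p hp w hw
  have hbd := h1.bd (h1.c3 w0 (h2 _ hc))
  obtain ⟨d, hd, e1⟩ : ∃ d ∈ F', htc d = ht S := by
    obtain ⟨B', S', w1, hd, -, -, hF, -⟩ := h'.inn
    refine ⟨cyc (sX S B' S' w1 0), ?_, ?_⟩
    · rw [hF]; exact ⟨0, by decide, rfl⟩
    · change (cont (sX S B' S' w1 0).1).sup = _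
      rw [hd.cont0, hd.supz]
  have h3 := hh _ hc d hd
  rw [e1, ht_Bw h1 w0] at h3
  obtain ⟨_, h6⟩ := pd_JE hbd.pd h1.size hi (h1.word w0 (bw_list20 hi)) h' h3 hm
  obtain ⟨a, b, h7, h8⟩ := hx q hbd.pd.q1
  exact h8 (h6 a b h7)

end Pool.OddHC
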