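import Pool.Agent.Work.MP_8f87b2_h16.JBW
import Pool.Agent.Work.MP_8f87b2_h69w.BwE

/-!
# Rows W of TyBw (`c >= 3`) against JV, JE (helper16)

A B-window has `q >= 1`: common words only for `q = 1` (`b = 4`, `c = 3`).
-/

set_option autoImplicit false
set_option linter.unusedSimpArgs false
set_option linter.unusedVariables false

namespace Pool.OddHC

open Finset Equiv BinaryTree Pool.Agent.Work.MP_8f87b2_co J3

variable {k c q : ℕ} {R B S R' B' S' Z Xx : BinaryTree Unit} {F F' : Set (Cyc k)} {g g' : DG k}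

namespace MV

/-- a B-window -/
theorem WD.ofBw (h : NodeBw k c q R B S) (c3 : 3 ≤ c) : WD R B S := by
  have hS := h.dat.htS
  have top := h.top
  have lt := h.lt
  have c1 : (cont R).count 1 = 0 := by
    rw [Multiset.count_eq_zero]
    intro h1
    rcases h.part 1 h1 with h2 | h2 <;> omega
  obtain ⟨c2, c4⟩ : (cont B).count 1 = 0 ∧ (cont S).count 1 = 0 := by
    have := congrArg (Multiset.count 1) h.eq
    rw [Multiset.count_add, c1] at this
    omega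
  exact ⟨hv_Hf (h.hvR c3), hv_Hf h.hvB, hv_Hf (h.hvS c3), by omega, by omega, c1, c2, c4⟩

/-- a window without part 1 against the words `T10` (JV, JVm) -/
theorem WD.t10 (w : WD R B S) (cZ : (cont Z).count 1 = 0) (cX : (cont Xx).count 1 = 0)
    (hZ : Z ≠ .nil) (hX : Xx ≠ .nil) {i j : ℕ} (hi : i < 10) (hj : j < 20)
    (e : T10 Z Xx i = H1.W R (H1.ch (q + 1)) B S j) : Cb q R B S Z Xx :=
  bare cZ cX hZ hX w.fR w.fB w.fS w.tR w.tS hi hj e

end MV

open MV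

/-- **Bw against JV** -/
theorem TyBw3.w_JV (h : TyBw3 F' g') (h9 : Is9 .nil .nil Z F g) (h3 : 3 ≤ ht Z)
    (h1 : (cont Z).count 1 = 0) (hx : ∀ R B S w0, NodeBw k 3 1 R B S →
      g' = gad20 (H1.wX R B S 1 w0) → Z ≠ (R △ .nil) △ .nil ∧ Z ≠ (S △ B) △ .nil ∧
        Z ≠ app S (B △ .nil) △ .nil) : ∀ w ∈ g.B, w ∉ g'.B := by
  obtain ⟨q, R, B, S, w0, hn, -, rfl, rfl⟩ := h
  intro w hw hw'
  obtain ⟨j, hj, rfl⟩ := mem_gad20.1 hw'
  obtain ⟨i, hi, e, -⟩ := h9.words _ hw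
  have hZ : Z ≠ .nil := by rintro rfl; rw [ht] at h3; omega
  rw [hn.word w0 hj, w9_T10 _ hi] at e
  have hp : pr i < 10 := by interval_cases i <;> decide
  rcases (WD.ofBw hn le_rfl).t10 h1 (count_xT1 h3 h1) hZ (xT_ne0 Z) hp hj e.symm with
    ⟨h0, _⟩ | ⟨h0, h5⟩
  · have := hn.lt
    omega
  · subst h0
    obtain ⟨a1, a2, a3⟩ := hx R B S w0 hn rfl
    rcases h5 with h5 | h5 | h5
    · exact a1 h5
    · exact a2 h5
    · exact a3 h5

/-- **Bw against every set of words `W R nil B S i`** (J2B, JE, J3V) -/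
theorem TyBw3.w_SqD (h : TyBw3 F' g') {A : Set (X k)} (hd : SqD k R B S)
    (hA : ∀ w ∈ A, ∃ i < 20, w.1 = H1.W R .nil B S i)
    (hx : ∀ R' B' S' w0, NodeBw k 3 1 R' B' S' → g' = gad20 (H1.wX R' B' S' 1 w0) →
      ¬ Con 1 R B S R' B' S') : ∀ w ∈ A, w ∉ g'.B := by
  obtain ⟨q, R', B', S', w0, hn, -, rfl, rfl⟩ := h
  intro w hw hw'
  obtain ⟨j, hj, rfl⟩ := mem_gad20.1 hw'
  obtain ⟨i, hi, e⟩ := hA _ hw
  rw [hn.word w0 hj] at e
  have hc := win0 hd (WD.ofBw hn le_rfl) hi hj e.symm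
  have h0 : q = 1 := by
    have := hn.lt
    obtain ⟨Y, _, h1 | h1⟩ := hc
    · have := h1.1
      omega
    · exact h1.1
  subst h0
  exact hx R' B' S' w0 hn rfl hc

/-- **Bw against JE** -/
theorem TyBw3.w_JE (h : TyBw3 F' g') (h' : TyJE R F g)
    (hx : ∀ B S R' B' S' w0, SqD k R B S → NodeBw k 3 1 R' B' S' →
      g' = gad20 (H1.wX R' B' S' 1 w0) → ¬ Con 1 R B S R' B' S') : ∀ w ∈ g.B, w ∉ g'.B := by
  obtain ⟨B, S, w0, h1, hp, hB, hF, _⟩ := h'.inn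
  refine h.w_SqD (A := {w | w ∈ g.B}) h1 ?_ fun R' B' S' w1 => hx B S R' B' S' w1 h1
  intro w hw
  obtain ⟨i, hi, rfl⟩ := hB w hw
  exact ⟨i, (by decide : ∀ i ∈ ixG13, i < 20) i hi, h1.word w0 ((by decide : ∀ i ∈ ixG13, i < 20) i hi)⟩

end Pool.OddHC
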