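import Pool.Agent.Work.MP_8f87b2_h16.MVW
import Pool.Agent.Work.MP_8f87b2_h4.Meet2

/-!
# All twenty words `W R nil B S i` (J2B, J3V, J1, JE) against the right windows without a part 1 (bare windows, windows A with m = 0)

`SqD.win0`: exact list, `i, j < 20` (also word 9): with `Y = R`, or `B = nil` and `Y = S`: `Y = (R')`, `(S')B'`, `S'(B')` for `q = 0`,
`Y = ((R'))`, `((S')B')`, `(S'(B'))` for `q = 1`, nothing for `q >= 2` (helper16).
-/

set_option autoImplicit false
set_option linter.unusedSimpArgs false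
set_option linter.unusedVariables false

namespace Pool.OddHC

open Finset Equiv BinaryTree Pool.Agent.Work.MP_8f87b2_co J3

variable {k q : ℕ} {R B S R' B' S' : BinaryTree Unit} {F F' : Set (Cyc k)} {g g' : DG k}

namespace MV

/-- the possible common words -/
def Hit (q : ℕ) (R' B' S' Y : BinaryTree Unit) : Prop :=
  (q = 0 ∧ (Y = R' △ .nil ∨ Y = S' △ B' ∨ Y = app S' (B' △ .nil))) ∨
  (q = 1 ∧ (Y = (R' △ .nil) △ .nil ∨ Y = (S' △ B') △ .nil ∨ Y = app S' (B' △ .nil) △ .nil))

/-- components of a word without part 1 -/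
theorem inn {A : BinaryTree Unit} : ∀ {t : BinaryTree Unit}, (cont t).count 1 = 0 → A ∈ comps t →
    A = .nil △ .nil ∨ (cont A).count 1 = 0 := by
  intro t
  induction t with
  | nil => intro _ h; simp [comps] at h
  | node _ C D _ ih =>
    intro h hA
    change A ∈ C :: comps D at hA
    rw [List.mem_cons] at hA
    rcases hA with rfl | hA
    · exact cnt_inner h
    · exact ih (cnt_node h) hA

/-- a heavy component -/
def Pu (A : BinaryTree Unit) : Prop := A ≠ .nil ∧ A ≠ .nil △ .nil ∧ (cont A).count 1 = 0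

theorem Pu.of {t A : BinaryTree Unit} (h : Hf t) (h1 : (cont t).count 1 = 0) (hA : A ∈ comps t) :
    Pu A := by
  have h2 := h A hA
  refine ⟨?_, ?_, ?_⟩
  · rintro rfl
    rw [ht] at h2
    omega
  · rintro rfl
    change 2 ≤ 1 at h2
    omega
  · rcases inn h1 hA with h3 | h3
    · rw [h3] at h2
      change 2 ≤ 1 at h2
      omega
    · exact h3

theorem Pu.self {t : BinaryTree Unit} (h : 2 ≤ ht t) (h1 : (cont t).count 1 = 0) : Pu t := by
  refine ⟨?_, ?_, h1⟩
  · rintro rfl
    rw [ht] at h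
    omega
  · rintro rfl
    change 2 ≤ 1 at h
    omega

theorem Pu.x {x : BinaryTree Unit} (h : Pu x) : ∀ S0, x = .nil △ S0 → S0 = .nil := by
  rintro S0 rfl
  exact absurd rfl (ne_nil_node h.2.2 (Y := S0))

theorem Pu.y {y : BinaryTree Unit} (h : Pu y) : ∀ B0, y = app B0 (.nil △ .nil) → B0 = .nil := by
  rintro B0 rfl
  exact absurd rfl (ne_app_lf h.2.2 (Y := B0))

theorem pu_ch (q : ℕ) : Pu (H1.ch (q + 2)) := by
  refine Pu.self ?_ ?_
  · rw [H1.ch_ht]; omega
  · rw [H1.ch_cont, Multiset.count_singleton, if_neg (by omega)]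

/-- the six class words -/
theorem cls6 (h : SqD k R B S) {i : ℕ}
    (hi : i = 0 ∨ i = 4 ∨ i = 10 ∨ i = 13 ∨ (i = 11 ∧ B ≠ .nil) ∨ (i = 14 ∧ B ≠ .nil))
    {l : List (BinaryTree Unit)} (e : comps (H1.W R .nil B S i) = l) :
    l = comps R ++ [.nil △ .nil] ∨ l = (.nil △ .nil) :: comps R ∨
    l = comps B ++ (.nil △ .nil) :: comps S ∨ l = comps S ++ [app B (.nil △ .nil)] ∨
    (l = comps B ++ .nil :: .nil :: comps S ∧ B ≠ .nil) ∨ (l = (.nil △ S) :: comps B ∧ B ≠ .nil) := by
  rcases hi with rfl | rfl | rfl | rfl | ⟨rfl, hB⟩ | ⟨rfl, hB⟩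
  · left
    rw [← e]; change comps (app R _) = _; rw [comps_app]; rfl
  · right; left
    rw [← e]; rfl
  · right; right; left
    rw [← e]; change comps (app B _) = _; rw [comps_app]; rfl
  · right; right; right; left
    rw [← e]; change comps (app S _) = _; rw [comps_app]; rfl
  · right; right; right; right; left
    refine ⟨?_, hB⟩
    rw [← e]; change comps (app B _) = _; rw [comps_app]; rfl
  · right; right; right; right; right
    refine ⟨?_, hB⟩
    rw [← e]; rfl

/-- **class words, no component `()`** -/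
theorem clsA (h : SqD k R B S) {i : ℕ} (hi : i < 20) {l : List (BinaryTree Unit)}
    (e : comps (H1.W R .nil B S i) = l) {x y : BinaryTree Unit} {l1 l2 : List (BinaryTree Unit)}
    (hx : l = x :: l1) (hy : l = l2 ++ [y]) (hl1 : l1 ≠ []) (n0 : .nil ∉ l)
    (xx : x = .nil △ .nil ∨ ∀ S0, (cont S0).count 1 = 0 → x = .nil △ S0 → S0 = .nil)
    (yy : y = .nil △ .nil ∨ ∀ B0, (cont B0).count 1 = 0 → y = app B0 (.nil △ .nil) → B0 = .nil)
    (hl : (.nil △ .nil) ∉ l ∨ (x = .nil △ .nil ∧ (.nil △ .nil) ∉ l1) ∨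
      (y = .nil △ .nil ∧ (.nil △ .nil) ∉ l2)) :
    ∃ l', ((y = .nil △ .nil ∧ l' = l2) ∨ (x = .nil △ .nil ∧ l' = l1)) ∧
      (comps R = l' ∨ (B = .nil ∧ comps S = l')) := by
  have xn : x ≠ .nil := fun h => n0 (by rw [hx, h]; simp)
  have yn : y ≠ .nil := fun h => n0 (by rw [hy, h]; simp)
  have nR := nil_mem h.one
  have nB := nil_mem h.oneB
  have nS := nil_mem h.oneS
  have sS := comps_ne h.neS
  rcases wcase R B S hi with ⟨Y, _, e1⟩ | hi'
  · exfalso
    rcases e1 with e1 | e1 | e1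
    · rw [e1, hx] at e
      have : BinaryTree.nil :: comps Y = x :: l1 := e
      rw [List.cons.injEq] at this
      exact xn this.1.symm
    · rw [e1, hy, comps_app] at e
      exact yn (last_eq (l := comps Y) e).2.symm
    · rw [e1, hx] at e
      have : [Y] = x :: l1 := e
      rw [List.cons.injEq] at this
      exact hl1 this.2.symm
  · rcases cls6 h hi' e with h1 | h1 | h1 | h1 | ⟨h1, hB⟩ | ⟨h1, hB⟩
    · rw [hy] at h1
      have := last_eq h1
      exact ⟨l2, Or.inl ⟨this.2, rfl⟩, Or.inl this.1.symm⟩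
    · rw [hx, List.cons.injEq] at h1
      exact ⟨l1, Or.inr ⟨h1.1, rfl⟩, Or.inl h1.2.symm⟩
    · -- `B(())S`
      have hm : (BinaryTree.nil △ BinaryTree.nil) ∈ l := by rw [h1]; simp
      rcases hl with hl | ⟨hl, hl'⟩ | ⟨hl, hl'⟩
      · exact absurd hm hl
      · cases hB : comps B with
        | nil =>
          rw [hx, hB] at h1
          simp only [List.nil_append, List.cons.injEq] at h1
          refine ⟨l1, Or.inr ⟨hl, rfl⟩, Or.inr ⟨?_, h1.2.symm⟩⟩
          exact comps_inj hB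
        | cons b bs =>
          exfalso
          rw [hx, hB] at h1
          simp only [List.cons_append, List.cons.injEq] at h1
          apply hl'
          rw [h1.2]
          simp
      · exfalso
        obtain ⟨V, L, hV⟩ := last_mem sS
        rw [hy, hV] at h1
        have h2 : l2 ++ [y] = (comps B ++ (.nil △ .nil) :: V) ++ [L] := by rw [h1]; simp
        apply hl'
        rw [(last_eq h2).1]
        simp
    · rw [hy] at h1
      have h2 := last_eq h1
      have hBn : B = .nil := by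
        rcases yy with h3 | h3
        · rw [h3] at h2
          exact (H1.app_snoc (P' := .nil) h2.2.symm).1
        · exact h3 B h.oneB h2.2
      refine ⟨l2, Or.inl ⟨?_, rfl⟩, Or.inr ⟨hBn, h2.1.symm⟩⟩
      rw [h2.2, hBn]
      rfl
    · exfalso
      apply n0
      rw [h1]
      simp
    · exfalso
      rw [hx, List.cons.injEq] at h1
      rcases xx with h3 | h3
      · rw [h3] at h1
        exact h.neS (H1.node_inj h1.1).2.symm
      · exact h.neS (h3 S h.oneS h1.1)

/-- **class words with a component `()`** -/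
theorem clsN (h : SqD k R B S) {i : ℕ} (hi : i < 20) {l : List (BinaryTree Unit)}
    (e : comps (H1.W R .nil B S i) = l) {x y : BinaryTree Unit} {l1 l2 : List (BinaryTree Unit)}
    (hx : l = x :: l1) (hy : l = l2 ++ [y]) (xn : x ≠ .nil) (yn : y ≠ .nil)
    {a b : List (BinaryTree Unit)} (hl : l = a ++ .nil :: b) (ha : .nil ∉ a) :
    comps B = a ∧ b = .nil :: comps S := by
  have nR := nil_mem h.one
  have nB := nil_mem h.oneB
  have nS := nil_mem h.oneS
  have sS := comps_ne h.neS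
  have hm : BinaryTree.nil ∈ l := by rw [hl]; simp
  rcases wcase R B S hi with ⟨Y, _, e1⟩ | hi'
  · exfalso
    rcases e1 with e1 | e1 | e1
    · rw [e1, hx] at e
      have : BinaryTree.nil :: comps Y = x :: l1 := e
      rw [List.cons.injEq] at this
      exact xn this.1.symm
    · rw [e1, hy, comps_app] at e
      exact yn (last_eq (l := comps Y) e).2.symm
    · rw [e1, hl] at e
      have e2 : [Y] = a ++ .nil :: b := e
      cases a with
      | nil =>
        rw [hl] at hx
        simp only [List.nil_append, List.cons.injEq] at hx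
        exact xn hx.1.symm
      | cons c cs => simp at e2
  · rcases cls6 h hi' e with h1 | h1 | h1 | h1 | ⟨h1, hB⟩ | ⟨h1, hB⟩
    · rw [h1] at hm
      simp at hm
      exact absurd hm nR
    · rw [h1] at hm
      simp at hm
      exact absurd hm nR
    · rw [h1] at hm
      simp at hm
      rcases hm with hm | hm
      · exact absurd hm nB
      · exact absurd hm nS
    · rw [h1] at hm
      simp only [List.mem_append, List.mem_singleton] at hm
      rcases hm with hm | hm
      · exact absurd hm nS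
      · exact absurd hm.symm (H1.app_ne (by simp))
    · -- the first `()`
      have key : ∀ (a c b d : List (BinaryTree Unit)), .nil ∉ a → .nil ∉ c →
          a ++ .nil :: b = c ++ .nil :: d → a = c ∧ b = d := by
        intro a
        induction a with
        | nil =>
          intro c b d _ hc h
          cases c with
          | nil => simpa using h
          | cons c cs =>
            simp only [List.nil_append, List.cons_append, List.cons.injEq] at h
            exact absurd (by rw [← h.1]; simp) hc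
        | cons a as ih =>
          intro c b d ha hc h
          cases c with
          | nil =>
            simp only [List.nil_append, List.cons_append, List.cons.injEq] at h
            exact absurd (by rw [h.1]; simp) ha
          | cons c cs =>
            simp only [List.cons_append, List.cons.injEq] at h
            obtain ⟨h3, h4⟩ := ih cs b d (fun h => ha (List.mem_cons_of_mem _ h))
              (fun h => hc (List.mem_cons_of_mem _ h)) h.2
            exact ⟨by rw [h.1, h3], h4⟩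
      rw [hl] at h1
      obtain ⟨h2, h3⟩ := key a (comps B) b (.nil :: comps S) ha nB h1
      exact ⟨h2.symm, h3⟩
    · rw [h1] at hm
      simp at hm
      exact absurd hm nB

/-- class words, no hit -/
theorem clsO (h : SqD k R B S) {i : ℕ} (hi : i < 20) {l : List (BinaryTree Unit)}
    (e : comps (H1.W R .nil B S i) = l) {x y : BinaryTree Unit} {l1 l2 : List (BinaryTree Unit)}
    (hx : l = x :: l1) (hy : l = l2 ++ [y]) (hl1 : l1 ≠ []) (n0 : .nil ∉ l)
    (n1 : (.nil △ .nil) ∉ l)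
    (xx : ∀ S0, (cont S0).count 1 = 0 → x = .nil △ S0 → S0 = .nil)
    (yy : ∀ B0, (cont B0).count 1 = 0 → y = app B0 (.nil △ .nil) → B0 = .nil) : False := by
  obtain ⟨l', h1, _⟩ := clsA h hi e hx hy hl1 n0 (Or.inr xx) (Or.inr yy) (Or.inl n1)
  rcases h1 with ⟨h1, _⟩ | ⟨h1, _⟩
  · apply n1
    rw [hy, h1]
    simp
  · apply n1
    rw [hx, h1]
    simp

/-- the data of a window without a part 1 -/
structure WD (R B S : BinaryTree Unit) : Prop where
  fR : Hf R
  fB : Hf B
  fS : Hf S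
  tR : 2 ≤ ht R
  tS : 2 ≤ ht S
  cR : (cont R).count 1 = 0
  cB : (cont B).count 1 = 0
  cS : (cont S).count 1 = 0

theorem WD.pR (w : WD R B S) : Pu R := Pu.self w.tR w.cR

theorem WD.pS (w : WD R B S) : Pu S := Pu.self w.tS w.cS

theorem fst_pu {t : BinaryTree Unit} (hn : t ≠ .nil) (hf : Hf t) (h1 : (cont t).count 1 = 0) :
    ∃ x l, comps t = x :: l ∧ Pu x := by
  cases ht : comps t with
  | nil => exact absurd ht (comps_ne hn)
  | cons x l => exact ⟨x, l, rfl, Pu.of hf h1 (by rw [ht]; simp)⟩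

theorem lst_pu {t : BinaryTree Unit} (hn : t ≠ .nil) (hf : Hf t) (h1 : (cont t).count 1 = 0) :
    ∃ l y, comps t = l ++ [y] ∧ Pu y := by
  obtain ⟨l, y, e⟩ := last_mem (comps_ne hn)
  exact ⟨l, y, e, Pu.of hf h1 (by rw [e]; simp)⟩

/-! ### Heads -/

theorem hdP (h : SqD k R B S) {P : BinaryTree Unit} (hP : P ≠ .nil) {a : ℕ} (ha : a < 6)
    (ha5 : a = 5 → B = .nil) (e : P △ .nil = sx R B S a) : P = R ∨ (B = .nil ∧ P = S) := by
  interval_cases a
  · exact absurd e.symm h.lenR
  · exact absurd (H1.node_inj e).1 hP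
  · exact Or.inl (H1.node_inj e).1
  · exact Or.inr ⟨(H1.node_inj e).2.symm, (H1.node_inj e).1⟩
  · exact absurd e.symm h.lenS
  · exact absurd (H1.node_inj e).1 hP

theorem hdN (h : SqD k R B S) {P : BinaryTree Unit} (hP : P ≠ .nil) {a : ℕ} (ha : a < 6)
    (ha5 : a = 5 → B = .nil) (e : .nil △ P = sx R B S a) : P = R ∨ (B = .nil ∧ P = S) := by
  interval_cases a
  · exact absurd e.symm h.appR
  · exact Or.inl (H1.node_inj e).2
  · exact absurd (H1.node_inj e).2 hP
  · exact absurd (H1.node_inj e).1.symm h.neS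
  · exact absurd e.symm h.appS
  · exact Or.inr ⟨ha5 rfl, (H1.node_inj e).2⟩

theorem hdA (h : SqD k R B S) (w : WD R' B' S') {c : BinaryTree Unit} {a : ℕ} (ha : a < 6)
    (e : app R' (.nil △ (c △ .nil)) = sx R B S a) : False := by
  have nR := nil_mem h.one
  have nB := nil_mem h.oneB
  have nS := nil_mem h.oneS
  obtain ⟨x, l, ex, px⟩ := fst_pu w.pR.1 w.fR w.cR
  have e' := congrArg comps e
  rw [comps_app] at e'
  have c2 : comps (BinaryTree.nil △ (c △ .nil)) = [.nil, c] := rfl
  rw [c2] at e'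
  interval_cases a
  · change _ = comps (app R _) at e'
    rw [comps_app] at e'
    have e2 : (comps R' ++ [.nil]) ++ [c] = comps R ++ [.nil] := by
      rw [List.append_assoc]; exact e'
    apply nR
    rw [← (last_eq e2).1]
    simp
  · rw [ex] at e'
    change _ = BinaryTree.nil :: comps R at e'
    rw [List.cons_append, List.cons.injEq] at e'
    exact px.1 e'.1
  · rw [ex] at e'
    have := congrArg List.length e'
    change _ = 1 at this
    simp at this
  · rw [ex] at e'
    change _ = S :: comps B at e'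
    rw [List.cons_append, List.cons.injEq] at e'
    apply nB
    rw [← e'.2]
    simp
  · change _ = comps (app S _) at e'
    rw [comps_app] at e'
    have e2 : (comps R' ++ [.nil]) ++ [c] = comps S ++ [B] := by
      rw [List.append_assoc]; exact e'
    apply nS
    rw [← (last_eq e2).1]
    simp
  · rw [ex] at e'
    change _ = BinaryTree.nil :: comps S at e'
    rw [List.cons_append, List.cons.injEq] at e'
    exact px.1 e'.1

theorem hdQ (h : SqD k R B S) (w : WD R' B' S') {c : BinaryTree Unit} {a : ℕ} (ha : a < 6)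
    (e : c △ (.nil △ S') = sx R B S a) : False := by
  have nR := nil_mem h.one
  have nB := nil_mem h.oneB
  have nS := nil_mem h.oneS
  obtain ⟨l, y, ey, py⟩ := lst_pu w.pS.1 w.fS w.cS
  have e' : c :: .nil :: comps S' = comps (sx R B S a) := congrArg comps e
  interval_cases a
  · change _ = comps (app R _) at e'
    rw [comps_app, ey] at e'
    have e2 : (c :: .nil :: l) ++ [y] = comps R ++ [.nil] := e'
    exact py.1 (last_eq e2).2
  · change _ = BinaryTree.nil :: comps R at e'
    rw [List.cons.injEq] at e'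
    apply nR
    rw [← e'.2]
    simp
  · change _ = [R] at e'
    simp at e'
  · change _ = S :: comps B at e'
    rw [List.cons.injEq] at e'
    apply nB
    rw [← e'.2]
    simp
  · change _ = comps (app S _) at e'
    rw [comps_app, ey] at e'
    have e2 : (c :: .nil :: l) ++ [y] = comps S ++ [B] := e'
    apply nS
    rw [← (last_eq e2).1]
    simp
  · change _ = BinaryTree.nil :: comps S at e'
    rw [List.cons.injEq] at e'
    apply nS
    rw [← e'.2]
    simp

theorem hdL (h : SqD k R B S) (w : WD R' B' S') {a : ℕ} (ha : a < 6)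
    (e : S' △ app B' (.nil △ .nil) = sx R B S a) :
    S' △ B' = R ∨ (B = .nil ∧ S' △ B' = S) := by
  interval_cases a
  · have e1 : app (S' △ B') (.nil △ .nil) = app R (.nil △ .nil) := e
    exact Or.inl (H1.app_snoc e1).1
  · exact absurd (H1.node_inj e).1 w.pS.1
  · exact absurd (H1.node_inj e).2 (H1.app_ne (by simp))
  · exact absurd (H1.node_inj e).2.symm (ne_app_lf h.oneB)
  · have e1 : app (S' △ B') (.nil △ .nil) = app S (B △ .nil) := e
    exact Or.inr ⟨(H1.app_snoc e1).2.symm, (H1.app_snoc e1).1⟩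
  · exact absurd (H1.node_inj e).1 w.pS.1

/-- the conclusion -/
def Con (q : ℕ) (R B S R' B' S' : BinaryTree Unit) : Prop :=
  ∃ Y, (Y = R ∨ (B = .nil ∧ Y = S)) ∧ Hit q R' B' S' Y

theorem fin1 {Z : BinaryTree Unit} {l' : List (BinaryTree Unit)} (hl : l' = comps Z)
    (h : comps R = l' ∨ (B = .nil ∧ comps S = l')) (hit : Hit q R' B' S' Z) :
    Con q R B S R' B' S' := by
  refine ⟨Z, ?_, hit⟩
  rcases h with h | ⟨hB, h⟩
  · exact Or.inl (comps_inj (h.trans hl)).symm
  · exact Or.inr ⟨hB, (comps_inj (h.trans hl)).symm⟩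

/-! ### The window words -/

theorem ch1 (q : ℕ) : H1.ch (q + 1) = H1.ch q △ .nil := rfl

/-- word 0 -/
theorem ww0 (h : SqD k R B S) (w : WD R' B' S') {i : ℕ} (hi : i < 20)
    (e : H1.W R .nil B S i = H1.W R' (H1.ch (q + 1)) B' S' 0) : False := by
  obtain ⟨x, l, ex, px⟩ := fst_pu w.pR.1 w.fR w.cR
  have pc := pu_ch q
  have e' : comps (H1.W R .nil B S i) = comps R' ++ [H1.ch (q + 2)] := by
    rw [e]; change comps (app R' _) = _; rw [comps_app]; rfl
  refine clsO h hi e' (x := x) (l1 := l ++ [H1.ch (q + 2)]) (l2 := comps R') (y := H1.ch (q + 2))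
    (by rw [ex]; rfl) rfl (by simp) ?_ ?_ (fun S0 _ => px.x S0) (fun B0 _ => pc.y B0)
  · simp only [List.mem_append, List.mem_singleton, not_or]
    exact ⟨w.fR.nil_mem, fun h => pc.1 h.symm⟩
  · simp only [List.mem_append, List.mem_singleton, not_or]
    exact ⟨w.fR.one_mem, fun h => pc.2.1 h.symm⟩

/-- words 1, 2, 3 -/
theorem ww123 (h : SqD k R B S) (w : WD R' B' S') {i j : ℕ} (hi : i < 20) (hj : j = 1 ∨ j = 2 ∨ j = 3)
    (e : H1.W R .nil B S i = H1.W R' (H1.ch (q + 1)) B' S' j) : False := by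
  rcases hj with rfl | rfl | rfl
  · have e' : H1.W R .nil B S i = fm 1 (app R' (.nil △ (H1.ch q △ .nil))) := by
      rw [e]
      change app R' (.nil △ app (H1.ch q △ .nil) (.nil △ .nil)) = app (app R' _) _
      rw [H1.app_assoc]
      rfl
    obtain ⟨a, ha, _, e2, _⟩ := h.fmX hi (by norm_num) e'
    exact hdA h w ha e2
  · have e' : H1.W R .nil B S i = fm 0 (app R' (.nil △ (H1.ch q △ .nil))) := e
    obtain ⟨a, ha, _, e2, _⟩ := h.fmX hi (by norm_num) e'
    exact hdA h w ha e2
  · have e' : H1.W R .nil B S i = fm 2 (app R' (.nil △ (H1.ch q △ .nil))) := e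
    obtain ⟨a, ha, _, e2, _⟩ := h.fmX hi (by norm_num) e'
    exact hdA h w ha e2

/-- word 4 -/
theorem ww4 (h : SqD k R B S) (w : WD R' B' S') {i : ℕ} (hi : i < 20)
    (e : H1.W R .nil B S i = H1.W R' (H1.ch (q + 1)) B' S' 4) : False := by
  obtain ⟨l, y, ey, py⟩ := lst_pu w.pR.1 w.fR w.cR
  have e' : comps (H1.W R .nil B S i) = (H1.ch q △ (.nil △ .nil)) :: comps R' := by
    rw [e]; rfl
  refine clsO h hi e' (x := H1.ch q △ (.nil △ .nil)) (l1 := comps R')
    (l2 := (H1.ch q △ (.nil △ .nil)) :: l) (y := y) rfl (by rw [ey]; rfl) (by rw [ey]; simp)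
    ?_ ?_ ?_ (fun B0 _ => py.y B0)
  · simp only [List.mem_cons, not_or]
    exact ⟨by simp, w.fR.nil_mem⟩
  · simp only [List.mem_cons, not_or]
    exact ⟨fun h => by simpa using (H1.node_inj h).2, w.fR.one_mem⟩
  · intro S0 h0 e0
    have e1 := (H1.node_inj e0).2
    rw [← e1] at h0
    exact absurd rfl (ne_nil_node h0 (Y := .nil))

/-- word 5 -/
theorem ww5 (h : SqD k R B S) (w : WD R' B' S') {i : ℕ} (hi : i < 20)
    (e : H1.W R .nil B S i = H1.W R' (H1.ch (q + 1)) B' S' 5) : False := by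
  obtain ⟨l, y, ey, py⟩ := lst_pu w.pR.1 w.fR w.cR
  have e' : comps (H1.W R .nil B S i) = (H1.ch q △ .nil) :: .nil :: comps R' := by
    rw [e]; rfl
  obtain ⟨_, e2⟩ := clsN h hi e' (x := H1.ch q △ .nil) (l1 := .nil :: comps R')
    (l2 := (H1.ch q △ .nil) :: .nil :: l) (y := y) rfl (by rw [ey]; rfl) (by simp) py.1
    (a := [H1.ch q △ .nil]) (b := comps R') rfl (by simp)
  apply w.fR.nil_mem
  rw [e2]
  simp

/-- word 6 -/
theorem ww6 (h : SqD k R B S) (w : WD R' B' S') {i : ℕ} (hi : i < 20)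
    (e : H1.W R .nil B S i = H1.W R' (H1.ch (q + 1)) B' S' 6) : Con q R B S R' B' S' := by
  have pR := w.pR
  have e' : comps (H1.W R .nil B S i) = [R', H1.ch (q + 1)] := by
    rw [e]; rfl
  have hq : H1.ch (q + 1) = .nil △ .nil ∧ q = 0 ∨ Pu (H1.ch (q + 1)) := by
    cases q with
    | zero => exact Or.inl ⟨rfl, rfl⟩
    | succ q => exact Or.inr (pu_ch q)
  have n0 : BinaryTree.nil ∉ [R', H1.ch (q + 1)] := by
    simp only [List.mem_cons, List.not_mem_nil, or_false, not_or]
    exact ⟨fun h => pR.1 h.symm, by rw [ch1]; simp⟩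
  obtain ⟨l', h1, h2⟩ := clsA h hi e' (x := R') (l1 := [H1.ch (q + 1)]) (l2 := [R'])
    (y := H1.ch (q + 1)) rfl rfl (by simp) n0 (Or.inr fun S0 _ => pR.x S0)
    (by
      rcases hq with ⟨hq, _⟩ | hq
      · exact Or.inl hq
      · exact Or.inr fun B0 _ => hq.y B0)
    (by
      rcases hq with ⟨hq, _⟩ | hq
      · exact Or.inr (Or.inr ⟨hq, by
          simp only [List.mem_singleton]
          exact fun h => pR.2.1 h.symm⟩)
      · left
        simp only [List.mem_cons, List.not_mem_nil, or_false, not_or]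
        exact ⟨fun h => pR.2.1 h.symm, fun h => hq.2.1 h.symm⟩)
  rcases h1 with ⟨h1, h3⟩ | ⟨h1, _⟩
  · rcases hq with ⟨_, hq⟩ | hq
    · exact fin1 (Z := R' △ .nil) h3 h2 (Or.inl ⟨hq, Or.inl rfl⟩)
    · exact absurd h1 hq.2.1
  · exact absurd h1 pR.2.1

/-- the chain `ch q`, `q >= 1` -/
theorem chq (hq : 1 ≤ q) : H1.ch q ≠ .nil ∧ (H1.ch q = .nil △ .nil ∧ q = 1 ∨ Pu (H1.ch q)) := by
  match q, hq with
  | 1, _ => exact ⟨by simp [H1.ch], Or.inl ⟨rfl, rfl⟩⟩
  | q + 2, _ => exact ⟨(pu_ch q).1, Or.inr (pu_ch q)⟩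

/-- two components `[ch q, y]`, `q >= 1` -/
theorem two1 (h : SqD k R B S) (w : WD R' B' S') (hq : 1 ≤ q) {i : ℕ} (hi : i < 20)
    {y : BinaryTree Unit} (e : comps (H1.W R .nil B S i) = [H1.ch q, y]) (y0 : y ≠ .nil)
    (y1 : y ≠ .nil △ .nil)
    (yy : ∀ B0, (cont B0).count 1 = 0 → y = app B0 (.nil △ .nil) → B0 = .nil) :
    q = 1 ∧ (R = y △ .nil ∨ (B = .nil ∧ S = y △ .nil)) := by
  obtain ⟨c0, c1⟩ := chq hq
  obtain ⟨l', h1, h2⟩ := clsA h hi e (x := H1.ch q) (l1 := [y]) (l2 := [H1.ch q])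
    (y := y) rfl rfl (by simp)
    (by
      simp only [List.mem_cons, List.not_mem_nil, or_false, not_or]
      exact ⟨fun h => c0 h.symm, fun h => y0 h.symm⟩)
    (by
      rcases c1 with ⟨hq, _⟩ | hq
      · exact Or.inl hq
      · exact Or.inr fun S0 _ => hq.x S0)
    (Or.inr yy)
    (by
      rcases c1 with ⟨hq, _⟩ | hq
      · exact Or.inr (Or.inl ⟨hq, by
          simp only [List.mem_singleton]
          exact fun h => y1 h.symm⟩)
      · left
        simp only [List.mem_cons, List.not_mem_nil, or_false, not_or]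
        exact ⟨fun h => hq.2.1 h.symm, fun h => y1 h.symm⟩)
  rcases h1 with ⟨h1, _⟩ | ⟨h1, h3⟩
  · exact absurd h1 y1
  · rcases c1 with ⟨_, c1⟩ | c1
    · refine ⟨c1, ?_⟩
      have e3 : l' = comps (y △ .nil) := h3
      rcases h2 with h2 | ⟨hB, h2⟩
      · exact Or.inl (comps_inj (h2.trans e3))
      · exact Or.inr ⟨hB, comps_inj (h2.trans e3)⟩
    · exact absurd h1 c1.2.1

/-- two components `[x, ch q]`, `q >= 1` -/
theorem two2 (h : SqD k R B S) (w : WD R' B' S') (hq : 1 ≤ q) {i : ℕ} (hi : i < 20)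
    {x : BinaryTree Unit} (e : comps (H1.W R .nil B S i) = [x, H1.ch q]) (x0 : x ≠ .nil)
    (x1 : x ≠ .nil △ .nil)
    (xx : ∀ S0, (cont S0).count 1 = 0 → x = .nil △ S0 → S0 = .nil) :
    q = 1 ∧ (R = x △ .nil ∨ (B = .nil ∧ S = x △ .nil)) := by
  obtain ⟨c0, c1⟩ := chq hq
  obtain ⟨l', h1, h2⟩ := clsA h hi e (x := x) (l1 := [H1.ch q]) (l2 := [x])
    (y := H1.ch q) rfl rfl (by simp)
    (by
      simp only [List.mem_cons, List.not_mem_nil, or_false, not_or]
      exact ⟨fun h => x0 h.symm, fun h => c0 h.symm⟩)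
    (Or.inr xx)
    (by
      rcases c1 with ⟨hq, _⟩ | hq
      · exact Or.inl hq
      · exact Or.inr fun B0 _ => hq.y B0)
    (by
      rcases c1 with ⟨hq, _⟩ | hq
      · exact Or.inr (Or.inr ⟨hq, by
          simp only [List.mem_singleton]
          exact fun h => x1 h.symm⟩)
      · left
        simp only [List.mem_cons, List.not_mem_nil, or_false, not_or]
        exact ⟨fun h => x1 h.symm, fun h => hq.2.1 h.symm⟩)
  rcases h1 with ⟨h1, h3⟩ | ⟨h1, _⟩
  · rcases c1 with ⟨_, c1⟩ | c1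
    · refine ⟨c1, ?_⟩
      have e3 : l' = comps (x △ .nil) := h3
      rcases h2 with h2 | ⟨hB, h2⟩
      · exact Or.inl (comps_inj (h2.trans e3))
      · exact Or.inr ⟨hB, comps_inj (h2.trans e3)⟩
    · exact absurd h1 c1.2.1
  · exact absurd h1 x1

/-- from a head -/
theorem fin2 {P : BinaryTree Unit} (h : P = R ∨ (B = .nil ∧ P = S)) (hit : Hit q R' B' S' P) :
    Con q R B S R' B' S' := ⟨P, h, hit⟩

theorem fin3 {P : BinaryTree Unit} (h : R = P ∨ (B = .nil ∧ S = P)) (hit : Hit q R' B' S' P) :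
    Con q R B S R' B' S' := by
  rcases h with h | ⟨hB, h⟩
  · exact ⟨P, Or.inl h.symm, hit⟩
  · exact ⟨P, Or.inr ⟨hB, h.symm⟩, hit⟩

/-- no component `()X` in a word without part 1 -/
theorem no_pre (h1 : (cont R).count 1 = 0) {X : BinaryTree Unit} (hX : X ≠ .nil)
    (e : R = (.nil △ X) △ .nil) : False := by
  have hm : (BinaryTree.nil △ X) ∈ comps R := by rw [e]; simp [comps]
  rcases inn h1 hm with h3 | h3
  · exact hX (H1.node_inj h3).2
  · exact absurd rfl (ne_nil_node h3 (Y := X))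

theorem yR (w : WD R' B' S') : ∀ B0, (cont B0).count 1 = 0 →
    .nil △ R' = app B0 (.nil △ .nil) → B0 = .nil := by
  intro B0 _ e
  obtain ⟨l, y, ey, py⟩ := lst_pu w.pR.1 w.fR w.cR
  have e1 := congrArg comps e
  rw [comps_app] at e1
  change BinaryTree.nil :: comps R' = comps B0 ++ [.nil] at e1
  rw [ey] at e1
  have e2 : (BinaryTree.nil :: l) ++ [y] = comps B0 ++ [.nil] := e1
  exact absurd (last_eq e2).2 py.1

/-- word 7 -/
theorem ww7 (h : SqD k R B S) (w : WD R' B' S') {i : ℕ} (hi : i < 20)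
    (e : H1.W R .nil B S i = H1.W R' (H1.ch (q + 1)) B' S' 7) : False := by
  have hR := w.pR.1
  have nn : (BinaryTree.nil △ R' : BinaryTree Unit) ≠ .nil := by simp
  rcases Nat.eq_zero_or_pos q with rfl | hq
  · have e' : H1.W R .nil B S i = fm 0 ((.nil △ R') △ .nil) := e
    obtain ⟨a, ha, ha5, e2, _⟩ := h.fmX hi (by norm_num) e'
    rcases hdP h nn ha ha5 e2 with h1 | ⟨_, h1⟩
    · exact ne_nil_node h.one h1.symm
    · exact ne_nil_node h.oneS h1.symm
  · have e' : comps (H1.W R .nil B S i) = [H1.ch q, .nil △ R'] := by rw [e]; rfl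
    rcases (two1 h w hq hi e' nn (fun h => hR (H1.node_inj h).2) (yR w)).2 with h1 | ⟨_, h1⟩
    · exact no_pre h.one hR h1
    · exact no_pre h.oneS hR h1

/-- word 8 -/
theorem ww8 (h : SqD k R B S) (w : WD R' B' S') {i : ℕ} (hi : i < 20)
    (e : H1.W R .nil B S i = H1.W R' (H1.ch (q + 1)) B' S' 8) : Con q R B S R' B' S' := by
  rcases Nat.eq_zero_or_pos q with rfl | hq
  · have e' : H1.W R .nil B S i = fm 0 (.nil △ (R' △ .nil)) := e
    obtain ⟨a, ha, ha5, e2, _⟩ := h.fmX hi (by norm_num) e'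
    exact fin2 (hdN h (by simp) ha ha5 e2) (Or.inl ⟨rfl, Or.inl rfl⟩)
  · exfalso
    have e' : comps (H1.W R .nil B S i) = [H1.ch q, .nil, R'] := by rw [e]; rfl
    obtain ⟨_, e2⟩ := clsN h hi e' (x := H1.ch q) (l1 := [.nil, R']) (l2 := [H1.ch q, .nil])
      (y := R') rfl rfl (chq hq).1 w.pR.1 (a := [H1.ch q]) (b := [R']) rfl
      (by simp only [List.mem_singleton]; exact fun h => (chq hq).1 h.symm)
    rw [List.cons.injEq] at e2
    exact w.pR.1 e2.1

/-- word 9 -/
theorem ww9 (h : SqD k R B S) (w : WD R' B' S') {i : ℕ} (hi : i < 20)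
    (e : H1.W R .nil B S i = H1.W R' (H1.ch (q + 1)) B' S' 9) : Con q R B S R' B' S' := by
  have hR := w.pR.1
  have nn : (R' △ BinaryTree.nil : BinaryTree Unit) ≠ .nil := by simp
  rcases Nat.eq_zero_or_pos q with rfl | hq
  · have e' : H1.W R .nil B S i = fm 1 ((R' △ .nil) △ .nil) := e
    obtain ⟨a, ha, ha5, e2, _⟩ := h.fmX hi (by norm_num) e'
    exact fin2 (hdP h nn ha ha5 e2) (Or.inl ⟨rfl, Or.inl rfl⟩)
  · have e' : comps (H1.W R .nil B S i) = [R' △ .nil, H1.ch q] := by rw [e]; rfl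
    obtain ⟨rfl, h1⟩ := two2 h w hq hi e' nn (fun h => hR (H1.node_inj h).1)
      (fun S0 _ h0 => (H1.node_inj h0).2.symm)
    exact fin3 h1 (Or.inr ⟨rfl, Or.inl rfl⟩)

/-- word 10 -/
theorem ww10 (h : SqD k R B S) (w : WD R' B' S') {i : ℕ} (hi : i < 20)
    (e : H1.W R .nil B S i = H1.W R' (H1.ch (q + 1)) B' S' 10) : False := by
  obtain ⟨l, y, ey, py⟩ := lst_pu w.pS.1 w.fS w.cS
  have pc := pu_ch q
  have e' : comps (H1.W R .nil B S i) = comps B' ++ H1.ch (q + 2) :: comps S' := by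
    rw [e]; change comps (app B' _) = _; rw [comps_app]; rfl
  have hx : ∃ x l1, comps B' ++ H1.ch (q + 2) :: comps S' = x :: l1 ∧ Pu x ∧ l1 ≠ [] := by
    by_cases hB : B' = .nil
    · subst hB
      exact ⟨_, _, rfl, pc, by rw [ey]; simp⟩
    · obtain ⟨x, l0, ex, px⟩ := fst_pu hB w.fB w.cB
      exact ⟨x, l0 ++ H1.ch (q + 2) :: comps S', by rw [ex]; rfl, px, by simp⟩
  obtain ⟨x, l1, ex, px, hl1⟩ := hx
  refine clsO h hi e' (l2 := comps B' ++ H1.ch (q + 2) :: l) (y := y) ex (by rw [ey]; simp) hl1 ?_ ?_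
    (fun S0 _ => px.x S0) (fun B0 _ => py.y B0)
  · simp only [List.mem_append, List.mem_cons, not_or]
    exact ⟨w.fB.nil_mem, fun h => pc.1 h.symm, w.fS.nil_mem⟩
  · simp only [List.mem_append, List.mem_cons, not_or]
    exact ⟨w.fB.one_mem, fun h => pc.2.1 h.symm, w.fS.one_mem⟩

/-- word 11 -/
theorem ww11 (h : SqD k R B S) (w : WD R' B' S') {i : ℕ} (hi : i < 20)
    (e : H1.W R .nil B S i = H1.W R' (H1.ch (q + 1)) B' S' 11) : False := by
  by_cases hB : B' = .nil
  · subst hB
    have e' : H1.W R .nil B S i = fm 0 (H1.ch q △ (.nil △ S')) := e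
    obtain ⟨a, ha, _, e2, _⟩ := h.fmX hi (by norm_num) e'
    exact hdQ h w ha e2
  · obtain ⟨l, y, ey, py⟩ := lst_pu w.pS.1 w.fS w.cS
    obtain ⟨x, l0, ex, px⟩ := fst_pu hB w.fB w.cB
    have e' : comps (H1.W R .nil B S i) = comps B' ++ .nil :: H1.ch q :: .nil :: comps S' := by
      rw [e]; change comps (app B' _) = _; rw [comps_app]; rfl
    obtain ⟨_, e2⟩ := clsN h hi e' (x := x) (l1 := l0 ++ .nil :: H1.ch q :: .nil :: comps S')
      (l2 := comps B' ++ .nil :: H1.ch q :: .nil :: l) (y := y) (by rw [ex]; rfl)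
      (by rw [ey]; simp) px.1 py.1 rfl w.fB.nil_mem
    rw [List.cons.injEq] at e2
    apply nil_mem h.oneS
    rw [← e2.2]
    simp

/-- word 12 -/
theorem ww12 (h : SqD k R B S) (w : WD R' B' S') {i : ℕ} (hi : i < 20)
    (e : H1.W R .nil B S i = H1.W R' (H1.ch (q + 1)) B' S' 12) : Con q R B S R' B' S' := by
  rcases Nat.eq_zero_or_pos q with rfl | hq
  · have e' : H1.W R .nil B S i = fm 1 (S' △ app B' (.nil △ .nil)) := by
      rw [e]
      change S' △ app B' (.nil △ (.nil △ .nil)) = S' △ app (app B' (.nil △ .nil)) (.nil △ .nil)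
      rw [H1.app_assoc]
      rfl
    obtain ⟨a, ha, ha5, e2, _⟩ := h.fmX hi (by norm_num) e'
    exact fin2 (hdL h w ha e2) (Or.inl ⟨rfl, Or.inr (Or.inl rfl)⟩)
  · exfalso
    have e' : comps (H1.W R .nil B S i) = (S' :: comps B') ++ .nil :: [H1.ch q] := by
      rw [e]; change S' :: comps (app B' _) = _; rw [comps_app]; rfl
    obtain ⟨_, e2⟩ := clsN h hi e' (x := S') (l1 := comps B' ++ [.nil, H1.ch q])
      (l2 := S' :: (comps B' ++ [.nil])) (y := H1.ch q) rfl (by simp) w.pS.1 (chq hq).1 rfl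
      (by
        simp only [List.mem_cons, not_or]
        exact ⟨fun h => w.pS.1 h.symm, w.fB.nil_mem⟩)
    rw [List.cons.injEq] at e2
    exact comps_ne h.neS e2.2.symm

/-- word 13 -/
theorem ww13 (h : SqD k R B S) (w : WD R' B' S') {i : ℕ} (hi : i < 20)
    (e : H1.W R .nil B S i = H1.W R' (H1.ch (q + 1)) B' S' 13) : False := by
  obtain ⟨x, l, ex, px⟩ := fst_pu w.pS.1 w.fS w.cS
  have e' : comps (H1.W R .nil B S i) = comps S' ++ [app B' (.nil △ (H1.ch q △ .nil))] := by
    rw [e]; change comps (app S' _) = _; rw [comps_app]; rfl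
  have y0 : app B' (.nil △ (H1.ch q △ .nil)) ≠ .nil := H1.app_ne (by simp)
  have y1 : app B' (.nil △ (H1.ch q △ .nil)) ≠ .nil △ .nil := by
    intro h
    have := congrArg H1.len h
    rw [H1.len_app] at this
    simp [H1.len] at this
  refine clsO h hi e' (x := x) (l1 := l ++ [app B' (.nil △ (H1.ch q △ .nil))]) (l2 := comps S')
    (y := app B' (.nil △ (H1.ch q △ .nil))) (by rw [ex]; rfl) rfl (by simp) ?_ ?_
    (fun S0 _ => px.x S0) ?_
  · simp only [List.mem_append, List.mem_singleton, not_or]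
    exact ⟨w.fS.nil_mem, fun h => y0 h.symm⟩
  · simp only [List.mem_append, List.mem_singleton, not_or]
    exact ⟨w.fS.one_mem, fun h => y1 h.symm⟩
  · intro B0 h0 e0
    have e1 : app (app B' (.nil △ .nil)) (H1.ch q △ .nil) = app B0 (.nil △ .nil) := by
      rw [← e0, H1.app_assoc]; rfl
    have e2 := (H1.app_snoc e1).1
    exact absurd e2.symm (ne_app_lf h0)

/-- word 14 -/
theorem ww14 (h : SqD k R B S) (w : WD R' B' S') {i : ℕ} (hi : i < 20)
    (e : H1.W R .nil B S i = H1.W R' (H1.ch (q + 1)) B' S' 14) : False := by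
  by_cases hB : B' = .nil
  · subst hB
    have e' : H1.W R .nil B S i = fm 2 (H1.ch q △ (.nil △ S')) := e
    obtain ⟨a, ha, _, e2, _⟩ := h.fmX hi (by norm_num) e'
    exact hdQ h w ha e2
  · obtain ⟨l, y, ey, py⟩ := lst_pu hB w.fB w.cB
    have e' : comps (H1.W R .nil B S i) = (H1.ch q △ (.nil △ S')) :: comps B' := by
      rw [e]; rfl
    refine clsO h hi e' (x := H1.ch q △ (.nil △ S')) (l1 := comps B')
      (l2 := (H1.ch q △ (.nil △ S')) :: l) (y := y) rfl (by rw [ey]; rfl) (by rw [ey]; simp)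
      ?_ ?_ ?_ (fun B0 _ => py.y B0)
    · simp only [List.mem_cons, not_or]
      exact ⟨by simp, w.fB.nil_mem⟩
    · simp only [List.mem_cons, not_or]
      exact ⟨fun h => by simpa using (H1.node_inj h).2, w.fB.one_mem⟩
    · intro S0 h0 e0
      have e1 := (H1.node_inj e0).2
      rw [← e1] at h0
      exact absurd rfl (ne_nil_node h0 (Y := S'))

/-- word 15 -/
theorem ww15 (h : SqD k R B S) (w : WD R' B' S') {i : ℕ} (hi : i < 20)
    (e : H1.W R .nil B S i = H1.W R' (H1.ch (q + 1)) B' S' 15) : Con q R B S R' B' S' := by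
  have pS := w.pS
  have e' : comps (H1.W R .nil B S i) = H1.ch (q + 1) :: S' :: comps B' := by
    rw [e]; rfl
  have hq : H1.ch (q + 1) = .nil △ .nil ∧ q = 0 ∨ Pu (H1.ch (q + 1)) := by
    cases q with
    | zero => exact Or.inl ⟨rfl, rfl⟩
    | succ q => exact Or.inr (pu_ch q)
  have hy : ∃ l2 y, H1.ch (q + 1) :: S' :: comps B' = l2 ++ [y] ∧ Pu y := by
    by_cases hB : B' = .nil
    · subst hB
      exact ⟨[H1.ch (q + 1)], S', rfl, pS⟩
    · obtain ⟨l, y, ey, py⟩ := lst_pu hB w.fB w.cB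
      exact ⟨H1.ch (q + 1) :: S' :: l, y, by rw [ey]; rfl, py⟩
  obtain ⟨l2, y, ey, py⟩ := hy
  have n1 : (BinaryTree.nil △ BinaryTree.nil) ∉ S' :: comps B' := by
    simp only [List.mem_cons, not_or]
    exact ⟨fun h => pS.2.1 h.symm, w.fB.one_mem⟩
  obtain ⟨l', h1, h2⟩ := clsA h hi e' (x := H1.ch (q + 1)) (l1 := S' :: comps B') (l2 := l2)
    (y := y) rfl ey (by simp)
    (by
      simp only [List.mem_cons, not_or]
      exact ⟨by rw [ch1]; simp, fun h => pS.1 h.symm, w.fB.nil_mem⟩)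
    (by
      rcases hq with ⟨hq, _⟩ | hq
      · exact Or.inl hq
      · exact Or.inr fun S0 _ => hq.x S0)
    (Or.inr fun B0 _ => py.y B0)
    (by
      rcases hq with ⟨hq, _⟩ | hq
      · exact Or.inr (Or.inl ⟨hq, n1⟩)
      · left
        rw [List.mem_cons, not_or]
        exact ⟨fun h => hq.2.1 h.symm, n1⟩)
  rcases h1 with ⟨h1, _⟩ | ⟨h1, h3⟩
  · exact absurd h1 py.2.1
  · rcases hq with ⟨_, hq⟩ | hq
    · exact fin1 (Z := S' △ B') h3 h2 (Or.inl ⟨hq, Or.inr (Or.inl rfl)⟩)
    · exact absurd h1 hq.2.1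

/-- word 16 -/
theorem ww16 (h : SqD k R B S) (w : WD R' B' S') {i : ℕ} (hi : i < 20)
    (e : H1.W R .nil B S i = H1.W R' (H1.ch (q + 1)) B' S' 16) : Con q R B S R' B' S' := by
  obtain ⟨x, l, ex, px⟩ := fst_pu w.pS.1 w.fS w.cS
  have e' : comps (H1.W R .nil B S i) = comps S' ++ [B', H1.ch (q + 1)] := by
    rw [e]; change comps (app S' _) = _; rw [comps_app]; rfl
  by_cases hB : B' = .nil
  · exfalso
    subst hB
    obtain ⟨_, e2⟩ := clsN h hi e' (x := x) (l1 := l ++ [.nil, H1.ch (q + 1)])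
      (l2 := comps S' ++ [.nil]) (y := H1.ch (q + 1)) (by rw [ex]; rfl) (by simp) px.1
      (by rw [ch1]; simp) (a := comps S') (b := [H1.ch (q + 1)]) rfl w.fS.nil_mem
    rw [List.cons.injEq] at e2
    exact comps_ne h.neS e2.2.symm
  · have hq : H1.ch (q + 1) = .nil △ .nil ∧ q = 0 ∨ Pu (H1.ch (q + 1)) := by
      cases q with
      | zero => exact Or.inl ⟨rfl, rfl⟩
      | succ q => exact Or.inr (pu_ch q)
    have hB1 : B' ≠ .nil △ .nil := by
      intro h
      have := w.cB
      rw [h] at this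
      exact absurd rfl (ne_nil_node this (Y := .nil))
    have n1 : (BinaryTree.nil △ BinaryTree.nil) ∉ comps S' ++ [B'] := by
      simp only [List.mem_append, List.mem_singleton, not_or]
      exact ⟨w.fS.one_mem, fun h => hB1 h.symm⟩
    obtain ⟨l', h1, h2⟩ := clsA h hi e' (x := x) (l1 := l ++ [B', H1.ch (q + 1)])
      (l2 := comps S' ++ [B']) (y := H1.ch (q + 1)) (by rw [ex]; rfl) (by simp) (by simp)
      (by
        simp only [List.mem_append, List.mem_cons, List.not_mem_nil, or_false, not_or]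
        exact ⟨w.fS.nil_mem, fun h => hB h.symm, by rw [ch1]; simp⟩)
      (Or.inr fun S0 _ => px.x S0)
      (by
        rcases hq with ⟨hq, _⟩ | hq
        · exact Or.inl hq
        · exact Or.inr fun B0 _ => hq.y B0)
      (by
        rcases hq with ⟨hq, _⟩ | hq
        · exact Or.inr (Or.inr ⟨hq, n1⟩)
        · left
          have e3 : comps S' ++ [B', H1.ch (q + 1)] = (comps S' ++ [B']) ++ [H1.ch (q + 1)] := by simp
          rw [e3, List.mem_append, not_or]
          exact ⟨n1, by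
            simp only [List.mem_singleton]
            exact fun h => hq.2.1 h.symm⟩)
    rcases h1 with ⟨h1, h3⟩ | ⟨h1, _⟩
    · rcases hq with ⟨_, hq⟩ | hq
      · refine fin1 (Z := app S' (B' △ .nil)) ?_ h2 (Or.inl ⟨hq, Or.inr (Or.inr rfl)⟩)
        rw [h3, comps_app]
        rfl
      · exact absurd h1 hq.2.1
    · exact absurd h1 px.2.1

/-- word 17 -/
theorem ww17 (h : SqD k R B S) (w : WD R' B' S') {i : ℕ} (hi : i < 20)
    (e : H1.W R .nil B S i = H1.W R' (H1.ch (q + 1)) B' S' 17) : Con q R B S R' B' S' := by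
  have hS := w.pS.1
  have nn : (S' △ B' : BinaryTree Unit) ≠ .nil := by simp
  rcases Nat.eq_zero_or_pos q with rfl | hq
  · have e' : H1.W R .nil B S i = fm 0 ((S' △ B') △ .nil) := e
    obtain ⟨a, ha, ha5, e2, _⟩ := h.fmX hi (by norm_num) e'
    exact fin2 (hdP h nn ha ha5 e2) (Or.inl ⟨rfl, Or.inr (Or.inl rfl)⟩)
  · have e' : comps (H1.W R .nil B S i) = [H1.ch q, S' △ B'] := by rw [e]; rfl
    have yy : ∀ B0, (cont B0).count 1 = 0 → S' △ B' = app B0 (.nil △ .nil) → B0 = .nil := by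
      intro B0 _ e0
      exfalso
      by_cases hB : B' = .nil
      · subst hB
        have e1 : app .nil (S' △ .nil) = app B0 (.nil △ .nil) := e0
        exact hS (H1.app_snoc e1).2
      · obtain ⟨Q', e1, _⟩ := lst_node hB e0
        exact ne_app_lf w.cB e1
    obtain ⟨rfl, h1⟩ := two1 h w hq hi e' nn (fun h => hS (H1.node_inj h).1) yy
    exact fin3 h1 (Or.inr ⟨rfl, Or.inr (Or.inl rfl)⟩)

/-- word 18 -/
theorem ww18 (h : SqD k R B S) (w : WD R' B' S') {i : ℕ} (hi : i < 20)
    (e : H1.W R .nil B S i = H1.W R' (H1.ch (q + 1)) B' S' 18) : Con q R B S R' B' S' := by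
  rcases Nat.eq_zero_or_pos q with rfl | hq
  · have e' : H1.W R .nil B S i = fm 0 (.nil △ app S' (B' △ .nil)) := e
    obtain ⟨a, ha, ha5, e2, _⟩ := h.fmX hi (by norm_num) e'
    exact fin2 (hdN h (H1.app_ne (by simp)) ha ha5 e2) (Or.inl ⟨rfl, Or.inr (Or.inr rfl)⟩)
  · exfalso
    by_cases hB : B' = .nil
    · subst hB
      have e' : H1.W R .nil B S i = fm 1 (H1.ch q △ (.nil △ S')) := e
      obtain ⟨a, ha, _, e2, _⟩ := h.fmX hi (by norm_num) e'
      exact hdQ h w ha e2
    · obtain ⟨x, l, ex, px⟩ := fst_pu w.pS.1 w.fS w.cS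
      have e' : comps (H1.W R .nil B S i) = [H1.ch q] ++ .nil :: (comps S' ++ [B']) := by
        rw [e]
        change H1.ch q :: .nil :: comps (app S' _) = _
        rw [comps_app]
        rfl
      obtain ⟨_, e2⟩ := clsN h hi e' (x := H1.ch q) (l1 := .nil :: (comps S' ++ [B']))
        (l2 := H1.ch q :: .nil :: comps S') (y := B') rfl (by simp) (chq hq).1 hB rfl
        (by simp only [List.mem_singleton]; exact fun h => (chq hq).1 h.symm)
      rw [ex, List.cons_append, List.cons.injEq] at e2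
      exact px.1 e2.1

/-- word 19 -/
theorem ww19 (h : SqD k R B S) (w : WD R' B' S') {i : ℕ} (hi : i < 20)
    (e : H1.W R .nil B S i = H1.W R' (H1.ch (q + 1)) B' S' 19) : Con q R B S R' B' S' := by
  obtain ⟨x, l, ex, px⟩ := fst_pu w.pS.1 w.fS w.cS
  have nn : app S' (B' △ .nil) ≠ .nil := H1.app_ne (by simp)
  rcases Nat.eq_zero_or_pos q with rfl | hq
  · have e' : H1.W R .nil B S i = fm 1 (app S' (B' △ .nil) △ .nil) := e
    obtain ⟨a, ha, ha5, e2, _⟩ := h.fmX hi (by norm_num) e'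
    exact fin2 (hdP h nn ha ha5 e2) (Or.inl ⟨rfl, Or.inr (Or.inr rfl)⟩)
  · have e' : comps (H1.W R .nil B S i) = [app S' (B' △ .nil), H1.ch q] := by rw [e]; rfl
    have key : ∀ S0, app S' (B' △ .nil) ≠ .nil △ S0 := by
      intro S0 h0
      have h1 := congrArg comps h0
      rw [comps_app, ex] at h1
      change _ = BinaryTree.nil :: comps S0 at h1
      rw [List.cons_append, List.cons.injEq] at h1
      exact px.1 h1.1
    obtain ⟨rfl, h1⟩ := two2 h w hq hi e' nn (key _) (fun S0 _ h0 => absurd h0 (key S0))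
    exact fin3 h1 (Or.inr ⟨rfl, Or.inr (Or.inr rfl)⟩)

/-- **all words `i, j < 20`, all `q`** -/
theorem win0 (h : SqD k R B S) (w : WD R' B' S') {i j : ℕ} (hi : i < 20) (hj : j < 20)
    (e : H1.W R .nil B S i = H1.W R' (H1.ch (q + 1)) B' S' j) : Con q R B S R' B' S' := by
  interval_cases j
  · exact absurd (ww0 h w hi e) id
  · exact absurd (ww123 h w hi (by simp) e) id
  · exact absurd (ww123 h w hi (by simp) e) id
  · exact absurd (ww123 h w hi (by simp) e) id
  · exact absurd (ww4 h w hi e) id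
  · exact absurd (ww5 h w hi e) id
  · exact ww6 h w hi e
  · exact absurd (ww7 h w hi e) id
  · exact ww8 h w hi e
  · exact ww9 h w hi e
  · exact absurd (ww10 h w hi e) id
  · exact absurd (ww11 h w hi e) id
  · exact ww12 h w hi e
  · exact absurd (ww13 h w hi e) id
  · exact absurd (ww14 h w hi e) id
  · exact ww15 h w hi e
  · exact ww16 h w hi e
  · exact ww17 h w hi e
  · exact ww18 h w hi e
  · exact ww19 h w hi e

end MV

end Pool.OddHC
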