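import Pool.Agent.Work.MP_8f87b2_h16.MVJ
import Pool.Agent.Work.MP_8f87b2_h4.J1J3V
import Pool.Agent.Work.MP_8f87b2_h84.TyJE
import Pool.Agent.Work.MP_8f87b2_h40.H2e

/-!
# JVm = `Is9M nil nil Z` against the families `H1.W R nil B S i` (J3V, J1), words (helper16)

`Is9M.meetM`: if `z = cyc (R(()))` is not in `F`, a common word implies: `Z = T^4 R`, or `i = 4`, `Z = (())Q`, `R = Q(())` (the word
is `(())R = Z(())`).
-/

set_option autoImplicit false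
set_option linter.unusedSimpArgs false
set_option linter.unusedVariables false

namespace Pool.OddHC

open Finset Equiv BinaryTree Pool.Agent.Work.MP_8f87b2_co J3

variable {k n : ℕ} {Z R B S : BinaryTree Unit} {F F' : Set (Cyc k)} {g g' : DG k}

namespace MV

/-- `Z = T^4 R` -/
def T4 (R Z : BinaryTree Unit) : Prop := ∃ (n : ℕ) (x : X n), x.1 = R ∧ (TT (TT (TT (TT x)))).1 = Z

theorem T4.one (h : T4 R Z) : ∃ (n : ℕ) (x y : OddHC.X n), x.1 = R ∧ y.1 = Z ∧ cyc x = cyc y := by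
  obtain ⟨n, x, h1, h2⟩ := h
  refine ⟨n, x, _, h1, h2, ?_⟩
  rw [cyc_eq]
  exact ⟨4, by simp [pow_succ]⟩

theorem T4.cont (h : T4 R Z) : OddHC.cont R = OddHC.cont Z := by
  obtain ⟨n, x, rfl, rfl⟩ := h
  rw [TT_apply, cont_TF, TT_apply, cont_TF, TT_apply, cont_TF, TT_apply, cont_TF]

/-- the mirrored square: `T^2 (AC) = Z`, `xTM Z = C(A)` -/
theorem sqM (hZ : Z ≠ .nil) {A C : BinaryTree Unit} (e : xTM Z = app C (A △ .nil))
    (x : OddHC.X Z.numNodes) (hx : x.1 = app A C) : (TT (TT x)).1 = Z := by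
  rw [xTM_eq] at e
  obtain ⟨e1, e2⟩ := H1.app_snoc e
  let z : OddHC.X Z.numNodes := ⟨Z, mem_treesOfNumNodesEq.2 rfl⟩
  have hm : (Tsq.mirX z).1 ≠ .nil := mir_ne hZ
  have h1 : (TT (TT (Tsq.mirX z))).1 = app (Tsq.sq (Tsq.mir Z)).2 (Tsq.sq (Tsq.mir Z)).1 :=
    Tsq.TT_sq _ hm
  have h2 : Tsq.mirX (TT (TT (Tsq.mirX z))) = x := by
    apply Subtype.ext
    rw [hx]
    change Tsq.mir (TT (TT (Tsq.mirX z))).1 = _
    rw [h1, Tsq.mir_app, e1, e2]
  rw [← h2, Tsq.TT_mir, Tsq.TT_mir]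
  exact Tsq.mir_mir Z

/-- heights in the mirrored square -/
theorem xTM_htC (hZ : 3 ≤ ht Z) {A C : BinaryTree Unit} (e : xTM Z = app C (A △ .nil)) :
    ht A = ht Z ∧ ht C ≤ ht Z := by
  have hne : Tsq.mir Z ≠ .nil := mir_ne (by rintro rfl; rw [ht] at hZ; omega)
  rw [xTM_eq] at e
  obtain ⟨rfl, rfl⟩ := H1.app_snoc e
  have h1 := ht_sq hne
  rw [ht_mir] at h1
  exact ⟨by rw [ht_mir]; exact h1.1, by rw [ht_mir]; exact h1.2⟩

end MV

namespace J3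

/-- `(R)`, `(S)B`, `S(B)` as mirrored squares of `Z` -/
theorem SqD.xM (h : SqD k R B S) (hZ : 3 ≤ OddHC.ht Z) (hn : Z.numNodes = R.numNodes) :
    (xTM Z = S △ B → MV.T4 R Z) ∧ (xTM Z = app S (B △ .nil) → MV.T4 R Z) := by
  have hZn : Z ≠ .nil := by
    rintro rfl
    rw [OddHC.ht] at hZ
    omega
  obtain ⟨A, C, e, -, -⟩ := MV.xTM_data hZ
  let x : X Z.numNodes := ⟨R, mem_treesOfNumNodesEq.2 hn.symm⟩
  have hx : (TT (TT x)).1 = app B S := by
    rw [Tsq.TT_sq x h.ne]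
    change app (Tsq.sq R).2 (Tsq.sq R).1 = _
    rw [h.sq]
  refine ⟨fun e1 => ?_, fun e1 => ?_⟩
  · rw [e] at e1
    obtain ⟨hA, hC⟩ := MV.xTM_htC hZ e
    cases C with
    | nil =>
      obtain ⟨rfl, rfl⟩ := H1.node_inj (show A △ .nil = S △ B from e1)
      exact ⟨_, x, rfl, MV.sqM hZn e _ (by rw [hx, H1.app_nil]; rfl)⟩
    | node _ D E =>
      exfalso
      obtain ⟨e2, e3⟩ := H1.node_inj (show D △ app E (A △ .nil) = S △ B from e1)
      have h1 := h.htB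
      have h2 := h.htS
      rw [OddHC.ht_node, e2] at hC
      rw [← e3, OddHC.ht_app, OddHC.ht_node] at h1
      omega
  · rw [e] at e1
    obtain ⟨rfl, rfl⟩ := H1.app_snoc e1
    exact ⟨_, x, rfl, MV.sqM hZn e _ hx⟩

/-- **the common words of JVm and `W R nil B S`** -/
theorem SqD.meetM0 (h : SqD k R B S) (hz : SqD k Z (Tsq.sq Z).2 (Tsq.sq Z).1) {i j : ℕ}
    (hi : i < 20) (hj : j < 9) (e : H1.W R .nil B S i = MV.W Z (xTM Z) j) :
    R = Z ∨ (B = .nil ∧ Z = S) ∨ (j < 2 ∧ (i = 0 ∨ i = 10)) ∨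
    (i = 4 ∧ j = 1 ∧ ∃ Q, Z = (.nil △ .nil) △ Q ∧ R = app Q ((.nil △ .nil) △ .nil)) ∨
    xTM Z = R △ .nil ∨ xTM Z = S △ B ∨ xTM Z = app S (B △ .nil) := by
  have m := MV.MF.of hz.h3 hz.one
  have hX0 := m.oX
  have big : ∀ Y, Y = Z △ .nil → ∀ a < 6, (a = 5 → B = .nil) → Y = sx R B S a →
      R = Z ∨ (B = .nil ∧ Z = S) := by
    rintro Y rfl a ha h5 e1
    interval_cases a
    · exact absurd e1.symm h.lenR
    · exact absurd (H1.node_inj e1).1 hz.ne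
    · exact Or.inl (H1.node_inj e1).1.symm
    · exact Or.inr ⟨(H1.node_inj e1).2.symm, (H1.node_inj e1).1⟩
    · exact absurd e1.symm h.lenS
    · exact absurd (H1.node_inj e1).1 hz.ne
  have bigX : ∀ a < 6, (a = 5 → B = .nil) → xTM Z = sx R B S a →
      xTM Z = R △ .nil ∨ xTM Z = S △ B ∨ xTM Z = app S (B △ .nil) := by
    intro a ha h5 e1
    interval_cases a
    · exact absurd e1 (ne_app_lf hX0)
    · exact absurd e1 (ne_nil_node hX0)
    · exact Or.inl e1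
    · exact Or.inr (Or.inl e1)
    · exact Or.inr (Or.inr e1)
    · exact absurd e1 (ne_nil_node hX0)
  have up : ∀ {P : Prop}, R = Z ∨ (B = .nil ∧ Z = S) → R = Z ∨ (B = .nil ∧ Z = S) ∨ P := by
    rintro P (h1 | h1)
    · exact Or.inl h1
    · exact Or.inr (Or.inl h1)
  have up2 : ∀ {P Q P' Q' : Prop}, Q → P ∨ P' ∨ Q' ∨ (i = 4 ∧ j = 1 ∧ ∃ Q, Z = (.nil △ .nil) △ Q ∧ R = app Q ((.nil △ .nil) △ .nil)) ∨ Q :=
    fun h => Or.inr (Or.inr (Or.inr (Or.inr h)))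
  -- the class words
  have cls : ∀ b < 2, cx Z (Tsq.sq Z).2 (Tsq.sq Z).1 b = MV.W Z (xTM Z) j → b = 1 - j → j < 2 →
      R = Z ∨ (B = .nil ∧ Z = S) ∨ (j < 2 ∧ (i = 0 ∨ i = 10)) ∨
    (i = 4 ∧ j = 1 ∧ ∃ Q, Z = (.nil △ .nil) △ Q ∧ R = app Q ((.nil △ .nil) △ .nil)) ∨
    xTM Z = R △ .nil ∨ xTM Z = S △ B ∨ xTM Z = app S (B △ .nil) := by
    intro b hb eb hbj hj2
    rcases wcase R B S hi with ⟨Y, _, e1⟩ | hi'
    · exfalso
      rw [e] at e1
      have j2 : j = 0 ∨ j = 1 := by omega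
      rcases j2 with rfl | rfl
      · rcases e1 with e1 | e1 | e1
        · exact absurd (H1.node_inj e1).1 (by simp)
        · obtain ⟨Q', e2, _⟩ := lst_node hz.ne e1
          exact ne_app_lf hz.one e2
        · exact hz.ne (H1.node_inj e1).2
      · rcases e1 with e1 | e1 | e1
        · exact hz.appR e1
        · exact absurd (H1.app_snoc e1).2 (by simp)
        · exact hz.lenR e1
    · have key : ∃ a, a < 6 ∧ (4 ≤ a → B ≠ .nil) ∧ H1.W R .nil B S i = cx R B S a ∧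
          (a = 0 ∧ i = 0 ∨ a = 1 ∧ i = 4 ∨ a = 2 ∧ i = 10 ∨ 3 ≤ a) := by
        rcases hi' with rfl | rfl | rfl | rfl | ⟨rfl, hB⟩ | ⟨rfl, hB⟩
        · exact ⟨0, by norm_num, by simp, rfl, by simp⟩
        · exact ⟨1, by norm_num, by simp, rfl, by simp⟩
        · exact ⟨2, by norm_num, by simp, rfl, by simp⟩
        · exact ⟨3, by norm_num, by simp, rfl, by simp⟩
        · exact ⟨4, by norm_num, fun _ => hB, rfl, by simp⟩
        · exact ⟨5, by norm_num, fun _ => hB, rfl, by simp⟩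
      obtain ⟨a, ha, ha4, ea, ia⟩ := key
      have ee : cx Z (Tsq.sq Z).2 (Tsq.sq Z).1 b = cx R B S a := by rw [eb, ← e, ea]
      rcases Nat.lt_or_ge a b with hab | hab
      · -- a = 0, b = 1
        refine Or.inr (Or.inr (Or.inl ⟨hj2, Or.inl ?_⟩))
        omega
      · rcases cx_le2 hz h hab ha (by omega) ha4 ee with (h1 | ⟨h1, h2⟩) | ⟨h1, h2⟩
        · exact Or.inl h1.symm
        · exact Or.inr (Or.inl ⟨h1, h2⟩)
        · have j2 : j = 0 ∨ j = 1 := by omega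
          by_cases i4 : i = 4
          · subst i4
            have a1 : a = 1 := by omega
            have j1 : j = 1 := by omega
            subst j1
            have e2 : (.nil △ .nil) △ R = app Z ((.nil △ .nil) △ .nil) := e
            obtain ⟨Q, q1, q2⟩ := fst_app hz.ne e2.symm
            exact Or.inr (Or.inr (Or.inr (Or.inl ⟨rfl, rfl, Q, q1, q2⟩)))
          · refine Or.inr (Or.inr (Or.inl ⟨hj2, ?_⟩))
            omega
  have fm' : ∀ f < 3, ∀ Y, MV.W Z (xTM Z) j = fm f Y → ∃ a < 6, (a = 5 → B = .nil) ∧ Y = sx R B S a := by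
    intro f hf Y e1
    obtain ⟨a, ha, ha5, e2, _⟩ := h.fmX hi hf (e.trans e1)
    exact ⟨a, ha, ha5, e2⟩
  interval_cases j
  · exact cls 1 (by norm_num) rfl rfl (by norm_num)
  · exact cls 0 (by norm_num) rfl rfl (by norm_num)
  · obtain ⟨a, ha, h5, e1⟩ := fm' 2 (by norm_num) (app Z (.nil △ .nil)) rfl
    interval_cases a
    · exact Or.inl (H1.app_snoc e1).1.symm
    · exact absurd e1 hz.appR
    · exact absurd e1 hz.lenR
    · exact absurd e1.symm h.lstSB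
    · have e2 := H1.app_snoc e1
      exact Or.inr (Or.inl ⟨e2.2.symm, e2.1⟩)
    · exact absurd e1 hz.appR
  · obtain ⟨a, ha, h5, e1⟩ := fm' 2 (by norm_num) (Z △ .nil) rfl
    exact up (big _ rfl a ha h5 e1)
  · obtain ⟨a, ha, h5, e1⟩ := fm' 2 (by norm_num) (.nil △ Z) rfl
    interval_cases a
    · exact absurd e1.symm h.appR
    · exact Or.inl (H1.node_inj e1).2.symm
    · exact absurd (H1.node_inj e1).1.symm h.ne
    · exact absurd (H1.node_inj e1).1.symm h.neS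
    · exact absurd e1.symm h.appS
    · exact Or.inr (Or.inl ⟨h5 rfl, (H1.node_inj e1).2⟩)
  · obtain ⟨a, ha, h5, e1⟩ := fm' 0 (by norm_num) (Z △ .nil) rfl
    exact up (big _ rfl a ha h5 e1)
  · obtain ⟨a, ha, h5, e1⟩ := fm' 2 (by norm_num) (xTM Z) rfl
    exact Or.inr (Or.inr (Or.inr (Or.inr (bigX a ha h5 e1))))
  · obtain ⟨a, ha, h5, e1⟩ := fm' 0 (by norm_num) (xTM Z) rfl
    exact Or.inr (Or.inr (Or.inr (Or.inr (bigX a ha h5 e1))))
  · obtain ⟨a, ha, h5, e1⟩ := fm' 1 (by norm_num) (xTM Z) rfl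
    exact Or.inr (Or.inr (Or.inr (Or.inr (bigX a ha h5 e1))))

end J3

/-- the data of a JVm word without the part 1 -/
theorem Is9M.sqD (h : Is9M .nil .nil Z F g) (h3 : 3 ≤ OddHC.ht Z)
    (h1 : (OddHC.cont Z).count 1 = 0) : SqD k Z (Tsq.sq Z).2 (Tsq.sq Z).1 := by
  obtain ⟨v, h2, rfl, rfl⟩ := h
  refine ⟨rfl, h3, h1, h2.two, ?_⟩
  have := h2.mir.size
  have n0 : (BinaryTree.nil : BinaryTree Unit).numNodes = 0 := rfl
  rw [Tsq.mir_num, Tsq.mir_num, n0] at this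
  omega

/-- the mirrored data of a JVm word without the part 1 -/
theorem Is9M.sqDm (h : Is9M .nil .nil Z F g) (h3 : 3 ≤ OddHC.ht Z)
    (h1 : (OddHC.cont Z).count 1 = 0) :
    SqD k (Tsq.mir Z) (Tsq.sq (Tsq.mir Z)).2 (Tsq.sq (Tsq.mir Z)).1 := by
  have hd := h.sqD h3 h1
  refine ⟨rfl, by rw [ht_mir]; exact h3, by rw [MV.cont_mir9]; exact h1, ?_, ?_⟩
  · rw [ht_mir, Tsq.mir_num]
    exact hd.two
  · rw [Tsq.mir_num]
    exact hd.size

/-- the words `(())Z`, `Z(())` are new -/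
theorem Is9M.new01 (h : Is9M .nil .nil Z F g) (x : X k) (hx : x.1 = (.nil △ .nil) △ Z ∨
    x.1 = app Z ((.nil △ .nil) △ .nil)) : cyc x ∈ F := by
  obtain ⟨v, h2, rfl, rfl⟩ := h
  rcases hx with hx | hx
  · left
    congr 1
    apply Subtype.ext
    rw [hx, h2.word 0 (by norm_num)]
    rfl
  · right
    change cyc x = cyc (v 1)
    congr 1
    apply Subtype.ext
    rw [hx, h2.word 1 (by norm_num)]
    rfl

/-- **JVm against J3V, J1**: the exact list -/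
theorem Is9M.meetM (h : Is9M .nil .nil Z F g) (h3 : 3 ≤ OddHC.ht Z)
    (h1 : (OddHC.cont Z).count 1 = 0) (hd : SqD k R B S) {w0 : X k}
    (hz : cyc (sX R B S w0 0) ∉ F) {w : X k} (hw : w ∈ g.B) {i : ℕ} (hi : i < 20)
    (e : w.1 = H1.W R .nil B S i) :
    MV.T4 R Z ∨ (i = 4 ∧ ∃ Q, Z = (.nil △ .nil) △ Q ∧ R = app Q ((.nil △ .nil) △ .nil)) := by
  have hZ := h.sqD h3 h1
  obtain ⟨j, hj, ew, -⟩ := MV.words h w hw
  have hn : Z.numNodes = R.numNodes := by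
    have := hZ.size
    have := hd.size
    omega
  have hz10 : cyc (sX R B S w0 10) ∉ F := by
    rw [← cyc_eq.2 (hd.same w0 (i := 0) (j := 10) (by simp))]
    exact hz
  rcases hd.meetM0 hZ hi hj (e.symm.trans ew) with k1 | ⟨k1, k2⟩ | ⟨k1, k2⟩ | ⟨k1, k2, k3⟩ | k1 | k1 | k1
  · exfalso
    subst k1
    apply hz
    apply h.new01
    right
    rw [hd.word w0 (by norm_num)]
    rfl
  · exfalso
    subst k1
    subst k2
    apply hz10
    apply h.new01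
    left
    rw [hd.word w0 (by norm_num)]
    rfl
  · exfalso
    have k3 : cyc w ∈ F := by
      apply h.new01
      have j2 : j = 0 ∨ j = 1 := by omega
      rcases j2 with rfl | rfl
      · exact Or.inl ew
      · exact Or.inr ew
    rcases k2 with rfl | rfl
    · apply hz
      have : sX R B S w0 0 = w := Subtype.ext (by rw [hd.word w0 (by norm_num), e])
      rw [this]
      exact k3
    · apply hz10
      have : sX R B S w0 10 = w := Subtype.ext (by rw [hd.word w0 (by norm_num), e])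
      rw [this]
      exact k3
  · exact Or.inr ⟨k1, k3⟩
  · exfalso
    -- `xTM Z = (R)`: `R(())` and `(())Z` are on one T-cycle
    have hm := h.sqDm h3 h1
    have e1 : xTM Z = app .nil (R △ .nil) := k1
    rw [MV.xTM_eq] at e1
    obtain ⟨a1, a2⟩ := H1.app_snoc e1
    have b1 : (Tsq.sq (Tsq.mir Z)).2 = .nil := by
      have := congrArg Tsq.mir a1
      rwa [Tsq.mir_mir] at this
    have b2 : (Tsq.sq (Tsq.mir Z)).1 = Tsq.mir R := by
      have := congrArg Tsq.mir a2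
      rwa [Tsq.mir_mir] at this
    have e2 := cyc_eq.2 (hm.same w0 (i := 0) (j := 10) (by simp))
    have e3 := cyc_mir e2
    apply hz
    have e4 : Tsq.mirX (sX (Tsq.mir Z) (Tsq.sq (Tsq.mir Z)).2 (Tsq.sq (Tsq.mir Z)).1 w0 10) =
        sX R B S w0 0 := by
      apply Subtype.ext
      rw [hd.word w0 (by norm_num)]
      change Tsq.mir (sX (Tsq.mir Z) (Tsq.sq (Tsq.mir Z)).2 (Tsq.sq (Tsq.mir Z)).1 w0 10).1 = _
      rw [hm.word w0 (by norm_num), b1, b2]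
      change Tsq.mir ((.nil △ .nil) △ Tsq.mir R) = app R ((.nil △ .nil) △ .nil)
      rw [Tsq.mir_node, Tsq.mir_mir]
      rfl
    rw [← e4, ← e3]
    apply h.new01
    left
    change Tsq.mir (sX (Tsq.mir Z) (Tsq.sq (Tsq.mir Z)).2 (Tsq.sq (Tsq.mir Z)).1 w0 0).1 = _
    rw [hm.word w0 (by norm_num)]
    change Tsq.mir (app (Tsq.mir Z) ((.nil △ .nil) △ .nil)) = _
    rw [Tsq.mir_app, Tsq.mir_mir]
    rfl
  · exact Or.inl ((hd.xM h3 hn).1 k1)
  · exact Or.inl ((hd.xM h3 hn).2 k1)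

/-- different contents: no common word -/
theorem Is9M.meet_ne (h : Is9M .nil .nil Z F g) (h3 : 3 ≤ OddHC.ht Z)
    (h1 : (OddHC.cont Z).count 1 = 0) (hd : SqD k R B S) {w0 : X k}
    (hz : cyc (sX R B S w0 0) ∉ F) (hne : OddHC.cont R ≠ OddHC.cont Z) {w : X k} (hw : w ∈ g.B)
    {i : ℕ} (hi : i < 20) : w.1 ≠ H1.W R .nil B S i := by
  intro e
  rcases h.meetM h3 h1 hd hz hw hi e with h4 | ⟨-, Q, rfl, rfl⟩
  · exact hne h4.cont
  · apply hne
    rw [OddHC.cont_app, OddHC.cont_node (.nil △ .nil) Q, OddHC.cont_node (.nil △ .nil) .nil,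
      OddHC.cont_nil, add_zero, add_comm]

/-- **J3V against JVm**, words -/
theorem TyJ3V.dis_JVm (h : TyJ3V F' g') (h9 : Is9M .nil .nil Z F g) (h3 : 3 ≤ OddHC.ht Z)
    (h1 : (OddHC.cont Z).count 1 = 0) (hd : ∀ c ∈ F, c ∉ F')
    (hx : ∀ R B S w0, SqD k R B S → g' = gadS (sX R B S w0) → OddHC.cont R = OddHC.cont Z →
      ¬ MV.T4 R Z ∧ ∀ Q, ¬ (Z = (.nil △ .nil) △ Q ∧ R = app Q ((.nil △ .nil) △ .nil))) :
    ∀ w ∈ g.B, w ∉ g'.B := by
  obtain ⟨R, B, S, w0, h4, h5, rfl, rfl⟩ := h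
  intro w hw hw'
  obtain ⟨i, hi, -, rfl⟩ := mem_gadS.1 hw'
  have hz : cyc (sX R B S w0 0) ∉ F := fun hc => hd _ hc (Or.inl rfl)
  have e := h4.word w0 hi
  by_cases hc : OddHC.cont R = OddHC.cont Z
  · obtain ⟨x1, x2⟩ := hx R B S w0 h4 rfl hc
    rcases h9.meetM h3 h1 h4 hz hw hi e with h6 | ⟨-, Q, h6⟩
    · exact x1 h6
    · exact x2 Q h6
  · exact h9.meet_ne h3 h1 h4 hz hc hw hi e

/-- **J1 against JVm**, words -/
theorem J1.TyJ1.dis_JVm (h : J1.TyJ1 F' g') (h9 : Is9M .nil .nil Z F g) (h3 : 3 ≤ OddHC.ht Z)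
    (h1 : (OddHC.cont Z).count 1 = 0) (hd : ∀ c ∈ F, c ∉ F')
    (hx : ∀ R B S w0, J1.JDat k R B S → g' = gadJA (J1.jX R B S w0) → OddHC.cont R = OddHC.cont Z →
      ¬ MV.T4 R Z) : ∀ w ∈ g.B, w ∉ g'.B := by
  obtain ⟨R, B, S, w0, h4, h5, rfl, rfl⟩ := h
  intro w hw hw'
  obtain ⟨i, hi, rfl⟩ := J1.mem_gadJA.1 hw'
  have hs := h4.sqD
  have e0 : J1.jX R B S w0 0 = sX R B S w0 0 :=
    Subtype.ext (by rw [J1.jX_eq h4 w0 (by norm_num), hs.word w0 (by norm_num)])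
  have hz : cyc (sX R B S w0 0) ∉ F := fun hc => hd _ hc (by rw [e0]; rfl)
  have e := J1.jX_eq h4 w0 hi
  by_cases hc : OddHC.cont R = OddHC.cont Z
  · rcases h9.meetM h3 h1 hs hz hw hi e with h6 | ⟨rfl, Q, q1, q2⟩
    · exact hx R B S w0 h4 rfl hc h6
    · have h7 : cyc (J1.jX R B S w0 4) ∈ F := by
        apply h9.new01
        right
        rw [e, q1, q2]
        rfl
      rw [h5] at h7
      exact hd _ h7 rfl
  · exact h9.meet_ne h3 h1 hs hz hc hw hi e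

/-- **J1 against JVm**, a part 2 in `Z`: no common word -/
theorem J1.TyJ1.dis_JVm2 (h : J1.TyJ1 F' g') (h9 : Is9M .nil .nil Z F g) (h3 : 3 ≤ OddHC.ht Z)
    (h1 : (OddHC.cont Z).count 1 = 0) (h2 : 2 ∈ OddHC.cont Z) (hd : ∀ c ∈ F, c ∉ F') :
    ∀ w ∈ g.B, w ∉ g'.B := by
  refine h.dis_JVm h9 h3 h1 hd (fun R B S w0 h4 _ hc => ?_)
  have := h4.bare 2 (by rw [hc]; exact h2)
  omega

/-- **JE against JVm**, words -/
theorem TyJE.dis_JVm (h : TyJE R F' g') (h9 : Is9M .nil .nil Z F g) (h3 : 3 ≤ OddHC.ht Z)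
    (h1 : (OddHC.cont Z).count 1 = 0) (hd : ∀ c ∈ F, c ∉ F')
    (hx : OddHC.cont R = OddHC.cont Z →
      ¬ MV.T4 R Z ∧ ∀ Q, ¬ (Z = (.nil △ .nil) △ Q ∧ R = app Q ((.nil △ .nil) △ .nil))) :
    ∀ w ∈ g.B, w ∉ g'.B := by
  obtain ⟨B, S, w0, h4, h5, rfl, rfl⟩ := h
  intro w hw hw'
  obtain ⟨i, hi, rfl⟩ := mem_gadOf_B.1 hw'
  have hi' : i < 20 := (by decide : ∀ i ∈ ixG13, i < 20) i hi
  have hz : cyc (sX R B S w0 0) ∉ F := fun hc => hd _ hc ⟨0, by decide, rfl⟩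
  have e := h4.word w0 hi'
  by_cases hc : OddHC.cont R = OddHC.cont Z
  · obtain ⟨x1, x2⟩ := hx hc
    rcases h9.meetM h3 h1 h4 hz hw hi' e with h6 | ⟨-, Q, h6⟩
    · exact x1 h6
    · exact x2 Q h6
  · exact h9.meet_ne h3 h1 h4 hz hc hw hi' e

/-- **H (JM, JY, J5, NM) against JVm**, words -/
theorem Hole2.TyH.dis_JVm (h : Hole2.TyH F' g') (h9 : Is9M .nil .nil Z F g)
    (h1 : (OddHC.cont Z).count 1 = 0) (h3 : 3 ≤ OddHC.ht Z) (h2 : 2 ≤ p3 (OddHC.cont Z))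
    (hx : 3 ∈ OddHC.cont Z → p3 (OddHC.cont Z) = 2 →
      ∀ (t u : ℕ) (D : BinaryTree Unit), J.GD D → xTM Z ≠ J.b2 (t + 1) △ J.RR u D 0) :
    ∀ w ∈ g'.B, w ∉ g.B := by
  obtain ⟨n, hn, P, U, M, hj⟩ := h.jg
  exact hj.disj_JVm hn h9 h1 h3 h2 hx

end Pool.OddHC
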