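import Pool.Agent.Work.MP_8f87b2_h16.MVR
import Pool.Agent.Work.MP_8f87b2_h22.JA
import Pool.Agent.Work.MP_8f87b2_h49.JVJ1

/-!
# The pair gadgets JV (`Is9 nil nil Z`) and JVm (`Is9M nil nil Z`) against ALL windows A (also without a part 1), words (helper16)

A common word implies `Cb q R B S Z X` (`X = xT Z` resp. `xTM Z`), `R = B1(Hs)B`, `(S, B) = sq R`. If the window has a part 1, or if
`Z` has two more (or fewer) parts 2 than .., see `cb_count`.
-/

set_option autoImplicit false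
set_option linter.unusedSimpArgs false
set_option linter.unusedVariables false

namespace Pool.OddHC

open Finset Equiv BinaryTree Pool.Agent.Work.MP_8f87b2_co

variable {k q : ℕ} {Z : BinaryTree Unit} {F F' : Set (Cyc k)} {g g' : DG k}

namespace MV

theorem hv_Hf : ∀ {t : BinaryTree Unit}, H1.hv t → Hf t := by
  intro t
  induction t with
  | nil => intro _ A hA; simp [comps] at hA
  | node _ A C _ ih =>
    intro h D hD
    obtain ⟨h1, h2⟩ := h
    change D ∈ A :: comps C at hD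
    rw [List.mem_cons] at hD
    rcases hD with rfl | hD
    · rcases h1 with rfl | ⟨h3, h4⟩
      · exact le_refl 2
      · have := H1.hv_ht h4 h3
        rw [H1.ht_eq] at this
        omega
    · exact ih h2 D hD

/-- the second part of the square consists of components of the word -/
theorem sq2_comps : ∀ t : BinaryTree Unit, t ≠ .nil → ∀ A ∈ comps (Tsq.sq t).2, A ∈ comps t := by
  intro t
  induction t with
  | nil => intro h; exact absurd rfl h
  | node u A C _ ih =>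
    intro _ D hD
    change D ∈ A :: comps C
    change D ∈ comps (Tsq.sq (A △ C)).2 at hD
    by_cases hlt : Tsq.ht A + 1 < Tsq.ht C
    · have hC : C ≠ .nil := by
        rintro rfl
        rw [Tsq.ht] at hlt
        omega
      obtain ⟨P, Q, e, -, -⟩ := J1V.sq_first C hC
      rw [Tsq.sq_lt hlt e] at hD
      exact List.mem_cons_of_mem _ (ih hC D hD)
    · by_cases hA : A = .nil
      · subst hA
        have h0 : Tsq.ht (BinaryTree.nil : BinaryTree Unit) = 0 := rfl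
        rw [Tsq.sq_nil (by omega)] at hD
        exact List.mem_cons_of_mem _ hD
      · rw [Tsq.sq_ge hA (by omega)] at hD
        exact List.mem_cons_of_mem _ hD

theorem A_Hf {B1 H s B : BinaryTree Unit} (h : H1.NodeG k q B1 H s B) :
    Hf (H1.gR B1 H s B) ∧ Hf B ∧ Hf (Tsq.sq (H1.gR B1 H s B)).1 ∧ 2 ≤ ht (H1.gR B1 H s B) ∧
      2 ≤ ht (Tsq.sq (H1.gR B1 H s B)).1 := by
  obtain ⟨X, Y, g, g1, g2, g3⟩ := H1.sq_hv h.hs h.s0
  have hs3 := H1.hv_ht h.hs h.s0
  have hH2 := H1.bl_ht h.light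
  have e1 : Tsq.ht (app H s) = Tsq.ht s := by rw [Tsq.ht_app]; omega
  have hlow := h.low
  have htop := h.top
  have e2 : Tsq.sq (app H s) = (app H X △ Y, (Tsq.sq s).2) := by
    rw [Tsq.sq_pre H s (by omega), g.e]
    rfl
  have e3 : Tsq.sq (app H s △ B) = ((app H X △ Y) △ (Tsq.sq s).2, B) := by
    rw [Tsq.sq_ge (H1.app_ne h.s0) (by rw [e1, H1.ht_eq, H1.ht_eq]; omega), e2]
  have e4 : Tsq.sq (H1.gR B1 H s B) = (app B1 (app H X △ Y) △ (Tsq.sq s).2, B) := by
    unfold H1.gR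
    rw [Tsq.sq_pre B1 _ (by rw [Tsq.ht_node, H1.ht_eq, H1.ht_eq, H1.ht_eq, ht_app]; omega), e3]
    rfl
  have htR := h.ht
  have hs3' : 3 ≤ ht s := by rw [← H1.ht_eq]; exact hs3
  have f1 := hv_Hf h.h1
  have f2 := hv_Hf h.hB
  have f3 := hv_Hf h.hs
  have hX : 1 ≤ ht X := by
    by_contra hc
    have h5 : ht X = 0 := by omega
    apply g.X0
    cases X with
    | nil => rfl
    | node _ _ _ => rw [ht] at h5; omega
  refine ⟨?_, f2, ?_, by omega, ?_⟩
  · intro D hD
    unfold H1.gR at hD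
    rw [comps_app, List.mem_append] at hD
    rcases hD with hD | hD
    · exact f1 D hD
    · change D ∈ app H s :: comps B at hD
      rw [List.mem_cons] at hD
      rcases hD with rfl | hD
      · rw [ht_app]; omega
      · exact f2 D hD
  · rw [e4]
    intro D hD
    change D ∈ app B1 (app H X △ Y) :: comps (Tsq.sq s).2 at hD
    rw [List.mem_cons] at hD
    rcases hD with rfl | hD
    · rw [ht_app, ht_node, ht_app]; omega
    · exact f3 D (sq2_comps s h.s0 D hD)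
  · rw [e4]
    change 2 ≤ ht (app B1 (app H X △ Y) △ (Tsq.sq s).2)
    rw [ht_node, ht_app, ht_node, ht_app]
    omega

/-- the right word numbers -/
def pr (i : ℕ) : ℕ := [1, 0, 4, 3, 2, 9, 6, 8, 7].getD i 0

theorem w9_T10 (Z : BinaryTree Unit) {i : ℕ} (hi : i < 9) :
    w9L .nil .nil Z (xT Z) i = T10 Z (xT Z) (pr i) := by
  obtain ⟨e0, e1, e2, e3, e4, e5, e6, e7, e8⟩ := w9_forms Z
  have hx := xT_sq Z
  interval_cases i
  · exact e0
  · exact e1
  · exact e2
  · exact e3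
  · exact e4
  · exact e5
  · rw [e6, ← hx]; rfl
  · rw [e7]
    change _ = app (xT Z) (.nil △ .nil)
    rw [hx]; rfl
  · rw [e8, ← hx]; rfl

theorem count_xT1 (hZ : 3 ≤ ht Z) (h0 : (cont Z).count 1 = 0) : (cont (xT Z)).count 1 = 0 := by
  have hne : Z ≠ .nil := by rintro rfl; rw [ht] at hZ; omega
  rw [count_xT hne (by omega), h0]

theorem xT_ne0 (Z : BinaryTree Unit) : xT Z ≠ .nil := by
  rw [xT_sq]
  simp

/-- **all windows A against JVm** -/
theorem A_JVm (h9 : Is9M .nil .nil Z F g) (h3 : 3 ≤ ht Z) (h1 : (cont Z).count 1 = 0)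
    (hA : TyA F' g') (hx : ∀ q B1 H s B w0, H1.NodeG k q B1 H s B → g' = gad20 (H1.gX q B1 H s B w0) →
      ¬ Cb q (H1.gR B1 H s B) B (Tsq.sq (H1.gR B1 H s B)).1 Z (xTM Z)) : ∀ w ∈ g.B, w ∉ g'.B := by
  obtain ⟨q, B1, H, s, B, w0, hg, rfl, rfl⟩ := hA
  intro w hw hw'
  obtain ⟨j, hj, rfl⟩ := mem_gad20.1 hw'
  obtain ⟨i, hi, e, -⟩ := words h9 _ hw
  have m := MF.of h3 h1
  obtain ⟨a1, a2, a3, a4, a5⟩ := A_Hf hg
  rw [hg.word w0 hj, W_T10 _ _ hi] at e
  exact hx q B1 H s B w0 hg rfl (bare m.oS m.oX m.Sne m.Xne a1 a2 a3 a4 a5 (by omega) hj e.symm)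

/-- **all windows A against JV** -/
theorem A_JV (h9 : Is9 .nil .nil Z F g) (h3 : 3 ≤ ht Z) (h1 : (cont Z).count 1 = 0)
    (hA : TyA F' g') (hx : ∀ q B1 H s B w0, H1.NodeG k q B1 H s B → g' = gad20 (H1.gX q B1 H s B w0) →
      ¬ Cb q (H1.gR B1 H s B) B (Tsq.sq (H1.gR B1 H s B)).1 Z (xT Z)) : ∀ w ∈ g.B, w ∉ g'.B := by
  obtain ⟨q, B1, H, s, B, w0, hg, rfl, rfl⟩ := hA
  intro w hw hw'
  obtain ⟨j, hj, rfl⟩ := mem_gad20.1 hw'
  obtain ⟨i, hi, e, -⟩ := h9.words _ hw
  have hZ : Z ≠ .nil := by rintro rfl; rw [ht] at h3; omega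
  obtain ⟨a1, a2, a3, a4, a5⟩ := A_Hf hg
  rw [hg.word w0 hj, w9_T10 _ hi] at e
  have hp : pr i < 10 := by interval_cases i <;> decide
  exact hx q B1 H s B w0 hg rfl (bare h1 (count_xT1 h3 h1) hZ (xT_ne0 Z) a1 a2 a3 a4 a5 hp hj e.symm)

end MV

end Pool.OddHC
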